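import Mathlib
import Pool.Agent.Helper8.AP.Ph
import Pool.Agent.Helper57.BG.Stmts

/-!
# MP_8958e8, A': the second Cauchy inequality (block SC of h57_A_TII.md), from K3
-/

open Finset

namespace Pool.Agent.Helper62.AP

open Pool.Agent.Helper57.BG (ph scb Stmt_K3 Stmt_AB Stmt_SC Stmt_SCF)

theorem norm_ph (V : ℕ) (c n : ℤ) : ‖ph V c n‖ = 1 := Pool.Agent.Helper8.AP.norm_ph V c n

theorem ph_mul_arg {V : ℕ} {c a n x : ℤ} (hx : a * x ≡ 1 [ZMOD V]) (hn : IsCoprime n (V : ℤ)) :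
    ph V c (a * n) = ph V (c * x) n := Pool.Agent.Helper8.AP.ph_mul_arg hx hn

theorem ph_cross {V w₁ w₂ : ℕ} (h₁ : w₁ ≠ 0) (h₂ : w₂ ≠ 0) {c n : ℤ}
    (h : IsCoprime n ((V * w₁ * w₂ : ℕ) : ℤ)) :
    ph (V * w₁) c n * (starRingEnd ℂ) (ph (V * w₂) c n) =
      ph (V * w₁ * w₂) (c * (w₂ - w₁)) n := Pool.Agent.Helper8.AP.ph_cross h₁ h₂ h

/-- number of integers of a class in an interval -/
theorem card_cls (A ρ : ℤ) (N h : ℕ) (hh : 0 < h) :
    (((Finset.Ioc A (A + N)).filter (fun n => n ≡ ρ [ZMOD h])).card : ℝ) ≤ (N : ℝ) / h + 1 := by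
  have hh' : (0 : ℤ) < h := by exact_mod_cast hh
  have key := Int.Ioc_filter_modEq_card A (A + N) hh' ρ
  have hq : (0 : ℚ) < h := by exact_mod_cast hh
  have h1 : ((⌊((A + N : ℤ) - ρ : ℚ) / ((h : ℤ) : ℚ)⌋ : ℤ) : ℚ) ≤
      ((A + N : ℤ) - ρ : ℚ) / ((h : ℤ) : ℚ) := Int.floor_le _
  have h2 : ((A - ρ : ℚ) / ((h : ℤ) : ℚ)) < ((⌊(A - ρ : ℚ) / ((h : ℤ) : ℚ)⌋ : ℤ) : ℚ) + 1 :=
    Int.lt_floor_add_one _
  have h3 : (((A + N : ℤ) - ρ : ℚ) / ((h : ℤ) : ℚ)) =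
      ((A - ρ : ℚ) / ((h : ℤ) : ℚ)) + (N : ℚ) / h := by
    push_cast
    field_simp
    ring
  have h4 : ((((Finset.Ioc A (A + N)).filter (fun n => n ≡ ρ [ZMOD h])).card : ℤ) : ℚ) ≤
      (N : ℚ) / h + 1 := by
    rw [key]
    push_cast
    rw [max_le_iff]
    constructor
    · push_cast at h1 h2 h3
      linarith
    · positivity
  have h5 : ((((Finset.Ioc A (A + N)).filter (fun n => n ≡ ρ [ZMOD h])).card : ℚ)) ≤
      (N : ℚ) / h + 1 := by exact_mod_cast h4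
  have h6 : (((((Finset.Ioc A (A + N)).filter (fun n => n ≡ ρ [ZMOD h])).card : ℚ)) : ℝ) ≤
      (((N : ℚ) / h + 1 : ℚ) : ℝ) := by exact_mod_cast h5
  push_cast at h6
  exact h6

/-- the bound for w1 and w2 different -/
theorem off_diag (hK3 : Stmt_K3) {P : ℝ} (hP : 1 ≤ P) {V h : ℕ} {c a ρ A : ℤ} {N : ℕ}
    {w1 w2 : ℕ} (p1 : w1.Prime) (p2 : w2.Prime) (l1 : P < w1) (u1 : (w1 : ℝ) ≤ 2 * P)
    (l2 : P < w2) (u2 : (w2 : ℝ) ≤ 2 * P) (hne : w1 ≠ w2) (hV : Squarefree V) (c1 : Nat.Coprime w1 V)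
    (c2 : Nat.Coprime w2 V) (hc : c ≠ 0) (h0 : 0 < h) (hh : Nat.Coprime h V)
    (hh1 : Nat.Coprime h w1) (hh2 : Nat.Coprime h w2) (ha : IsCoprime a (V : ℤ))
    (ha1 : IsCoprime a (w1 : ℤ)) (ha2 : IsCoprime a (w2 : ℤ)) :
    ‖∑ n ∈ (Finset.Ioc A (A + N)).filter
        (fun n => n ≡ ρ [ZMOD h] ∧ IsCoprime n ((V * w1 * w2 : ℕ) : ℤ)),
      ph (V * w1) c (a * n) * (starRingEnd ℂ) (ph (V * w2) c (a * n))‖ ≤
    ((N : ℝ) / (h * V * P ^ 2) + 1) * (|(c : ℝ)| * P) +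
      2 ^ (V.primeFactors.card + 3) * (4 * V * (P : ℝ) ^ 2) ^ ((3 : ℝ) / 4) *
        (|(c : ℝ)| * P) ^ ((1 : ℝ) / 4) * (1 + Real.log (4 * V * (P : ℝ) ^ 2)) := by
  have hV0 : 0 < V := Nat.pos_of_ne_zero hV.ne_zero
  have hM0 : 0 < V * w1 * w2 := Nat.mul_pos (Nat.mul_pos hV0 p1.pos) p2.pos
  have c12 : Nat.Coprime w1 w2 := (Nat.coprime_primes p1 p2).mpr hne
  have haM : IsCoprime a ((V * w1 * w2 : ℕ) : ℤ) := by
    push_cast
    exact (ha.mul_right ha1).mul_right ha2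
  obtain ⟨a', z, haz⟩ := haM
  have ha' : a * a' ≡ 1 [ZMOD ((V * w1 * w2 : ℕ) : ℤ)] := by
    rw [Int.modEq_iff_dvd]
    exact ⟨z, by linarith⟩
  have hcopa' : IsCoprime a' ((V * w1 * w2 : ℕ) : ℤ) := ⟨a, z, by linarith⟩
  set M := V * w1 * w2 with hM
  set C : ℤ := c * ((w2 : ℤ) - (w1 : ℤ)) with hC
  have hsq : Squarefree M := by
    have s1 : Squarefree (V * w1) :=
      (Nat.squarefree_mul c1.symm).mpr ⟨hV, p1.squarefree⟩
    exact (Nat.squarefree_mul (Nat.Coprime.mul_left c2.symm c12)).mpr ⟨s1, p2.squarefree⟩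
  have hhM : Nat.Coprime h M := by
    rw [hM]
    exact (hh.mul_right hh1).mul_right hh2
  have e1 : ∑ n ∈ (Finset.Ioc A (A + N)).filter
        (fun n => n ≡ ρ [ZMOD h] ∧ IsCoprime n (M : ℤ)),
      ph (V * w1) c (a * n) * (starRingEnd ℂ) (ph (V * w2) c (a * n)) =
      ∑ n ∈ (Finset.Ioc A (A + N)).filter
        (fun n => n ≡ ρ [ZMOD h] ∧ IsCoprime n (M : ℤ)), ph M (C * a') n := by
    apply Finset.sum_congr rfl
    intro n hn
    have hn2 : IsCoprime n (M : ℤ) := (Finset.mem_filter.mp hn).2.2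
    have hn3 : IsCoprime (a * n) (M : ℤ) := IsCoprime.mul_left ⟨a', z, haz⟩ hn2
    rw [ph_cross p1.ne_zero p2.ne_zero hn3]
    exact ph_mul_arg ha' hn2
  rw [e1]
  have hk := hK3 M h hsq h0 hhM (C * a') ρ A N
  have hg : ((Int.gcd (C * a') M : ℕ) : ℝ) ≤ |(c : ℝ)| * P := by
    have g1 : Int.gcd (C * a') M = Int.gcd C M := by
      have : Int.gcd a' M = 1 := Int.isCoprime_iff_gcd_eq_one.mp hcopa'
      rw [Int.gcd_eq_natAbs] at this
      rw [Int.gcd_eq_natAbs, Int.gcd_eq_natAbs, Int.natAbs_mul]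
      exact Nat.Coprime.gcd_mul_right_cancel _ this
    rw [g1]
    have hCne : C ≠ 0 := by
      rw [hC]
      refine mul_ne_zero hc ?_
      intro h
      apply hne
      have : (w1 : ℤ) = w2 := by linarith
      exact_mod_cast this
    have g2 : Int.gcd C M ≤ C.natAbs := by
      rw [Int.gcd_eq_natAbs]
      exact Nat.gcd_le_left _ (Int.natAbs_pos.mpr hCne)
    have g3 : ((Int.gcd C M : ℕ) : ℝ) ≤ |(C : ℝ)| := by
      calc ((Int.gcd C M : ℕ) : ℝ) ≤ (C.natAbs : ℝ) := by exact_mod_cast g2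
        _ = |(C : ℝ)| := by rw [Nat.cast_natAbs, Int.cast_abs]
    refine g3.trans ?_
    rw [hC]
    push_cast
    rw [abs_mul]
    apply mul_le_mul_of_nonneg_left _ (abs_nonneg _)
    rw [abs_le]
    constructor <;> linarith
  have hM1 : (V : ℝ) * P ^ 2 ≤ M := by
    rw [hM]
    push_cast
    have r1 : (P : ℝ) ≤ w1 := l1.le
    have r3 : (P : ℝ) ≤ w2 := l2.le
    have r0 : (0 : ℝ) ≤ P := by linarith
    calc (V : ℝ) * P ^ 2 = V * (P * P) := by ring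
      _ ≤ V * (w1 * w2) := by gcongr
      _ = V * w1 * w2 := by ring
  have hM2 : (M : ℝ) ≤ 4 * V * (P : ℝ) ^ 2 := by
    rw [hM]
    push_cast
    calc (V : ℝ) * w1 * w2 = V * (w1 * w2) := by ring
      _ ≤ V * ((2 * P) * (2 * P)) := by gcongr
      _ = 4 * V * (P : ℝ) ^ 2 := by ring
  have hVr : (0 : ℝ) < V := by exact_mod_cast hV0
  have hPr : (0 : ℝ) < P := by linarith
  have hhr : (0 : ℝ) < h := by exact_mod_cast h0
  have hMr : (0 : ℝ) < M := by exact_mod_cast hM0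
  have hM1' : (1 : ℝ) ≤ M := by exact_mod_cast hM0
  have hom : M.primeFactors.card ≤ V.primeFactors.card + 2 := by
    rw [hM, Nat.primeFactors_mul (Nat.mul_pos hV0 p1.pos).ne' p2.ne_zero,
      Nat.primeFactors_mul hV0.ne' p1.ne_zero, p1.primeFactors, p2.primeFactors]
    calc _ ≤ (V.primeFactors ∪ {w1}).card + ({w2} : Finset ℕ).card := Finset.card_union_le _ _
      _ ≤ (V.primeFactors.card + ({w1} : Finset ℕ).card) + ({w2} : Finset ℕ).card := by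
          gcongr; exact Finset.card_union_le _ _
      _ = _ := by simp
  refine hk.trans ?_
  have hgn : (0 : ℝ) ≤ ((Int.gcd (C * a') M : ℕ) : ℝ) := by positivity
  have hlog : 0 ≤ 1 + Real.log M := by
    have := Real.log_nonneg hM1'
    linarith
  apply add_le_add
  · have : (N : ℝ) / (h * M) ≤ (N : ℝ) / (h * V * P ^ 2) := by
      apply div_le_div_of_nonneg_left (by positivity) (by positivity)
      have e : (h : ℝ) * V * (P : ℝ) ^ 2 = (h : ℝ) * ((V : ℝ) * (P : ℝ) ^ 2) := by ring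
      rw [e]
      exact mul_le_mul_of_nonneg_left hM1 hhr.le
    gcongr
  · have h2 : (2 : ℝ) ^ (M.primeFactors.card + 1) ≤ 2 ^ (V.primeFactors.card + 3) := by
      apply pow_le_pow_right₀ (by norm_num)
      omega
    have h3 : (M : ℝ) ^ ((3 : ℝ) / 4) ≤ (4 * V * (P : ℝ) ^ 2) ^ ((3 : ℝ) / 4) :=
      Real.rpow_le_rpow hMr.le hM2 (by norm_num)
    have h4 : ((Int.gcd (C * a') M : ℕ) : ℝ) ^ ((1 : ℝ) / 4) ≤
        (|(c : ℝ)| * P) ^ ((1 : ℝ) / 4) := Real.rpow_le_rpow hgn hg (by norm_num)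
    have h5 : 1 + Real.log M ≤ 1 + Real.log (4 * V * (P : ℝ) ^ 2) := by
      have := Real.log_le_log hMr hM2
      linarith
    gcongr

/-- SC: the second Cauchy inequality -/
theorem scZ (hK3 : Stmt_K3) (W : Finset ℕ) (P : ℝ) (hP : 1 ≤ P) (V h : ℕ) (c a ρ A : ℤ)
    (N : ℕ) (lam : ℕ → ℂ) (hW : ∀ w ∈ W, w.Prime ∧ P < w ∧ (w : ℝ) ≤ 2 * P) (hV : Squarefree V)
    (hWV : ∀ w ∈ W, Nat.Coprime w V) (hc : c ≠ 0) (h0 : 0 < h) (hh : Nat.Coprime h V)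
    (hhW : ∀ w ∈ W, Nat.Coprime h w) (ha : IsCoprime a (V : ℤ))
    (haW : ∀ w ∈ W, IsCoprime a (w : ℤ)) (hlam : ∀ w ∈ W, ‖lam w‖ ≤ 1) :
    ∑ n ∈ (Finset.Ioc A (A + N)).filter (fun n => n ≡ ρ [ZMOD h] ∧ IsCoprime n (V : ℤ)),
      ‖∑ w ∈ W.filter (fun w : ℕ => ¬ (w : ℤ) ∣ n), lam w * ph (V * w) c (a * n)‖ ^ 2 ≤
    (W.card : ℝ) * ((N : ℝ) / h + 1) + (W.card : ℝ) ^ 2 *
      (((N : ℝ) / (h * V * P ^ 2) + 1) * (|(c : ℝ)| * P) +
      2 ^ (V.primeFactors.card + 3) * (4 * V * (P : ℝ) ^ 2) ^ ((3 : ℝ) / 4) *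
        (|(c : ℝ)| * P) ^ ((1 : ℝ) / 4) * (1 + Real.log (4 * V * (P : ℝ) ^ 2))) := by
  classical
  set B : ℝ := ((N : ℝ) / (h * V * P ^ 2) + 1) * (|(c : ℝ)| * P) +
      2 ^ (V.primeFactors.card + 3) * (4 * V * (P : ℝ) ^ 2) ^ ((3 : ℝ) / 4) *
        (|(c : ℝ)| * P) ^ ((1 : ℝ) / 4) * (1 + Real.log (4 * V * (P : ℝ) ^ 2)) with hB
  set S : Finset ℤ :=
    (Finset.Ioc A (A + N)).filter (fun n => n ≡ ρ [ZMOD h] ∧ IsCoprime n (V : ℤ)) with hS
  have hV0 : 0 < V := Nat.pos_of_ne_zero hV.ne_zero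
  have hV1 : (1 : ℝ) ≤ V := by exact_mod_cast hV0
  have hBn : 0 ≤ B := by
    have h1 : (1 : ℝ) ≤ 4 * V * (P : ℝ) ^ 2 := by
      have e2 : (1 : ℝ) ≤ P ^ 2 := one_le_pow₀ hP
      nlinarith
    have hP0 : (0 : ℝ) < P := by linarith
    have h2 := Real.log_nonneg h1
    rw [hB]
    positivity
  -- the terms
  set F : ℕ → ℤ → ℂ := fun w n =>
    if (w : ℤ) ∣ n then 0 else lam w * ph (V * w) c (a * n) with hF
  have hin : ∀ n : ℤ, ∑ w ∈ W.filter (fun w : ℕ => ¬ (w : ℤ) ∣ n), lam w * ph (V * w) c (a * n) =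
      ∑ w ∈ W, F w n := by
    intro n
    rw [Finset.sum_filter]
    apply Finset.sum_congr rfl
    intro w _
    simp only [hF]
    by_cases hd : (w : ℤ) ∣ n <;> simp [hd]
  have hop : ((∑ n ∈ S, ‖∑ w ∈ W.filter (fun w : ℕ => ¬ (w : ℤ) ∣ n),
      lam w * ph (V * w) c (a * n)‖ ^ 2 : ℝ) : ℂ) =
      ∑ w1 ∈ W, ∑ w2 ∈ W, ∑ n ∈ S, F w1 n * (starRingEnd ℂ) (F w2 n) := by
    push_cast
    have : ∀ n ∈ S, ((‖∑ w ∈ W.filter (fun w : ℕ => ¬ (w : ℤ) ∣ n),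
        lam w * ph (V * w) c (a * n)‖ : ℝ) : ℂ) ^ 2 =
        ∑ w1 ∈ W, ∑ w2 ∈ W, F w1 n * (starRingEnd ℂ) (F w2 n) := by
      intro n _
      rw [hin n, ← Complex.mul_conj', map_sum, Finset.sum_mul_sum]
    rw [Finset.sum_congr rfl this, Finset.sum_comm]
    apply Finset.sum_congr rfl
    intro w1 _
    rw [Finset.sum_comm]
  have hF1 : ∀ w ∈ W, ∀ n, ‖F w n‖ ≤ 1 := by
    intro w hw n
    simp only [hF]
    split_ifs
    · simp
    · rw [norm_mul, norm_ph, mul_one]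
      exact hlam w hw
  have hdiag : ∀ w ∈ W, ‖∑ n ∈ S, F w n * (starRingEnd ℂ) (F w n)‖ ≤ (N : ℝ) / h + 1 := by
    intro w hw
    calc ‖∑ n ∈ S, F w n * (starRingEnd ℂ) (F w n)‖ ≤ ∑ n ∈ S, (1 : ℝ) := by
          apply (norm_sum_le _ _).trans
          apply Finset.sum_le_sum
          intro n _
          rw [norm_mul, RCLike.norm_conj]
          have := hF1 w hw n
          have h0 := norm_nonneg (F w n)
          nlinarith
      _ = (S.card : ℝ) := by simp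
      _ ≤ (((Finset.Ioc A (A + N)).filter (fun n => n ≡ ρ [ZMOD h])).card : ℝ) := by
          have : S ⊆ (Finset.Ioc A (A + N)).filter (fun n => n ≡ ρ [ZMOD h]) := by
            intro n hn
            rw [hS, Finset.mem_filter] at hn
            rw [Finset.mem_filter]
            exact ⟨hn.1, hn.2.1⟩
          exact_mod_cast Finset.card_le_card this
      _ ≤ _ := card_cls A ρ N h h0
  have hoff : ∀ w1 ∈ W, ∀ w2 ∈ W, w1 ≠ w2 →
      ‖∑ n ∈ S, F w1 n * (starRingEnd ℂ) (F w2 n)‖ ≤ B := by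
    intro w1 hw1 w2 hw2 hne
    have ⟨p1, l1, u1⟩ := hW w1 hw1
    have ⟨p2, l2, u2⟩ := hW w2 hw2
    have key := off_diag hK3 hP (ρ := ρ) (A := A) (N := N) p1 p2 l1 u1 l2 u2 hne hV
      (hWV w1 hw1) (hWV w2 hw2) hc h0 hh (hhW w1 hw1) (hhW w2 hw2) ha (haW w1 hw1)
      (haW w2 hw2)
    have e : ∑ n ∈ S, F w1 n * (starRingEnd ℂ) (F w2 n) =
        (lam w1 * (starRingEnd ℂ) (lam w2)) * ∑ n ∈ (Finset.Ioc A (A + N)).filter
        (fun n => n ≡ ρ [ZMOD h] ∧ IsCoprime n ((V * w1 * w2 : ℕ) : ℤ)),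
      ph (V * w1) c (a * n) * (starRingEnd ℂ) (ph (V * w2) c (a * n)) := by
      rw [Finset.mul_sum]
      symm
      apply Finset.sum_subset_zero_on_sdiff
      · intro n hn
        rw [Finset.mem_filter] at hn
        rw [hS, Finset.mem_filter]
        refine ⟨hn.1, hn.2.1, ?_⟩
        have h3 := hn.2.2
        push_cast at h3
        exact (h3.of_mul_right_left).of_mul_right_left
      · intro n hn
        rw [hS, Finset.mem_sdiff, Finset.mem_filter, Finset.mem_filter] at hn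
        obtain ⟨⟨hn1, hn2, hn3⟩, hn4⟩ := hn
        have h5 : ¬ IsCoprime n ((V * w1 * w2 : ℕ) : ℤ) := fun h => hn4 ⟨hn1, hn2, h⟩
        simp only [hF]
        by_cases d1 : (w1 : ℤ) ∣ n
        · simp [d1]
        by_cases d2 : (w2 : ℤ) ∣ n
        · simp [d2]
        exfalso
        apply h5
        push_cast
        have q1 : IsCoprime n (w1 : ℤ) :=
          ((Nat.prime_iff_prime_int.mp p1).coprime_iff_not_dvd.mpr d1).symm
        have q2 : IsCoprime n (w2 : ℤ) :=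
          ((Nat.prime_iff_prime_int.mp p2).coprime_iff_not_dvd.mpr d2).symm
        exact (hn3.mul_right q1).mul_right q2
      · intro n hn
        rw [Finset.mem_filter] at hn
        have h3 := hn.2.2
        push_cast at h3
        have q1 : IsCoprime n (w1 : ℤ) := (h3.of_mul_right_left).of_mul_right_right
        have q2 : IsCoprime n (w2 : ℤ) := h3.of_mul_right_right
        have d1 : ¬ (w1 : ℤ) ∣ n :=
          (Nat.prime_iff_prime_int.mp p1).coprime_iff_not_dvd.mp q1.symm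
        have d2 : ¬ (w2 : ℤ) ∣ n :=
          (Nat.prime_iff_prime_int.mp p2).coprime_iff_not_dvd.mp q2.symm
        simp only [hF, d1, d2, if_false, map_mul]
        ring
    rw [e, norm_mul]
    have hl : ‖lam w1 * (starRingEnd ℂ) (lam w2)‖ ≤ 1 := by
      rw [norm_mul, RCLike.norm_conj]
      have h1 := hlam w1 hw1
      have h2 := hlam w2 hw2
      have h3 := norm_nonneg (lam w1)
      have h4 := norm_nonneg (lam w2)
      nlinarith
    calc _ ≤ 1 * B := by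
          apply mul_le_mul hl key (norm_nonneg _) (by norm_num)
      _ = B := one_mul B
  -- assembly
  have hnn : 0 ≤ ∑ n ∈ S, ‖∑ w ∈ W.filter (fun w : ℕ => ¬ (w : ℤ) ∣ n),
      lam w * ph (V * w) c (a * n)‖ ^ 2 := Finset.sum_nonneg (fun n _ => by positivity)
  have hno : (∑ n ∈ S, ‖∑ w ∈ W.filter (fun w : ℕ => ¬ (w : ℤ) ∣ n),
      lam w * ph (V * w) c (a * n)‖ ^ 2) =
      ‖∑ w1 ∈ W, ∑ w2 ∈ W, ∑ n ∈ S, F w1 n * (starRingEnd ℂ) (F w2 n)‖ := by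
    rw [← hop, Complex.norm_real, Real.norm_of_nonneg hnn]
  rw [hno]
  calc ‖∑ w1 ∈ W, ∑ w2 ∈ W, ∑ n ∈ S, F w1 n * (starRingEnd ℂ) (F w2 n)‖
      ≤ ∑ w1 ∈ W, ∑ w2 ∈ W, ‖∑ n ∈ S, F w1 n * (starRingEnd ℂ) (F w2 n)‖ := by
        apply (norm_sum_le _ _).trans
        apply Finset.sum_le_sum
        intro w1 _
        exact norm_sum_le _ _
    _ ≤ ∑ w1 ∈ W, ∑ w2 ∈ W, ((if w1 = w2 then ((N : ℝ) / h + 1) else 0) + B) := by
        apply Finset.sum_le_sum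
        intro w1 hw1
        apply Finset.sum_le_sum
        intro w2 hw2
        by_cases hne : w1 = w2
        · subst hne
          simp only [if_true]
          have := hdiag w1 hw1
          linarith
        · simp only [hne, if_false, zero_add]
          exact hoff w1 hw1 w2 hw2 hne
    _ = (W.card : ℝ) * ((N : ℝ) / h + 1) + (W.card : ℝ) ^ 2 * B := by
        simp only [Finset.sum_add_distrib, Finset.sum_ite_eq, Finset.sum_const, nsmul_eq_mul]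
        rw [Finset.sum_congr rfl (g := fun _ => ((N : ℝ) / h + 1))]
        · simp only [Finset.sum_const, nsmul_eq_mul]
          ring
        · intro w hw
          simp [hw]

/-- G4: the stub, verbatim -/
theorem SC (hK3 : Stmt_K3) (W : Finset ℕ) (P : ℝ) (hP : 1 ≤ P)
    (hW : ∀ w ∈ W, w.Prime ∧ P < w ∧ (w : ℝ) ≤ 2 * P)
    (V h N : ℕ) (hV : Squarefree V) (hh : 0 < h) (hhV : Nat.Coprime h V)
    (hVW : ∀ w ∈ W, Nat.Coprime w V) (hhW : ∀ w ∈ W, Nat.Coprime w h)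
    (c a : ℤ) (ρ : ℕ) (hc : c ≠ 0) (haV : Int.gcd a V = 1) (haW : ∀ w ∈ W, Int.gcd a w = 1)
    (lam : ℕ → ℂ) (hlam : ∀ w, ‖lam w‖ ≤ 1) :
    ∑ n ∈ (Icc 1 N).filter (fun n => n ≡ ρ [MOD h] ∧ Nat.Coprime n V),
      ‖∑ w ∈ W.filter (fun w => Nat.Coprime w n), lam w * ph (V * w) c (a * n)‖ ^ 2 ≤
      scb W.card N h V P |(c : ℝ)| V.primeFactors.card := by
  have key := scZ hK3 W P hP V h c a (ρ : ℤ) 0 N lam hW hV hVW hc hh hhV
    (fun w hw => (hhW w hw).symm) (Int.isCoprime_iff_gcd_eq_one.mpr haV)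
    (fun w hw => Int.isCoprime_iff_gcd_eq_one.mpr (haW w hw)) (fun w _ => hlam w)
  unfold scb
  refine le_trans (le_of_eq ?_) key
  refine Finset.sum_nbij (fun n : ℕ => (n : ℤ)) ?_ ?_ ?_ ?_
  · intro n hn
    rw [Finset.mem_filter, Finset.mem_Icc] at hn
    rw [Finset.mem_filter, Finset.mem_Ioc]
    refine ⟨⟨by omega, by omega⟩, ?_, ?_⟩
    · exact Int.natCast_modEq_iff.mpr hn.2.1
    · exact Nat.isCoprime_iff_coprime.mpr hn.2.2
  · intro n _ m _ hnm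
    have hnm' : (n : ℤ) = (m : ℤ) := hnm
    exact_mod_cast hnm'
  · intro z hz
    have hz' := Finset.mem_coe.mp hz
    rw [Finset.mem_filter, Finset.mem_Ioc] at hz'
    obtain ⟨⟨z1, z2⟩, z3, z4⟩ := hz'
    obtain ⟨n, rfl⟩ : ∃ n : ℕ, z = (n : ℤ) := ⟨z.toNat, by omega⟩
    refine ⟨n, ?_, rfl⟩
    rw [Finset.mem_coe, Finset.mem_filter, Finset.mem_Icc]
    refine ⟨⟨by omega, by omega⟩, ?_, ?_⟩
    · exact Int.natCast_modEq_iff.mp z3
    · exact Nat.isCoprime_iff_coprime.mp z4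
  · intro n _
    have e : W.filter (fun w => Nat.Coprime w n) = W.filter (fun w : ℕ => ¬ (w : ℤ) ∣ (n : ℤ)) := by
      apply Finset.filter_congr
      intro w hw
      rw [(hW w hw).1.coprime_iff_not_dvd, Int.natCast_dvd_natCast]
    rw [e]

/-- the bound is monotone in the number of elements -/
theorem scb_mono {w w' N h V P C : ℝ} {om : ℕ} (h0 : 0 ≤ w) (hw : w ≤ w') (hN : 0 ≤ N)
    (hh : 0 < h) (hV : 1 ≤ V) (hP : 1 ≤ P) (hC : 0 ≤ C) :
    scb w N h V P C om ≤ scb w' N h V P C om := by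
  unfold scb
  have h1 : (1 : ℝ) ≤ 4 * V * P ^ 2 := by
    have e2 : (1 : ℝ) ≤ P ^ 2 := one_le_pow₀ hP
    nlinarith
  have h2 := Real.log_nonneg h1
  have hP0 : 0 < P := by linarith
  have hV0 : 0 < V := by linarith
  have h3 : 0 ≤ (N / (h * V * P ^ 2) + 1) * (C * P) +
    2 ^ (om + 3) * (4 * V * P ^ 2) ^ (3 / 4 : ℝ) * (C * P) ^ (1 / 4 : ℝ) *
      (1 + Real.log (4 * V * P ^ 2)) := by positivity
  have h4 : 0 ≤ N / h + 1 := by positivity
  have h5 : w ^ 2 ≤ w' ^ 2 := by gcongr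
  nlinarith [mul_le_mul_of_nonneg_right hw h4, mul_le_mul_of_nonneg_right h5 h3]

/-- integers in (P, 2P] -/
theorem card_le_2P {W : Finset ℕ} {P : ℝ} (hP : 1 ≤ P)
    (hW : ∀ w ∈ W, P < w ∧ (w : ℝ) ≤ 2 * P) : (W.card : ℝ) ≤ 2 * P := by
  have hs : W ⊆ Ioc ⌊P⌋₊ ⌊2 * P⌋₊ := by
    intro w hw
    rw [Finset.mem_Ioc]
    exact ⟨(Nat.floor_lt (by linarith)).mpr (hW w hw).1, Nat.le_floor (hW w hw).2⟩
  have h1 := Finset.card_le_card hs
  rw [Nat.card_Ioc] at h1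
  have h2 : (⌊2 * P⌋₊ : ℝ) ≤ 2 * P := Nat.floor_le (by linarith)
  have h3 : ((⌊2 * P⌋₊ - ⌊P⌋₊ : ℕ) : ℝ) ≤ (⌊2 * P⌋₊ : ℝ) := by
    exact_mod_cast Nat.sub_le _ _
  have h4 : (W.card : ℝ) ≤ ((⌊2 * P⌋₊ - ⌊P⌋₊ : ℕ) : ℝ) := by exact_mod_cast h1
  linarith

/-- a sum over a family is at most the multiplicity times the sum over the values -/
theorem sum_mult {ι : Type*} [DecidableEq ι] (X : Finset ι) (nn : ι → ℕ) (S : Finset ℕ)
    (hX : ∀ x ∈ X, nn x ∈ S) {R0 : ℝ}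
    (hmult : ∀ n, ((X.filter (fun x => nn x = n)).card : ℝ) ≤ R0)
    (g : ℕ → ℝ) (hg : ∀ n, 0 ≤ g n) :
    ∑ x ∈ X, g (nn x) ≤ R0 * ∑ n ∈ S, g n := by
  rw [← Finset.sum_fiberwise_of_maps_to hX, Finset.mul_sum]
  apply Finset.sum_le_sum
  intro n _
  calc ∑ x ∈ X.filter (fun x => nn x = n), g (nn x)
      = ∑ x ∈ X.filter (fun x => nn x = n), g n := by
        apply Finset.sum_congr rfl
        intro x hx
        rw [(Finset.mem_filter.mp hx).2]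
    _ = ((X.filter (fun x => nn x = n)).card : ℝ) * g n := by
        rw [Finset.sum_const, nsmul_eq_mul]
    _ ≤ R0 * g n := mul_le_mul_of_nonneg_right (hmult n) (hg n)

/-- G13a: second Cauchy with weights, the stub verbatim -/
theorem SCF (hK3 : Stmt_K3) (hAB : Stmt_AB)
    (W : Finset ℕ) (P : ℝ) (hP : 1 ≤ P) (hW : ∀ w ∈ W, w.Prime ∧ P < w ∧ (w : ℝ) ≤ 2 * P)
    (V h N : ℕ) (hV : Squarefree V) (hh : 0 < h) (hhV : Nat.Coprime h V)
    (hVW : ∀ w ∈ W, Nat.Coprime w V) (hhW : ∀ w ∈ W, Nat.Coprime w h)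
    (c a : ℤ) (ρ : ℕ) (hc : c ≠ 0) (haV : Int.gcd a V = 1) (haW : ∀ w ∈ W, Int.gcd a w = 1)
    (lam : ℕ → ℂ) (hlam : ∀ w, ‖lam w‖ ≤ 1)
    {ι : Type*} [DecidableEq ι] (X : Finset ι) (nn : ι → ℕ) (R0 B : ℝ)
    (hX : ∀ x ∈ X, 1 ≤ nn x ∧ nn x ≤ N ∧ nn x ≡ ρ [MOD h] ∧ Nat.Coprime (nn x) V)
    (hmult : ∀ n, ((X.filter (fun x => nn x = n)).card : ℝ) ≤ R0)
    (F : ι → ℝ → ℂ) (hB : ∀ x ∈ X, ∀ s, P < s → s ≤ 2 * P → ‖F x s‖ ≤ B)
    (hF : ∀ x ∈ X, ∀ s t, P < s → s ≤ 2 * P → P < t → t ≤ 2 * P → ‖F x s - F x t‖ ≤ B * |s - t| / P) :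
    (∑ x ∈ X, ‖∑ w ∈ W.filter (fun w => Nat.Coprime w (nn x)), lam w * F x w * ph (V * w) c (a * nn x)‖) ^ 2 ≤
      X.card * (6 * B ^ 2 * R0 * scb (2 * P) N h V P |(c : ℝ)| V.primeFactors.card) := by
  classical
  have hP0 : 0 < P := by linarith
  have hV0 : 0 < V := Nat.pos_of_ne_zero hV.ne_zero
  have hV1 : (1 : ℝ) ≤ V := by exact_mod_cast hV0
  have hhr : (0 : ℝ) < h := by exact_mod_cast hh
  have hR0 : 0 ≤ R0 := le_trans (by positivity) (hmult 0)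
  set S : Finset ℕ := (Icc 1 N).filter (fun n => n ≡ ρ [MOD h] ∧ Nat.Coprime n V) with hS
  set Z : ℝ := scb (2 * P) N h V P |(c : ℝ)| V.primeFactors.card with hZ
  have hXS : ∀ x ∈ X, nn x ∈ S := by
    intro x hx
    obtain ⟨h1, h2, h3, h4⟩ := hX x hx
    rw [hS, Finset.mem_filter, Finset.mem_Icc]
    exact ⟨⟨h1, h2⟩, h3, h4⟩
  -- the sums to partial sets
  have hsub : ∀ W' : Finset ℕ, W' ⊆ W →
      ∑ x ∈ X, ‖∑ w ∈ W'.filter (fun w => Nat.Coprime w (nn x)),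
        lam w * ph (V * w) c (a * nn x)‖ ^ 2 ≤ R0 * Z := by
    intro W' hW'
    have h1 := SC hK3 W' P hP (fun w hw => hW w (hW' hw)) V h N hV hh hhV
      (fun w hw => hVW w (hW' hw)) (fun w hw => hhW w (hW' hw)) c a ρ hc haV
      (fun w hw => haW w (hW' hw)) lam hlam
    have h2 : scb W'.card N h V P |(c : ℝ)| V.primeFactors.card ≤ Z := by
      apply scb_mono (by positivity) _ (by positivity) hhr hV1 hP (abs_nonneg _)
      exact card_le_2P hP (fun w hw => (hW w (hW' hw)).2)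
    calc _ ≤ R0 * ∑ n ∈ S, ‖∑ w ∈ W'.filter (fun w => Nat.Coprime w n),
        lam w * ph (V * w) c (a * n)‖ ^ 2 :=
          sum_mult X nn S hXS hmult (fun n => ‖∑ w ∈ W'.filter (fun w => Nat.Coprime w n),
            lam w * ph (V * w) c (a * n)‖ ^ 2) (fun n => by positivity)
      _ ≤ R0 * Z := mul_le_mul_of_nonneg_left (h1.trans h2) hR0
  -- Cauchy
  have hC : (∑ x ∈ X, ‖∑ w ∈ W.filter (fun w => Nat.Coprime w (nn x)),
      lam w * F x w * ph (V * w) c (a * nn x)‖) ^ 2 ≤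
      X.card * ∑ x ∈ X, ‖∑ w ∈ W.filter (fun w => Nat.Coprime w (nn x)),
        lam w * F x w * ph (V * w) c (a * nn x)‖ ^ 2 := sq_sum_le_card_mul_sum_sq
  refine hC.trans ?_
  apply mul_le_mul_of_nonneg_left _ (by positivity)
  -- AB for every x
  have h1 : ∀ x ∈ X, ‖∑ w ∈ W.filter (fun w => Nat.Coprime w (nn x)),
      lam w * F x w * ph (V * w) c (a * nn x)‖ ^ 2 ≤
      2 * B ^ 2 * ‖∑ w ∈ W.filter (fun w => Nat.Coprime w (nn x)),
        lam w * ph (V * w) c (a * nn x)‖ ^ 2 +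
      2 * B ^ 2 / P * ∑ t ∈ Ioc ⌊P⌋₊ ⌊2 * P⌋₊,
        ‖∑ w ∈ (W.filter (fun w => w ≤ t)).filter (fun w => Nat.Coprime w (nn x)),
          lam w * ph (V * w) c (a * nn x)‖ ^ 2 := by
    intro x hx
    have h2 := hAB (W.filter (fun w => Nat.Coprime w (nn x))) P hP
      (fun w hw => (hW w (Finset.mem_filter.mp hw).1).2) (F x) B (hB x hx) (hF x hx)
      (fun w => lam w * ph (V * w) c (a * nn x))
    have e1 : ∀ w ∈ W.filter (fun w => Nat.Coprime w (nn x)),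
        F x w * (lam w * ph (V * w) c (a * nn x)) = lam w * F x w * ph (V * w) c (a * nn x) := by
      intro w _
      ring
    rw [Finset.sum_congr rfl e1] at h2
    refine h2.trans (le_of_eq ?_)
    congr 2
    apply Finset.sum_congr rfl
    intro t _
    rw [Finset.filter_filter, Finset.filter_filter]
    simp only [and_comm]
  refine (Finset.sum_le_sum h1).trans ?_
  rw [Finset.sum_add_distrib, ← Finset.mul_sum, ← Finset.mul_sum, Finset.sum_comm]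
  have h3 := hsub W (Finset.Subset.refl W)
  have h4 : ∑ t ∈ Ioc ⌊P⌋₊ ⌊2 * P⌋₊, ∑ x ∈ X,
      ‖∑ w ∈ (W.filter (fun w => w ≤ t)).filter (fun w => Nat.Coprime w (nn x)),
          lam w * ph (V * w) c (a * nn x)‖ ^ 2 ≤ 2 * P * (R0 * Z) := by
    have hRZ : 0 ≤ R0 * Z := le_trans (Finset.sum_nonneg (fun x _ => by positivity)) h3
    calc _ ≤ ∑ t ∈ Ioc ⌊P⌋₊ ⌊2 * P⌋₊, R0 * Z := by
          apply Finset.sum_le_sum
          intro t _
          exact hsub _ (Finset.filter_subset _ _)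
      _ = ((Ioc ⌊P⌋₊ ⌊2 * P⌋₊).card : ℝ) * (R0 * Z) := by
          rw [Finset.sum_const, nsmul_eq_mul]
      _ ≤ 2 * P * (R0 * Z) := by
          apply mul_le_mul_of_nonneg_right _ hRZ
          apply card_le_2P hP
          intro w hw
          rw [Finset.mem_Ioc] at hw
          refine ⟨(Nat.floor_lt hP0.le).mp hw.1, ?_⟩
          exact (Nat.le_floor_iff (by linarith)).mp hw.2
  have h5 : 2 * B ^ 2 / P * (2 * P * (R0 * Z)) = 4 * B ^ 2 * R0 * Z := by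
    field_simp
    ring
  have h6 : 2 * B ^ 2 / P * ∑ t ∈ Ioc ⌊P⌋₊ ⌊2 * P⌋₊, ∑ x ∈ X,
      ‖∑ w ∈ (W.filter (fun w => w ≤ t)).filter (fun w => Nat.Coprime w (nn x)),
          lam w * ph (V * w) c (a * nn x)‖ ^ 2 ≤ 4 * B ^ 2 * R0 * Z := by
    rw [← h5]
    exact mul_le_mul_of_nonneg_left h4 (by positivity)
  have h7 : 2 * B ^ 2 * ∑ x ∈ X, ‖∑ w ∈ W.filter (fun w => Nat.Coprime w (nn x)),
        lam w * ph (V * w) c (a * nn x)‖ ^ 2 ≤ 2 * B ^ 2 * (R0 * Z) :=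
    mul_le_mul_of_nonneg_left h3 (by positivity)
  linarith

/-- the statements as propositions -/
theorem stmt_SC (hK3 : Stmt_K3) : Stmt_SC := @SC hK3

theorem stmt_SCF (hK3 : Stmt_K3) (hAB : Stmt_AB) : Stmt_SCF := @SCF hK3 hAB

end Pool.Agent.Helper62.AP
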