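import Mathlib
import Pool.Agent.Helper57.BG.Stmts
import Pool.Agent.Helper8.AP.Ph
import Pool.Agent.Helper62.AP.SC

/-!
# MP_8958e8, A': block P4 (the terms with the same prime l)
-/

open Finset

namespace Pool.Agent.Helper62.AP

open Pool.Agent.Helper57.BG

/-- the frequencies -/
noncomputable def EE (p : PD) : Finset ℤ := (Icc (-(p.H : ℤ)) p.H).erase 0

theorem card_EE (p : PD) : ((EE p).card : ℝ) = 2 * p.H := by
  unfold EE
  rw [Finset.card_erase_of_mem (by rw [Finset.mem_Icc]; constructor <;> omega), Int.card_Icc]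
  have : ((p.H : ℤ) + 1 - -(p.H : ℤ)).toNat - 1 = 2 * p.H := by omega
  rw [this]
  push_cast
  ring

theorem mem_EE {p : PD} {η : ℤ} (h : η ∈ EE p) : η ≠ 0 ∧ |(η : ℝ)| ≤ p.H := by
  unfold EE at h
  rw [Finset.mem_erase, Finset.mem_Icc] at h
  refine ⟨h.1, ?_⟩
  rw [abs_le]
  obtain ⟨_, h2, h3⟩ := h
  constructor
  · exact_mod_cast h2
  · exact_mod_cast h3

theorem mem_I {p : PD} {i : ℕ × ℕ × ℕ} :
    i ∈ p.I ↔ i.1 ∈ p.QQ ∧ i.2.1 ∈ p.W ∧ i.2.2 ∈ p.LL ∧ ¬ i.2.2 ∣ i.1 * i.2.1 := by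
  unfold PD.I
  rw [Finset.mem_filter, Finset.mem_product, Finset.mem_product]
  tauto

theorem mem_Q1s {p : PD} (h : p.Ok) {q : ℕ} (hq : q ∈ p.Q1s) :
    0 < q ∧ p.Q1 < q ∧ (q : ℝ) ≤ 2 * p.Q1 ∧ Int.gcd p.k q = 1 := by
  unfold PD.Q1s at hq
  rw [Finset.mem_filter, Finset.mem_Ioc] at hq
  have h1 := h.hQ1
  have h2 : p.Q1 < q := (Nat.floor_lt (by linarith)).mp hq.1.1
  have h3 : (q : ℝ) ≤ 2 * p.Q1 := (Nat.le_floor_iff (by linarith)).mp hq.1.2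
  refine ⟨?_, h2, h3, hq.2⟩
  have : (0 : ℝ) < q := by linarith
  exact_mod_cast this

theorem card_Q1s {p : PD} (h : p.Ok) : (p.Q1s.card : ℝ) ≤ 2 * p.Q1 :=
  card_le_2P h.hQ1 (fun _ hq => ⟨(mem_Q1s h hq).2.1, (mem_Q1s h hq).2.2.1⟩)

theorem card_QQ {p : PD} (h : p.Ok) : (p.QQ.card : ℝ) ≤ 2 * p.Q :=
  card_le_2P h.hQ (fun q hq => ⟨(h.hQQ q hq).2.1, (h.hQQ q hq).2.2.1⟩)

theorem card_W {p : PD} (h : p.Ok) : (p.W.card : ℝ) ≤ 2 * p.P :=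
  card_le_2P h.hP (fun q hq => (h.hW q hq).2)

theorem one_le_L {p : PD} (h : p.Ok) : 2 ≤ p.L := by
  have h1 := h.hL
  have h2 := h.hQ1
  linarith

theorem card_LL {p : PD} (h : p.Ok) : (p.LL.card : ℝ) ≤ 2 * p.L :=
  card_le_2P (by have := one_le_L h; linarith) (fun q hq => (h.hLL q hq).2)

theorem one_le_R0 {p : PD} (h : p.Ok) : 1 ≤ p.R0 := by
  have h1 := h.hR0 1 le_rfl (by
    have h1 := h.hQ1
    have h2 := h.hQ
    have h3 := h.hP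
    have h4 := one_le_L h
    have h5 : 1 ≤ p.Q1 * p.Q * p.P := one_le_mul_of_one_le_of_one_le
      (one_le_mul_of_one_le_of_one_le h1 h2) h3
    push_cast
    nlinarith)
  simpa using h1

theorem q1_lt_l {p : PD} (h : p.Ok) {q1 l : ℕ} (hq : q1 ∈ p.Q1s) (hl : l ∈ p.LL) : q1 < l := by
  have h1 := (mem_Q1s h hq).2.2.1
  have h2 := (h.hLL l hl).2.1
  have h3 := h.hL
  have : (q1 : ℝ) < l := by linarith
  exact_mod_cast this

theorem cop_l_q1 {p : PD} (h : p.Ok) {q1 l : ℕ} (hq : q1 ∈ p.Q1s) (hl : l ∈ p.LL) :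
    Nat.Coprime l q1 :=
  (h.hLL l hl).1.coprime_iff_not_dvd.mpr (fun hd =>
    absurd (Nat.le_of_dvd (mem_Q1s h hq).1 hd) (by have := q1_lt_l h hq hl; omega))

theorem q2_bd {p : PD} (h : p.Ok) {a w : ℕ} (ha : a ∈ p.QQ) (hw : w ∈ p.W) :
    p.Q * p.P < ((a * w : ℕ) : ℝ) ∧ ((a * w : ℕ) : ℝ) ≤ 4 * (p.Q * p.P) := by
  obtain ⟨_, h1, h2, _⟩ := h.hQQ a ha
  obtain ⟨_, h3, h4⟩ := h.hW w hw
  have hQ := h.hQ
  have hP := h.hP
  push_cast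
  constructor
  · exact mul_lt_mul'' h1 h3 (by linarith) (by linarith)
  · calc (a : ℝ) * w ≤ (2 * p.Q) * (2 * p.P) :=
        mul_le_mul h2 h4 (by positivity) (by linarith)
      _ = _ := by ring

theorem Ypos {p : PD} (h : p.Ok) {q1 : ℕ} (hq : q1 ∈ p.Q1s) : 0 < 4 * p.M * q1 / p.Q1 := by
  have h1 := h.hM
  have h2 := h.hQ1
  have h3 : (0 : ℝ) < q1 := by exact_mod_cast (mem_Q1s h hq).1
  positivity

/-- q1 q2 is at most Y -/
theorem qY {p : PD} (h : p.Ok) {q1 a w : ℕ} (hq : q1 ∈ p.Q1s) (ha : a ∈ p.QQ) (hw : w ∈ p.W) :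
    ((q1 * (a * w) : ℕ) : ℝ) ≤ 4 * p.M * q1 / p.Q1 := by
  have h2 := h.hQ1
  have h3 : (0 : ℝ) < q1 := by exact_mod_cast (mem_Q1s h hq).1
  have h4 := (q2_bd h ha hw).2
  have h5 := h.hRM
  rw [le_div_iff₀ (by linarith)]
  push_cast at h4 ⊢
  have h6 : p.Q1 * ((a : ℝ) * w) ≤ 4 * p.M := by
    calc p.Q1 * ((a : ℝ) * w) ≤ p.Q1 * (4 * (p.Q * p.P)) :=
          mul_le_mul_of_nonneg_left h4 (by linarith)
      _ = 4 * (p.Q1 * p.Q * p.P) := by ring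
      _ ≤ 4 * p.M := by linarith
  calc (q1 : ℝ) * (a * w) * p.Q1 = q1 * (p.Q1 * (a * w)) := by ring
    _ ≤ q1 * (4 * p.M) := mul_le_mul_of_nonneg_left h6 h3.le
    _ = _ := by ring

/-- the number of frequencies is large enough -/
theorem qH {p : PD} (h : p.Ok) {q1 a w a' w' : ℕ} (hq : q1 ∈ p.Q1s) (ha : a ∈ p.QQ)
    (hw : w ∈ p.W) (ha' : a' ∈ p.QQ) (hw' : w' ∈ p.W) :
    (q1 : ℝ) * ((a * w : ℕ) : ℝ) * ((a' * w' : ℕ) : ℝ) / (4 * p.M * q1 / p.Q1) ≤ p.H := by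
  have h2 := h.hQ1
  have hM := h.hM
  have hQ := h.hQ
  have hP := h.hP
  have h3 : (0 : ℝ) < q1 := by exact_mod_cast (mem_Q1s h hq).1
  have h4 := (q2_bd h ha hw).2
  have h4' := (q2_bd h ha' hw').2
  have h6 : 4 * p.Q1 * (p.Q * p.P) ^ 2 / p.M ≤ p.H := Nat.le_ceil _
  refine le_trans ?_ h6
  rw [div_le_div_iff₀ (Ypos h hq) (by linarith)]
  have h7 : ((a * w : ℕ) : ℝ) * ((a' * w' : ℕ) : ℝ) ≤
      (4 * (p.Q * p.P)) * (4 * (p.Q * p.P)) :=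
    mul_le_mul h4 h4' (by positivity) (by positivity)
  have h8 : 4 * p.Q1 * (p.Q * p.P) ^ 2 * (4 * p.M * q1 / p.Q1) =
      q1 * p.M * ((4 * (p.Q * p.P)) * (4 * (p.Q * p.P))) := by
    field_simp
  rw [h8]
  calc (q1 : ℝ) * ((a * w : ℕ) : ℝ) * ((a' * w' : ℕ) : ℝ) * p.M =
      q1 * p.M * (((a * w : ℕ) : ℝ) * ((a' * w' : ℕ) : ℝ)) := by ring
    _ ≤ _ := mul_le_mul_of_nonneg_left h7 (by positivity)

/-- the bracket for l = l' -/
theorem br_d (hS : Stmt_brS) {p : PD} (h : p.Ok) {q1 : ℕ} (hq1 : q1 ∈ p.Q1s)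
    {i i' : ℕ × ℕ × ℕ} (hi : i ∈ p.I) (hi' : i' ∈ p.I)
    (hc : Nat.Coprime (i.1 * i.2.1) (i'.1 * i'.2.1)) (hl : i.2.2 = i'.2.2) :
    ((p.br q1 i i' : ℝ) : ℂ) = ∑ η ∈ EE p,
      ((FF (4 * p.M / p.Q1) η (((i.1 * i.2.1 : ℕ) : ℝ) * ((i'.1 * i'.2.1 : ℕ) : ℝ)) : ℝ) : ℂ) *
      ee (η * p.k / ((i.2.2 : ℝ) * q1 * ((i.1 * i.2.1 : ℕ) : ℝ) * ((i'.1 * i'.2.1 : ℕ) : ℝ))) *
      ph i.2.2 (-(η * p.k)) ((q1 : ℤ) * ((i.1 * i.2.1 : ℕ) : ℤ) * ((i'.1 * i'.2.1 : ℕ) : ℤ)) := by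
  rw [mem_I] at hi hi'
  obtain ⟨i1, i2, i3, i4⟩ := hi
  obtain ⟨j1, j2, j3, j4⟩ := hi'
  have hq0 := (mem_Q1s h hq1).1
  have hQ1 := h.hQ1
  have pl := (h.hLL _ i3).1
  have pos1 : 0 < i.1 * i.2.1 := Nat.mul_pos (Nat.pos_of_ne_zero (h.hQQ _ i1).1.ne_zero)
    (h.hW _ i2).1.pos
  have pos2 : 0 < i'.1 * i'.2.1 := Nat.mul_pos (Nat.pos_of_ne_zero (h.hQQ _ j1).1.ne_zero)
    (h.hW _ j2).1.pos
  have c1 : Nat.Coprime i.2.2 (i.1 * i.2.1) := pl.coprime_iff_not_dvd.mpr i4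
  have c2 : Nat.Coprime i'.2.2 (i'.1 * i'.2.1) := (h.hLL _ j3).1.coprime_iff_not_dvd.mpr j4
  have c3 : Nat.Coprime i.2.2 (i'.1 * i'.2.1) := by rw [hl]; exact c2
  have key := hS (4 * p.M * q1 / p.Q1) (Ypos h hq1) p.k q1 (i.1 * i.2.1) i.2.2 (i'.1 * i'.2.1)
    i'.2.2 0 p.H hq0 pos1 pos2 pl.pos (h.hLL _ j3).1.pos (cop_l_q1 h hq1 i3)
    (cop_l_q1 h hq1 j3) hc c1 c2 c3 (by rw [hl]; simp) (qY h hq1 i1 i2) (qY h hq1 j1 j2)
    (qH h hq1 i1 i2 j1 j2)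
  unfold PD.br
  rw [key]
  unfold EE
  apply Finset.sum_congr rfl
  intro η _
  have e1 : 4 * p.M * (q1 : ℝ) / p.Q1 / q1 = 4 * p.M / p.Q1 := by
    have : (q1 : ℝ) ≠ 0 := by exact_mod_cast hq0.ne'
    field_simp
  have e2 : ph (i'.1 * i'.2.1) (-(η * p.k * 0)) ((i.2.2 : ℤ) * i'.2.2 * ((i.1 * i.2.1 : ℕ) : ℤ)) = 1 := by
    rw [mul_zero, neg_zero]
    exact Pool.Agent.Helper8.AP.ph_zero _ _
  rw [e1, e2, mul_one]

/-- the outer set for v = (l, q3) -/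
noncomputable def XX4 (p : PD) (v : ℕ × ℕ) : Finset (ℕ × ℕ × ℕ) :=
  (p.Q1s ×ˢ p.QQ ×ˢ p.W).filter
    (fun x => ¬ v.1 ∣ x.2.1 * x.2.2 ∧ Nat.Coprime (x.2.1 * x.2.2) v.2)

theorem mem_XX4 {p : PD} {v : ℕ × ℕ} {x : ℕ × ℕ × ℕ} :
    x ∈ XX4 p v ↔ x.1 ∈ p.Q1s ∧ x.2.1 ∈ p.QQ ∧ x.2.2 ∈ p.W ∧ ¬ v.1 ∣ x.2.1 * x.2.2 ∧
      Nat.Coprime (x.2.1 * x.2.2) v.2 := by
  unfold XX4
  rw [Finset.mem_filter, Finset.mem_product, Finset.mem_product]
  tauto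

/-- the inner set -/
noncomputable def WW4 (p : PD) (v : ℕ × ℕ) (x : ℕ × ℕ × ℕ) : Finset ℕ :=
  p.W.filter (fun w => Nat.Coprime w v.1 ∧ w ≠ x.2.2)

/-- the terms, as a function of (q1, i, i') -/
noncomputable def gg (p : PD) (η : ℤ) (q1 : ℕ) (i i' : ℕ × ℕ × ℕ) : ℂ :=
  p.cc i * (starRingEnd ℂ) (p.cc i') *
    (((FF (4 * p.M / p.Q1) η (((i.1 * i.2.1 : ℕ) : ℝ) * ((i'.1 * i'.2.1 : ℕ) : ℝ)) : ℝ) : ℂ) *
      ee (η * p.k / ((i.2.2 : ℝ) * q1 * ((i.1 * i.2.1 : ℕ) : ℝ) * ((i'.1 * i'.2.1 : ℕ) : ℝ))) *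
      ph i.2.2 (-(η * p.k)) ((q1 : ℤ) * ((i.1 * i.2.1 : ℕ) : ℤ) * ((i'.1 * i'.2.1 : ℕ) : ℤ)))

/-- the set of pairs -/
noncomputable def PP4 (p : PD) : Finset ((ℕ × ℕ × ℕ) × (ℕ × ℕ × ℕ)) := (p.I ×ˢ p.I).filter
  (fun ii => Nat.Coprime (ii.1.1 * ii.1.2.1) (ii.2.1 * ii.2.2.1) ∧ ii.1.2.2 = ii.2.2.2)

theorem Td_eq (hS : Stmt_brS) {p : PD} (h : p.Ok) :
    p.Td = ∑ η ∈ EE p, ∑ q1 ∈ p.Q1s, ∑ ii ∈ PP4 p, gg p η q1 ii.1 ii.2 := by
  have e : p.Td = ∑ q1 ∈ p.Q1s, ∑ ii ∈ PP4 p, ∑ η ∈ EE p, gg p η q1 ii.1 ii.2 := by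
    unfold PD.Td
    apply Finset.sum_congr rfl
    intro q1 hq1
    apply Finset.sum_congr rfl
    intro ii hii
    rw [Finset.mem_filter, Finset.mem_product] at hii
    obtain ⟨⟨h1, h2⟩, h3, h4⟩ := hii
    rw [br_d hS h hq1 h1 h2 h3 h4, Finset.mul_sum]
    rfl
  rw [e]
  rw [Finset.sum_comm' (s' := fun _ => p.Q1s) (t' := EE p)
    (f := fun q1 η => ∑ ii ∈ PP4 p, gg p η q1 ii.1 ii.2) (t := fun _ => EE p) (s := p.Q1s)
    (by intro x y; exact Iff.rfl) |>.symm]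
  apply Finset.sum_congr rfl
  intro q1 _
  rw [Finset.sum_comm]

/-- reorganisation -/
theorem reorg {p : PD} (h : p.Ok) (G : ℕ → (ℕ × ℕ × ℕ) → (ℕ × ℕ × ℕ) → ℂ) :
    ∑ q1 ∈ p.Q1s, ∑ ii ∈ PP4 p, G q1 ii.1 ii.2 =
    ∑ v ∈ (p.LL ×ˢ p.QQ).filter (fun v => ¬ v.1 ∣ v.2), ∑ x ∈ XX4 p v, ∑ w ∈ WW4 p v x,
      G x.1 (x.2.1, x.2.2, v.1) (v.2, w, v.1) := by
  rw [← Finset.sum_product' (s := p.Q1s) (t := PP4 p) (f := fun q1 ii => G q1 ii.1 ii.2)]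
  have e1 : ∀ v ∈ (p.LL ×ˢ p.QQ).filter (fun v => ¬ v.1 ∣ v.2),
      ∑ x ∈ XX4 p v, ∑ w ∈ WW4 p v x, G x.1 (x.2.1, x.2.2, v.1) (v.2, w, v.1) =
      ∑ y ∈ (XX4 p v).sigma (fun x => WW4 p v x),
        G y.1.1 (y.1.2.1, y.1.2.2, v.1) (v.2, y.2, v.1) := by
    intro v _
    rw [Finset.sum_sigma]
  rw [Finset.sum_congr rfl e1]
  rw [← Finset.sum_sigma ((p.LL ×ˢ p.QQ).filter (fun v => ¬ v.1 ∣ v.2))
    (fun v => (XX4 p v).sigma (fun x => WW4 p v x))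
    (fun z => G z.2.1.1 (z.2.1.2.1, z.2.1.2.2, z.1.1) (z.1.2, z.2.2, z.1.1))]
  refine Finset.sum_bij'
    (fun z _ => (⟨(z.2.1.2.2, z.2.2.1), ⟨(z.1, z.2.1.1, z.2.1.2.1), z.2.2.2.1⟩⟩ :
      (_ : ℕ × ℕ) × ((_ : ℕ × ℕ × ℕ) × ℕ)))
    (fun z _ => (z.2.1.1, ((z.2.1.2.1, z.2.1.2.2, z.1.1), (z.1.2, z.2.2, z.1.1)))) ?_ ?_ ?_ ?_ ?_
  · rintro ⟨q1, ⟨a, w, l⟩, ⟨a', w', l'⟩⟩ hz
    unfold PP4 at hz
    simp only [Finset.mem_product, Finset.mem_filter, mem_I] at hz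
    obtain ⟨hq1, ⟨⟨z1, z2, z3, z4⟩, ⟨y1, y2, y3, y4⟩⟩, hc, hl⟩ := hz
    subst hl
    have pl := (h.hLL _ z3).1
    have pw := (h.hW _ z2).1
    have pw' := (h.hW _ y2).1
    have k1 : ¬ l ∣ a' := fun hd => y4 (hd.mul_right _)
    have k2 : Nat.Coprime w' l := by
      rw [Nat.coprime_comm]
      exact pl.coprime_iff_not_dvd.mpr (fun hd => y4 (hd.mul_left _))
    have k3 : w' ≠ w := by
      intro hww
      subst hww
      have hd : Nat.Coprime w' w' := (hc.coprime_mul_left).coprime_mul_left_right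
      rw [Nat.coprime_self] at hd
      exact pw.one_lt.ne' hd
    have k4 : Nat.Coprime (a * w) a' := hc.coprime_mul_right_right
    simp only [Finset.mem_sigma, Finset.mem_filter, Finset.mem_product, mem_XX4]
    refine ⟨⟨⟨z3, y1⟩, k1⟩, ⟨hq1, z1, z2, z4, k4⟩, ?_⟩
    unfold WW4
    rw [Finset.mem_filter]
    exact ⟨y2, k2, k3⟩
  · rintro ⟨⟨l, a'⟩, ⟨⟨q1, a, w⟩, w'⟩⟩ hz
    simp only [Finset.mem_sigma, Finset.mem_filter, Finset.mem_product, mem_XX4] at hz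
    unfold WW4 at hz
    rw [Finset.mem_filter] at hz
    obtain ⟨⟨⟨z3, y1⟩, k1⟩, ⟨hq1, z1, z2, z4, k4⟩, y2, k2, k3⟩ := hz
    have pl := (h.hLL _ z3).1
    have pw := (h.hW _ z2).1
    have pw' := (h.hW _ y2).1
    have c1 : Nat.Coprime a w' := (h.hWQ _ y2 _ z1).symm
    have c2 : Nat.Coprime w w' := (Nat.coprime_primes pw pw').mpr (fun e => k3 e.symm)
    have c3 : Nat.Coprime (a * w) (a' * w') := Nat.Coprime.mul_right k4 (Nat.Coprime.mul_left c1 c2)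
    have c4 : ¬ l ∣ a' * w' := by
      intro hd
      rcases (pl.dvd_mul).mp hd with hd | hd
      · exact k1 hd
      · exact (pl.coprime_iff_not_dvd.mp k2.symm) hd
    unfold PP4
    simp only [Finset.mem_product, Finset.mem_filter, mem_I]
    exact ⟨hq1, ⟨⟨z1, z2, z3, z4⟩, ⟨y1, y2, z3, c4⟩⟩, c3, trivial⟩
  · rintro ⟨q1, ⟨a, w, l⟩, ⟨a', w', l'⟩⟩ hz
    unfold PP4 at hz
    simp only [Finset.mem_product, Finset.mem_filter, mem_I] at hz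
    obtain ⟨_, _, _, hl⟩ := hz
    subst hl
    rfl
  · rintro ⟨⟨l, a'⟩, ⟨⟨q1, a, w⟩, w'⟩⟩ _
    rfl
  · rintro ⟨q1, ⟨a, w, l⟩, ⟨a', w', l'⟩⟩ hz
    unfold PP4 at hz
    simp only [Finset.mem_product, Finset.mem_filter, mem_I] at hz
    obtain ⟨_, _, _, hl⟩ := hz
    subst hl
    rfl

theorem card_XX4 {p : PD} (h : p.Ok) (v : ℕ × ℕ) :
    ((XX4 p v).card : ℝ) ≤ 8 * (p.Q1 * p.Q * p.P) := by
  have h1 : (XX4 p v).card ≤ p.Q1s.card * (p.QQ.card * p.W.card) := by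
    unfold XX4
    refine (Finset.card_filter_le _ _).trans ?_
    rw [Finset.card_product, Finset.card_product]
  have h2 := card_Q1s h
  have h3 := card_QQ h
  have h4 := card_W h
  have hQ := h.hQ
  have hP := h.hP
  have hQ1 := h.hQ1
  calc ((XX4 p v).card : ℝ) ≤ (p.Q1s.card : ℝ) * ((p.QQ.card : ℝ) * (p.W.card : ℝ)) := by
        exact_mod_cast h1
    _ ≤ (2 * p.Q1) * ((2 * p.Q) * (2 * p.P)) := by gcongr
    _ = _ := by ring

theorem norm_le_one_cc {p : PD} (h : p.Ok) (i : ℕ × ℕ × ℕ) : ‖p.cc i‖ ≤ 1 := by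
  unfold PD.cc
  rw [norm_mul, norm_mul]
  have h1 := h.hb i.1
  have h2 := h.hlam i.2.1
  have h3 := h.hbe i.2.2
  calc ‖p.b i.1‖ * ‖p.lam i.2.1‖ * ‖p.be i.2.2‖ ≤ 1 * 1 * 1 := by gcongr
    _ = 1 := by norm_num

/-- the bound for one v -/
theorem bound_v (hFF : Stmt_FFx) (hSC : Stmt_SC0F) {p : PD} (h : p.Ok)
    (hH : (p.H : ℝ) * |(p.k : ℝ)| ≤ p.L) {η : ℤ} (hη : η ∈ EE p) {l q3 : ℕ} (hl : l ∈ p.LL)
    (hq3 : q3 ∈ p.QQ) (hlq : ¬ l ∣ q3) :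
    ‖∑ x ∈ XX4 p (l, q3), ∑ w ∈ WW4 p (l, q3) x,
      gg p η x.1 (x.2.1, x.2.2, l) (q3, w, l)‖ ≤
    1472 * p.M / p.Q * Real.sqrt (p.R0 * (1 / p.P + 1 / p.L)) := by
  classical
  have hQ := h.hQ
  have hP := h.hP
  have hQ1 := h.hQ1
  have hM := h.hM
  have hL2 := one_le_L h
  have hR0 := one_le_R0 h
  have hQ0 : 0 < p.Q := by linarith
  have hP0 : 0 < p.P := by linarith
  have hQ10 : 0 < p.Q1 := by linarith
  have hM0 : 0 < p.M := by linarith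
  have hL0 : 0 < p.L := by linarith
  obtain ⟨pl, lL, lU⟩ := h.hLL l hl
  have hl0 : (0 : ℝ) < l := by exact_mod_cast pl.pos
  obtain ⟨hη0, hηH⟩ := mem_EE hη
  have sq3 := (h.hQQ q3 hq3)
  have hq3pos : (0 : ℝ) < q3 := by linarith [sq3.2.1]
  -- |η k| ≤ L < l
  have hηk : |(η : ℝ) * (p.k : ℝ)| ≤ p.L := by
    rw [abs_mul]
    exact (mul_le_mul_of_nonneg_right hηH (abs_nonneg _)).trans hH
  have hk0 := h.hk0
  have hgcd : Int.gcd (-(η * p.k)) l = 1 := by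
    rw [Int.gcd_comm, ← Int.isCoprime_iff_gcd_eq_one,
      (Nat.prime_iff_prime_int.mp pl).coprime_iff_not_dvd]
    intro hd
    have hne : -(η * p.k) ≠ 0 := neg_ne_zero.mpr (mul_ne_zero hη0 hk0)
    have h1 := Int.le_of_dvd (abs_pos.mpr hne) ((dvd_abs _ _).mpr hd)
    have h2 : (l : ℝ) ≤ |((-(η * p.k) : ℤ) : ℝ)| := by
      rw [← Int.cast_abs]
      exact_mod_cast h1
    push_cast at h2
    rw [abs_neg] at h2
    linarith
  -- the data of SC0F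
  set A : ℝ := 4 * p.M / p.Q1 with hA
  set B : ℝ := 32 * p.M / (p.Q1 * p.Q ^ 2 * p.P ^ 2) with hB
  have hA0 : 0 < A := by positivity
  have hB0 : 0 < B := by positivity
  set nn : ℕ × ℕ × ℕ → ℕ := fun x => x.1 * (x.2.1 * x.2.2) with hnn
  set N : ℕ := ⌊8 * (p.Q1 * p.Q * p.P)⌋₊ with hN
  set F : ℕ × ℕ × ℕ → ℝ → ℂ := fun x s =>
    ((FF A η (((x.2.1 * x.2.2 : ℕ) : ℝ) * q3 * s) : ℝ) : ℂ) *
      ee ((η * p.k / ((l : ℝ) * x.1 * ((x.2.1 * x.2.2 : ℕ) : ℝ) * q3)) / s) with hF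
  set lam' : ℕ → ℂ := fun w => (starRingEnd ℂ) (p.lam w) with hlam'
  -- the weights
  have hwt : ∀ x ∈ XX4 p (l, q3),
      |η * p.k / ((l : ℝ) * x.1 * ((x.2.1 * x.2.2 : ℕ) : ℝ) * q3)| ≤ p.P ∧
      0 < ((x.2.1 * x.2.2 : ℕ) : ℝ) * q3 ∧
      8 * A / (((x.2.1 * x.2.2 : ℕ) : ℝ) * q3 * p.P) ≤ B := by
    intro x hx
    rw [mem_XX4] at hx
    obtain ⟨x1, x2, x3, x4, x5⟩ := hx
    obtain ⟨y1, y2, y3, y4⟩ := mem_Q1s h x1
    have z4 := (q2_bd h x2 x3).1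
    have hqp : 0 < p.Q * p.P := by positivity
    have z5 : (0 : ℝ) < ((x.2.1 * x.2.2 : ℕ) : ℝ) := by linarith
    have z6 : (1 : ℝ) ≤ ((x.2.1 * x.2.2 : ℕ) : ℝ) := by
      have : 1 ≤ p.Q * p.P := one_le_mul_of_one_le_of_one_le hQ hP
      linarith
    have z7 : (1 : ℝ) ≤ q3 := by linarith [sq3.2.1]
    have z8 : (1 : ℝ) ≤ x.1 := by linarith
    refine ⟨?_, mul_pos z5 hq3pos, ?_⟩
    · rw [abs_div]
      have e1 : (l : ℝ) ≤ |(l : ℝ) * x.1 * ((x.2.1 * x.2.2 : ℕ) : ℝ) * q3| := by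
        rw [abs_of_pos (by positivity)]
        have k1 : (1 : ℝ) ≤ x.1 * ((x.2.1 * x.2.2 : ℕ) : ℝ) * q3 :=
          one_le_mul_of_one_le_of_one_le (one_le_mul_of_one_le_of_one_le z8 z6) z7
        calc (l : ℝ) = l * 1 := by ring
          _ ≤ l * (x.1 * ((x.2.1 * x.2.2 : ℕ) : ℝ) * q3) := mul_le_mul_of_nonneg_left k1 hl0.le
          _ = _ := by ring
      have e2 : |(η : ℝ) * p.k| ≤ |(l : ℝ) * x.1 * ((x.2.1 * x.2.2 : ℕ) : ℝ) * q3| := by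
        linarith
      refine le_trans (div_le_one_of_le₀ e2 (abs_nonneg _)) hP
    · rw [hA, hB]
      have e3 : p.Q ^ 2 * p.P ≤ ((x.2.1 * x.2.2 : ℕ) : ℝ) * q3 := by
        calc p.Q ^ 2 * p.P = (p.Q * p.P) * p.Q := by ring
          _ ≤ _ := mul_le_mul z4.le sq3.2.1.le hQ0.le z5.le
      calc 8 * (4 * p.M / p.Q1) / (((x.2.1 * x.2.2 : ℕ) : ℝ) * q3 * p.P) ≤
          8 * (4 * p.M / p.Q1) / (p.Q ^ 2 * p.P * p.P) := by gcongr
        _ = 32 * p.M / (p.Q1 * p.Q ^ 2 * p.P ^ 2) := by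
          field_simp
          ring
  have key := hSC p.W p.P hP (fun w hw => (h.hW w hw).2) l N pl.pos (-(η * p.k)) (q3 : ℤ)
    (by
      have : Nat.Coprime q3 l := (pl.coprime_iff_not_dvd.mpr hlq).symm
      rw [Int.gcd_natCast_natCast]
      exact this) lam'
    (by
      intro w
      simp only [hlam']
      rw [RCLike.norm_conj]
      exact h.hlam w)
    (XX4 p (l, q3)) nn (fun x => x.2.2) p.R0 B hB0.le
    (by
      intro x hx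
      rw [mem_XX4] at hx
      obtain ⟨x1, x2, x3, x4, x5⟩ := hx
      obtain ⟨y1, y2, y3, y4⟩ := mem_Q1s h x1
      have z1 := (h.hQQ _ x2).1.ne_zero
      have z2 := (h.hW _ x3).1.pos
      have z3 : 0 < x.2.1 * x.2.2 := Nat.mul_pos (Nat.pos_of_ne_zero z1) z2
      refine ⟨Nat.mul_pos y1 z3, ?_, ?_⟩
      · apply Nat.le_floor
        simp only [hnn]
        have z4 := (q2_bd h x2 x3).2
        calc ((x.1 * (x.2.1 * x.2.2) : ℕ) : ℝ) = (x.1 : ℝ) * ((x.2.1 * x.2.2 : ℕ) : ℝ) := by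
              push_cast; ring
          _ ≤ (2 * p.Q1) * (4 * (p.Q * p.P)) := mul_le_mul y3 z4 (by positivity) (by positivity)
          _ = _ := by ring
      · apply Nat.Coprime.mul_left
        · exact (cop_l_q1 h x1 hl).symm
        · exact (pl.coprime_iff_not_dvd.mpr x4).symm)
    (by
      intro n
      by_cases hn : (XX4 p (l, q3)).filter (fun x => nn x = n) = ∅
      · rw [hn]
        simp
        linarith
      · obtain ⟨x0, hx0⟩ := Finset.nonempty_iff_ne_empty.mpr hn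
        rw [Finset.mem_filter, mem_XX4] at hx0
        obtain ⟨⟨x1, x2, x3, x4, x5⟩, x6⟩ := hx0
        obtain ⟨y1, y2, y3, y4⟩ := mem_Q1s h x1
        have z1 := (h.hQQ _ x2).1.ne_zero
        have z2 := (h.hW _ x3).1.pos
        have z3 : 0 < x0.2.1 * x0.2.2 := Nat.mul_pos (Nat.pos_of_ne_zero z1) z2
        have n1 : 0 < n := by rw [← x6]; exact Nat.mul_pos y1 z3
        have n2 : (n : ℝ) ≤ 16 * p.L * (p.Q1 * p.Q * p.P) := by
          rw [← x6]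
          simp only [hnn]
          have z4 := (q2_bd h x2 x3).2
          calc ((x0.1 * (x0.2.1 * x0.2.2) : ℕ) : ℝ) =
              (x0.1 : ℝ) * ((x0.2.1 * x0.2.2 : ℕ) : ℝ) := by push_cast; ring
            _ ≤ (2 * p.Q1) * (4 * (p.Q * p.P)) :=
              mul_le_mul y3 z4 (by positivity) (by positivity)
            _ = 8 * (p.Q1 * p.Q * p.P) := by ring
            _ ≤ 16 * p.L * (p.Q1 * p.Q * p.P) := by
              apply mul_le_mul_of_nonneg_right _ (by positivity)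
              linarith
        refine le_trans ?_ (h.hR0 n n1 n2)
        have hcard : ((XX4 p (l, q3)).filter (fun x => nn x = n)).card ≤ n.divisors.card := by
          apply Finset.card_le_card_of_injOn (fun x => x.2.1 * x.2.2)
          · intro x hx
            rw [Finset.mem_coe, Finset.mem_filter] at hx
            rw [Finset.mem_coe, Nat.mem_divisors]
            refine ⟨⟨x.1, ?_⟩, n1.ne'⟩
            rw [← hx.2]
            simp only [hnn]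
            ring
          · intro x hx y hy hxy
            rw [Finset.mem_coe, Finset.mem_filter, mem_XX4] at hx hy
            obtain ⟨⟨u1, u2, u3, u4, u5⟩, u6⟩ := hx
            obtain ⟨⟨v1, v2, v3, v4, v5⟩, v6⟩ := hy
            have hxy' : x.2.1 * x.2.2 = y.2.1 * y.2.2 := hxy
            have pw := (h.hW _ u3).1
            have pw' := (h.hW _ v3).1
            have d1 : x.2.2 ∣ y.2.1 * y.2.2 := ⟨x.2.1, by rw [← hxy']; ring⟩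
            have d2 : x.2.2 ∣ y.2.2 := by
              rcases pw.dvd_mul.mp d1 with hd | hd
              · exact absurd hd (pw.coprime_iff_not_dvd.mp (h.hWQ _ u3 _ v2))
              · exact hd
            have e1 : x.2.2 = y.2.2 := (Nat.prime_dvd_prime_iff_eq pw pw').mp d2
            have e2 : x.2.1 = y.2.1 := by
              rw [e1] at hxy'
              exact Nat.eq_of_mul_eq_mul_right pw'.pos hxy'
            have e3 : x.1 = y.1 := by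
              have k1 : x.1 * (x.2.1 * x.2.2) = y.1 * (y.2.1 * y.2.2) := by
                have k2 : nn x = nn y := by rw [u6, v6]
                exact k2
              rw [hxy'] at k1
              exact Nat.eq_of_mul_eq_mul_right
                (Nat.mul_pos (Nat.pos_of_ne_zero (h.hQQ _ v2).1.ne_zero) pw'.pos) k1
            exact Prod.ext e3 (Prod.ext e2 e1)
        exact_mod_cast hcard)
    F
    (by
      intro x hx s hs1 hs2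
      obtain ⟨c1, c2, c3⟩ := hwt x hx
      exact ((hFF A _ p.P _ hA0.le c2 hP c1 η).1 s hs1 hs2).trans c3)
    (by
      intro x hx s t hs1 hs2 ht1 ht2
      obtain ⟨c1, c2, c3⟩ := hwt x hx
      refine ((hFF A _ p.P _ hA0.le c2 hP c1 η).2 s t hs1 hs2 ht1 ht2).trans ?_
      gcongr)
  -- the sum is at most the sum of the norms
  set S : ℝ := ∑ x ∈ XX4 p (l, q3), ‖∑ w ∈ p.W.filter (fun w => Nat.Coprime w l ∧ w ≠ x.2.2),
        lam' w * F x w * ph l (-(η * p.k)) ((q3 : ℤ) * nn x * w)‖ with hS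
  have hle : ‖∑ x ∈ XX4 p (l, q3), ∑ w ∈ WW4 p (l, q3) x,
      gg p η x.1 (x.2.1, x.2.2, l) (q3, w, l)‖ ≤ S := by
    refine (norm_sum_le _ _).trans ?_
    rw [hS]
    apply Finset.sum_le_sum
    intro x _
    have e1 : ∑ w ∈ WW4 p (l, q3) x, gg p η x.1 (x.2.1, x.2.2, l) (q3, w, l) =
        (p.cc (x.2.1, x.2.2, l) * ((starRingEnd ℂ) (p.b q3) * (starRingEnd ℂ) (p.be l))) *
        ∑ w ∈ p.W.filter (fun w => Nat.Coprime w l ∧ w ≠ x.2.2),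
        lam' w * F x w * ph l (-(η * p.k)) ((q3 : ℤ) * nn x * w) := by
      unfold WW4
      rw [Finset.mul_sum]
      apply Finset.sum_congr rfl
      intro w _
      unfold gg
      simp only [hF, hlam', hnn]
      have a1 : ((x.2.1 * x.2.2 : ℕ) : ℝ) * ((q3 * w : ℕ) : ℝ) =
          ((x.2.1 * x.2.2 : ℕ) : ℝ) * q3 * w := by
        rw [Nat.cast_mul q3 w]
        ring
      have a2 : (η : ℝ) * p.k / ((l : ℝ) * x.1 * ((x.2.1 * x.2.2 : ℕ) : ℝ) * ((q3 * w : ℕ) : ℝ)) =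
          (η * p.k / ((l : ℝ) * x.1 * ((x.2.1 * x.2.2 : ℕ) : ℝ) * q3)) / w := by
        rw [Nat.cast_mul q3 w, div_div]
        congr 1
        ring
      have a3 : (x.1 : ℤ) * ((x.2.1 * x.2.2 : ℕ) : ℤ) * ((q3 * w : ℕ) : ℤ) =
          (q3 : ℤ) * ((x.1 * (x.2.1 * x.2.2) : ℕ) : ℤ) * w := by
        push_cast
        ring
      rw [a1, a2, a3]
      unfold PD.cc
      simp only [map_mul]
      ring
    rw [e1, norm_mul]
    have c1 : ‖p.cc (x.2.1, x.2.2, l) * ((starRingEnd ℂ) (p.b q3) * (starRingEnd ℂ) (p.be l))‖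
        ≤ 1 := by
      rw [norm_mul, norm_mul, RCLike.norm_conj, RCLike.norm_conj]
      have h1 := norm_le_one_cc h (x.2.1, x.2.2, l)
      have h2 := h.hb q3
      have h3 := h.hbe l
      calc ‖p.cc (x.2.1, x.2.2, l)‖ * (‖p.b q3‖ * ‖p.be l‖) ≤ 1 * (1 * 1) := by gcongr
        _ = 1 := by norm_num
    exact mul_le_of_le_one_left (norm_nonneg _) c1
  refine hle.trans ?_
  rw [hgcd] at key
  -- the numbers
  set R : ℝ := p.Q1 * p.Q * p.P with hR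
  have hRpos : 0 < R := by positivity
  have hLR : p.L ≤ R := h.hLR
  have hXc : ((XX4 p (l, q3)).card : ℝ) ≤ 8 * R := card_XX4 h (l, q3)
  have hNR : (N : ℝ) ≤ 8 * R := Nat.floor_le (by positivity)
  set Θ : ℝ := p.R0 * (1 / p.P + 1 / p.L) with hΘ
  have hΘ0 : 0 ≤ Θ := by positivity
  have hS0 : 0 ≤ S := Finset.sum_nonneg (fun _ _ => norm_nonneg _)
  have hBRP : B * R * p.P = 32 * p.M / p.Q := by
    rw [hB, hR]
    field_simp
  have b1 : 2 * p.P + 2 * p.P * (p.P * ((1 : ℕ) : ℝ) / l) ≤ 2 * p.P ^ 2 * (1 / p.P + 1 / p.L) := by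
    have e1 : p.P * ((1 : ℕ) : ℝ) / l ≤ p.P / p.L := by
      rw [Nat.cast_one, mul_one]
      gcongr
    have e2 : 2 * p.P ^ 2 * (1 / p.P + 1 / p.L) = 2 * p.P + 2 * p.P * (p.P / p.L) := by
      field_simp
    rw [e2]
    have := mul_le_mul_of_nonneg_left e1 (by positivity : (0 : ℝ) ≤ 2 * p.P)
    linarith
  have b2 : ((N : ℝ) + l) ≤ 10 * R := by linarith
  have b3 : (1 : ℝ) ≤ p.P ^ 2 * (p.R0 * (1 / p.P + 1 / p.L)) := by
    have e1 : p.P ^ 2 * (1 / p.P + 1 / p.L) = p.P + p.P ^ 2 / p.L := by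
      field_simp
    have e2 : (1 : ℝ) ≤ p.P ^ 2 * (1 / p.P + 1 / p.L) := by
      rw [e1]
      have : 0 ≤ p.P ^ 2 / p.L := by positivity
      linarith
    calc (1 : ℝ) ≤ p.R0 * (p.P ^ 2 * (1 / p.P + 1 / p.L)) :=
          one_le_mul_of_one_le_of_one_le hR0 e2
      _ = _ := by ring
  have c1 : S ^ 2 ≤ 2048 * (B * R * p.P) ^ 2 * Θ := by
    refine key.trans ?_
    have d1 : 2 * ((XX4 p (l, q3)).card : ℝ) * (6 * B ^ 2 * p.R0 * (((N : ℝ) + l) *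
        (2 * p.P + 2 * p.P * (p.P * ((1 : ℕ) : ℝ) / l)))) ≤
        2 * (8 * R) * (6 * B ^ 2 * p.R0 * ((10 * R) * (2 * p.P ^ 2 * (1 / p.P + 1 / p.L)))) := by
      have : 0 ≤ 2 * p.P + 2 * p.P * (p.P * ((1 : ℕ) : ℝ) / l) := by positivity
      gcongr
    have d2 : 2 * ((XX4 p (l, q3)).card : ℝ) ^ 2 * B ^ 2 ≤ 2 * (8 * R) ^ 2 * B ^ 2 := by
      gcongr
    have d3 : 2 * (8 * R) ^ 2 * B ^ 2 ≤ 128 * (B * R) ^ 2 * (p.P ^ 2 * (p.R0 * (1 / p.P + 1 / p.L))) := by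
      have : 0 ≤ 128 * (B * R) ^ 2 := by positivity
      calc 2 * (8 * R) ^ 2 * B ^ 2 = 128 * (B * R) ^ 2 * 1 := by ring
        _ ≤ _ := mul_le_mul_of_nonneg_left b3 this
    have d4 : 2 * (8 * R) * (6 * B ^ 2 * p.R0 * ((10 * R) * (2 * p.P ^ 2 * (1 / p.P + 1 / p.L)))) =
        1920 * (B * R * p.P) ^ 2 * Θ := by
      rw [hΘ]
      ring
    have d5 : 128 * (B * R) ^ 2 * (p.P ^ 2 * (p.R0 * (1 / p.P + 1 / p.L))) =
        128 * (B * R * p.P) ^ 2 * Θ := by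
      rw [hΘ]
      ring
    linarith
  rw [hBRP] at c1
  have hT0 : 0 ≤ 1472 * p.M / p.Q * Real.sqrt Θ := by positivity
  apply le_of_sq_le_sq _ hT0
  rw [mul_pow, Real.sq_sqrt hΘ0]
  refine c1.trans ?_
  have e1 : 2048 * (32 * p.M / p.Q) ^ 2 ≤ (1472 * p.M / p.Q) ^ 2 := by
    have : 0 ≤ (p.M / p.Q) ^ 2 := by positivity
    have f1 : 2048 * (32 * p.M / p.Q) ^ 2 = 2097152 * (p.M / p.Q) ^ 2 := by ring
    have f2 : (1472 * p.M / p.Q) ^ 2 = 2166784 * (p.M / p.Q) ^ 2 := by ring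
    rw [f1, f2]
    linarith
  exact mul_le_mul_of_nonneg_right e1 hΘ0

/-- P4 -/
theorem p4 (hFF : Stmt_FFx) (hS : Stmt_brS) (hSC : Stmt_SC0F) (p : PD) (h : p.Ok)
    (hH : (p.H : ℝ) * |(p.k : ℝ)| ≤ p.L) :
    ‖p.Td‖ ≤ 12000 * p.H * p.M * p.L * Real.sqrt (p.R0 * (1 / p.P + 1 / p.L)) := by
  have hQ := h.hQ
  have hM := h.hM
  have hL2 := one_le_L h
  have hQ0 : 0 < p.Q := by linarith
  have hM0 : 0 < p.M := by linarith
  have hL0 : 0 < p.L := by linarith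
  rw [Td_eq hS h]
  set Θ : ℝ := Real.sqrt (p.R0 * (1 / p.P + 1 / p.L)) with hΘ
  have hΘ0 : 0 ≤ Θ := Real.sqrt_nonneg _
  have h1 : ∀ η ∈ EE p, ‖∑ q1 ∈ p.Q1s, ∑ ii ∈ PP4 p, gg p η q1 ii.1 ii.2‖ ≤
      (2 * p.L) * (2 * p.Q) * (1472 * p.M / p.Q * Θ) := by
    intro η hη
    rw [reorg h (fun q1 i i' => gg p η q1 i i')]
    refine (norm_sum_le _ _).trans ?_
    calc ∑ v ∈ (p.LL ×ˢ p.QQ).filter (fun v => ¬ v.1 ∣ v.2),
        ‖∑ x ∈ XX4 p v, ∑ w ∈ WW4 p v x, gg p η x.1 (x.2.1, x.2.2, v.1) (v.2, w, v.1)‖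
        ≤ ∑ v ∈ (p.LL ×ˢ p.QQ).filter (fun v => ¬ v.1 ∣ v.2), (1472 * p.M / p.Q * Θ) := by
          apply Finset.sum_le_sum
          intro v hv
          rw [Finset.mem_filter, Finset.mem_product] at hv
          exact bound_v hFF hSC h hH hη hv.1.1 hv.1.2 hv.2
      _ = (((p.LL ×ˢ p.QQ).filter (fun v => ¬ v.1 ∣ v.2)).card : ℝ) *
          (1472 * p.M / p.Q * Θ) := by rw [Finset.sum_const, nsmul_eq_mul]
      _ ≤ ((p.LL.card : ℝ) * p.QQ.card) * (1472 * p.M / p.Q * Θ) := by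
          apply mul_le_mul_of_nonneg_right _ (by positivity)
          have : ((p.LL ×ˢ p.QQ).filter (fun v => ¬ v.1 ∣ v.2)).card ≤ p.LL.card * p.QQ.card := by
            refine (Finset.card_filter_le _ _).trans ?_
            rw [Finset.card_product]
          exact_mod_cast this
      _ ≤ _ := by
          have c1 := card_LL h
          have c2 := card_QQ h
          gcongr
  calc ‖∑ η ∈ EE p, ∑ q1 ∈ p.Q1s, ∑ ii ∈ PP4 p, gg p η q1 ii.1 ii.2‖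
      ≤ ∑ η ∈ EE p, (2 * p.L) * (2 * p.Q) * (1472 * p.M / p.Q * Θ) :=
        (norm_sum_le _ _).trans (Finset.sum_le_sum h1)
    _ = (2 * p.H) * ((2 * p.L) * (2 * p.Q) * (1472 * p.M / p.Q * Θ)) := by
        rw [Finset.sum_const, nsmul_eq_mul, card_EE]
    _ = 11776 * p.H * p.M * p.L * Θ := by
        field_simp
        ring
    _ ≤ 12000 * p.H * p.M * p.L * Θ := by
        have : 0 ≤ (p.H : ℝ) * p.M * p.L * Θ := by positivity
        have e1 : 11776 * (p.H : ℝ) * p.M * p.L * Θ = 11776 * ((p.H : ℝ) * p.M * p.L * Θ) := by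
          ring
        have e2 : 12000 * (p.H : ℝ) * p.M * p.L * Θ = 12000 * ((p.H : ℝ) * p.M * p.L * Θ) := by
          ring
        rw [e1, e2]
        linarith

end Pool.Agent.Helper62.AP
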