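import Pool.Agent.Helper57.BG.Basic

/-!
# MP_8958e8, A': block UH, the numbers
-/

open Finset

namespace Pool.Agent.Helper62.UH

open Pool.Agent.Helper57.BG (scb)

/-- T is large -/
structure Big (T : ℝ) : Prop where
  one : 1 ≤ T
  lg : 1000000000 * (1 + Real.log T) ^ 3 ≤ T ^ (1 / 1000000 : ℝ)

theorem big_eventually : ∀ᶠ T : ℝ in Filter.atTop, Big T := by
  have h1 : Filter.Tendsto (fun x : ℝ => (1000000000 * (1 + x) ^ 3) / Real.exp ((1 / 1000000) * x))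
      Filter.atTop (nhds 0) := by
    have h2 : ∀ n : ℕ, Filter.Tendsto (fun x : ℝ => x ^ n / Real.exp ((1 / 1000000) * x))
        Filter.atTop (nhds 0) := by
      intro n
      have h4 := Real.tendsto_pow_mul_exp_neg_atTop_nhds_zero n
      have h5 : Filter.Tendsto (fun x : ℝ => (1 / 1000000 : ℝ) * x) Filter.atTop Filter.atTop :=
        Filter.Tendsto.const_mul_atTop (by norm_num) Filter.tendsto_id
      have h6 := (h4.comp h5).const_mul ((1000000 : ℝ) ^ n)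
      rw [mul_zero] at h6
      refine h6.congr' ?_
      filter_upwards [Filter.eventually_gt_atTop 0] with x _
      simp only [Function.comp]
      rw [Real.exp_neg, mul_pow, div_eq_mul_inv, ← mul_assoc, ← mul_assoc, ← mul_pow]
      norm_num
      exact (div_eq_mul_inv _ _).symm
    have h7 := (((h2 0).add ((h2 1).const_mul 3)).add (((h2 2).const_mul 3).add (h2 3))).const_mul
      (1000000000 : ℝ)
    norm_num at h7
    refine h7.congr' ?_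
    filter_upwards [Filter.eventually_gt_atTop 0] with x _
    have := Real.exp_pos ((1 / 1000000) * x)
    field_simp
    ring
  have h2 := (h1.comp Real.tendsto_log_atTop).eventually (gt_mem_nhds (show (0 : ℝ) < 1 by norm_num))
  filter_upwards [h2, Filter.eventually_ge_atTop 1] with T hT h1T
  refine ⟨h1T, ?_⟩
  simp only [Function.comp] at hT
  rw [div_lt_one (Real.exp_pos _)] at hT
  rw [Real.rpow_def_of_pos (by linarith), mul_comm (Real.log T)]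
  exact hT.le

theorem Big.pos {T : ℝ} (B : Big T) : 0 < T := lt_of_lt_of_le one_pos B.one

theorem Big.L1 {T : ℝ} (B : Big T) : 1 ≤ 1 + Real.log T := by
  have := Real.log_nonneg B.one
  linarith

theorem Big.mul_le {T : ℝ} (B : Big T) {c a b : ℝ} (hc : c ≤ 1000000000 * (1 + Real.log T) ^ 3)
    (hab : a + 1 / 1000000 ≤ b) : c * T ^ a ≤ T ^ b := by
  have h1 : 0 < T ^ a := Real.rpow_pos_of_pos B.pos a
  calc c * T ^ a ≤ T ^ (1 / 1000000 : ℝ) * T ^ a :=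
        mul_le_mul_of_nonneg_right (hc.trans B.lg) h1.le
    _ = T ^ (1 / 1000000 + a) := (Real.rpow_add B.pos _ _).symm
    _ ≤ T ^ b := Real.rpow_le_rpow_of_exponent_le B.one (by linarith)

/-- the constants allowed -/
theorem Big.c0 {T : ℝ} (B : Big T) {c : ℝ} (hc : c ≤ 1000000000) :
    c ≤ 1000000000 * (1 + Real.log T) ^ 3 := by
  have h1 : (1 : ℝ) ≤ (1 + Real.log T) ^ 3 := one_le_pow₀ B.L1
  linarith

theorem Big.c1 {T : ℝ} (B : Big T) {c : ℝ} (hc : c ≤ 1000000000) :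
    c * (1 + Real.log T) ≤ 1000000000 * (1 + Real.log T) ^ 3 := by
  have h0 := B.L1
  have h1 : (1 + Real.log T) ≤ (1 + Real.log T) ^ 3 := le_self_pow₀ h0 (by norm_num)
  nlinarith

theorem Big.c2 {T : ℝ} (B : Big T) {c : ℝ} (hc : c ≤ 1000000000) :
    c * (1 + Real.log T) ^ 2 ≤ 1000000000 * (1 + Real.log T) ^ 3 := by
  have h0 := B.L1
  have h1 : (1 + Real.log T) ^ 2 ≤ (1 + Real.log T) ^ 3 := pow_le_pow_right₀ h0 (by norm_num)
  have h2 : 0 ≤ (1 + Real.log T) ^ 2 := by positivity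
  nlinarith

/-- the bound hZ of the main term -/
theorem numZ {T : ℝ} (B : Big T) {q N om : ℕ} {C P : ℝ} (hN1 : 1 ≤ N)
    (hN : (N : ℝ) ≤ T ^ (51 / 100 : ℝ)) (hq0 : T ^ (2 / 5 : ℝ) ≤ q)
    (hq1 : (q : ℝ) ≤ T ^ (441 / 1000 : ℝ)) (hom : om ≤ 7) (hC0 : 0 ≤ C)
    (hC : C ≤ T ^ (451 / 10000 : ℝ)) (hP0 : T ^ (6 / 100 : ℝ) ≤ P)
    (hP1 : P ≤ T ^ (601 / 10000 : ℝ)) :
    (N : ℝ) * scb (2 * P) N 1 q P C om ≤ (P * T ^ (4801 / 10000 : ℝ)) ^ 2 := by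
  have hT := B.pos
  have hT1 := B.one
  have rp : ∀ a b : ℝ, T ^ a * T ^ b = T ^ (a + b) := fun a b => (Real.rpow_add hT a b).symm
  have mono : ∀ {a b : ℝ}, a ≤ b → T ^ a ≤ T ^ b := fun h =>
    Real.rpow_le_rpow_of_exponent_le hT1 h
  have pos : ∀ a : ℝ, 0 < T ^ a := fun a => Real.rpow_pos_of_pos hT a
  have hP1' : 1 ≤ P := le_trans (Real.one_le_rpow hT1 (by norm_num)) hP0
  have hPpos : 0 < P := by linarith
  have hNr : (1 : ℝ) ≤ N := by exact_mod_cast hN1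
  have hqpos : (0 : ℝ) < q := lt_of_lt_of_le (pos _) hq0
  have hsq : (P * T ^ (4801 / 10000 : ℝ)) ^ 2 = P ^ 2 * T ^ (9602 / 10000 : ℝ) := by
    rw [mul_pow, ← Real.rpow_natCast (T ^ (4801 / 10000 : ℝ)) 2, ← Real.rpow_mul hT.le]
    norm_num
  rw [hsq]
  have hN2 : (N : ℝ) ^ 2 ≤ T ^ (102 / 100 : ℝ) := by
    calc (N : ℝ) ^ 2 = N * N := by ring
      _ ≤ T ^ (51 / 100 : ℝ) * T ^ (51 / 100 : ℝ) := mul_le_mul hN hN (by linarith) (pos _).le
      _ = T ^ (102 / 100 : ℝ) := by rw [rp]; norm_num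
  -- piece a
  have pa : (N : ℝ) * (2 * P * (N / 1 + 1)) ≤ P ^ 2 * T ^ (9601 / 10000 : ℝ) := by
    have h1 : (N : ℝ) * (2 * P * (N / 1 + 1)) ≤ 4 * N ^ 2 * P := by
      rw [div_one]
      have h0 : (N : ℝ) ≤ N ^ 2 := le_self_pow₀ hNr (by norm_num)
      calc (N : ℝ) * (2 * P * (N + 1)) = 2 * P * (N ^ 2 + N) := by ring
        _ ≤ 2 * P * (N ^ 2 + N ^ 2) :=
            mul_le_mul_of_nonneg_left (by linarith) (by linarith)
        _ = 4 * N ^ 2 * P := by ring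
    have h2 : 4 * (N : ℝ) ^ 2 ≤ P * T ^ (9601 / 10000 : ℝ) := by
      calc 4 * (N : ℝ) ^ 2 ≤ 4 * T ^ (102 / 100 : ℝ) := by linarith
        _ ≤ T ^ (6 / 100 + 9601 / 10000 : ℝ) := B.mul_le (B.c0 (by norm_num)) (by norm_num)
        _ = T ^ (6 / 100 : ℝ) * T ^ (9601 / 10000 : ℝ) := (rp _ _).symm
        _ ≤ P * T ^ (9601 / 10000 : ℝ) := mul_le_mul_of_nonneg_right hP0 (pos _).le
    calc (N : ℝ) * (2 * P * (N / 1 + 1)) ≤ 4 * N ^ 2 * P := h1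
      _ ≤ (P * T ^ (9601 / 10000 : ℝ)) * P := mul_le_mul_of_nonneg_right h2 hPpos.le
      _ = _ := by ring
  -- piece b
  have pb : (N : ℝ) * ((2 * P) ^ 2 * (N / (1 * q * P ^ 2) * (C * P))) ≤
      P ^ 2 * T ^ (9601 / 10000 : ℝ) := by
    have h1 : (N : ℝ) * ((2 * P) ^ 2 * (N / (1 * q * P ^ 2) * (C * P))) =
        4 * (N ^ 2 * C) / q * P := by
      field_simp
      ring
    rw [h1]
    have h2 : 4 * ((N : ℝ) ^ 2 * C) / q ≤ T ^ (9601 / 10000 : ℝ) := by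
      rw [div_le_iff₀ hqpos]
      calc 4 * ((N : ℝ) ^ 2 * C) ≤ 4 * (T ^ (102 / 100 : ℝ) * T ^ (451 / 10000 : ℝ)) := by
            have := mul_le_mul hN2 hC hC0 (pos _).le
            linarith
        _ = 4 * T ^ (102 / 100 + 451 / 10000 : ℝ) := by rw [rp]
        _ ≤ T ^ (9601 / 10000 + 2 / 5 : ℝ) := B.mul_le (B.c0 (by norm_num)) (by norm_num)
        _ = T ^ (9601 / 10000 : ℝ) * T ^ (2 / 5 : ℝ) := (rp _ _).symm
        _ ≤ T ^ (9601 / 10000 : ℝ) * q := mul_le_mul_of_nonneg_left hq0 (pos _).le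
    calc 4 * ((N : ℝ) ^ 2 * C) / q * P ≤ T ^ (9601 / 10000 : ℝ) * P ^ 2 := by
          apply mul_le_mul h2 (by nlinarith) hPpos.le (pos _).le
      _ = _ := by ring
  -- piece c
  have pc : (N : ℝ) * ((2 * P) ^ 2 * (C * P)) ≤ P ^ 2 * T ^ (9601 / 10000 : ℝ) := by
    have h1 : (N : ℝ) * ((2 * P) ^ 2 * (C * P)) = P ^ 2 * (4 * (N * (C * P))) := by ring
    rw [h1]
    apply mul_le_mul_of_nonneg_left _ (by positivity)
    calc 4 * ((N : ℝ) * (C * P)) ≤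
        4 * (T ^ (51 / 100 : ℝ) * (T ^ (451 / 10000 : ℝ) * T ^ (601 / 10000 : ℝ))) := by
          have h2 := mul_le_mul hC hP1 hPpos.le (pos _).le
          have h3 := mul_le_mul hN h2 (by positivity) (pos _).le
          linarith
      _ = 4 * T ^ (51 / 100 + (451 / 10000 + 601 / 10000) : ℝ) := by rw [rp, rp]
      _ ≤ _ := B.mul_le (B.c0 (by norm_num)) (by norm_num)
  -- piece d
  have hV : 4 * (q : ℝ) * P ^ 2 ≤ T ^ (5613 / 10000 : ℝ) := by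
    have h1 : P ^ 2 ≤ T ^ (1202 / 10000 : ℝ) := by
      calc P ^ 2 = P * P := by ring
        _ ≤ T ^ (601 / 10000 : ℝ) * T ^ (601 / 10000 : ℝ) := mul_le_mul hP1 hP1 hPpos.le (pos _).le
        _ = _ := by rw [rp]; norm_num
    calc 4 * (q : ℝ) * P ^ 2 = 4 * (q * P ^ 2) := by ring
      _ ≤ 4 * (T ^ (441 / 1000 : ℝ) * T ^ (1202 / 10000 : ℝ)) := by
          have := mul_le_mul hq1 h1 (by positivity) (pos _).le
          linarith
      _ = 4 * T ^ (441 / 1000 + 1202 / 10000 : ℝ) := by rw [rp]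
      _ ≤ _ := B.mul_le (B.c0 (by norm_num)) (by norm_num)
  have hV0 : 0 < 4 * (q : ℝ) * P ^ 2 := by positivity
  have hV1 : 1 ≤ 4 * (q : ℝ) * P ^ 2 := by
    have h1 : (1 : ℝ) ≤ q := le_trans (Real.one_le_rpow hT1 (by norm_num)) hq0
    have h2 : 1 ≤ P ^ 2 := one_le_pow₀ hP1'
    nlinarith
  have hlog : Real.log (4 * (q : ℝ) * P ^ 2) ≤ Real.log T := by
    apply Real.log_le_log hV0
    calc 4 * (q : ℝ) * P ^ 2 ≤ T ^ (5613 / 10000 : ℝ) := hV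
      _ ≤ T ^ (1 : ℝ) := mono (by norm_num)
      _ = T := Real.rpow_one T
  have hlog0 := Real.log_nonneg hV1
  have hCP : C * P ≤ T ^ (1052 / 10000 : ℝ) := by
    calc C * P ≤ T ^ (451 / 10000 : ℝ) * T ^ (601 / 10000 : ℝ) :=
          mul_le_mul hC hP1 hPpos.le (pos _).le
      _ = _ := by rw [rp]; norm_num
  have pd : (N : ℝ) * ((2 * P) ^ 2 * (2 ^ (om + 3) * (4 * q * P ^ 2) ^ (3 / 4 : ℝ) *
      (C * P) ^ (1 / 4 : ℝ) * (1 + Real.log (4 * q * P ^ 2)))) ≤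
      P ^ 2 * T ^ (9601 / 10000 : ℝ) := by
    have e1 : (4 * (q : ℝ) * P ^ 2) ^ (3 / 4 : ℝ) ≤ T ^ (420975 / 1000000 : ℝ) := by
      calc (4 * (q : ℝ) * P ^ 2) ^ (3 / 4 : ℝ) ≤ (T ^ (5613 / 10000 : ℝ)) ^ (3 / 4 : ℝ) :=
            Real.rpow_le_rpow hV0.le hV (by norm_num)
        _ = T ^ (420975 / 1000000 : ℝ) := by
            rw [← Real.rpow_mul hT.le]
            norm_num
    have e2 : (C * P) ^ (1 / 4 : ℝ) ≤ T ^ (263 / 10000 : ℝ) := by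
      calc (C * P) ^ (1 / 4 : ℝ) ≤ (T ^ (1052 / 10000 : ℝ)) ^ (1 / 4 : ℝ) :=
            Real.rpow_le_rpow (by positivity) hCP (by norm_num)
        _ = T ^ (263 / 10000 : ℝ) := by
            rw [← Real.rpow_mul hT.le]
            norm_num
    have e3 : (2 : ℝ) ^ (om + 3) ≤ 1024 := by
      calc (2 : ℝ) ^ (om + 3) ≤ 2 ^ 10 := pow_le_pow_right₀ (by norm_num) (by omega)
        _ = 1024 := by norm_num
    have e4 : 1 + Real.log (4 * (q : ℝ) * P ^ 2) ≤ 1 + Real.log T := by linarith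
    have h1 : (N : ℝ) * ((2 * P) ^ 2 * (2 ^ (om + 3) * (4 * q * P ^ 2) ^ (3 / 4 : ℝ) *
      (C * P) ^ (1 / 4 : ℝ) * (1 + Real.log (4 * q * P ^ 2)))) =
      P ^ 2 * (4 * (N * (2 ^ (om + 3) * (4 * q * P ^ 2) ^ (3 / 4 : ℝ) *
      (C * P) ^ (1 / 4 : ℝ) * (1 + Real.log (4 * q * P ^ 2))))) := by ring
    rw [h1]
    apply mul_le_mul_of_nonneg_left _ (by positivity)
    calc 4 * ((N : ℝ) * (2 ^ (om + 3) * (4 * q * P ^ 2) ^ (3 / 4 : ℝ) *
      (C * P) ^ (1 / 4 : ℝ) * (1 + Real.log (4 * q * P ^ 2))))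
        ≤ 4 * (T ^ (51 / 100 : ℝ) * (1024 * T ^ (420975 / 1000000 : ℝ) *
          T ^ (263 / 10000 : ℝ) * (1 + Real.log T))) := by
          have : 0 ≤ 1 + Real.log (4 * (q : ℝ) * P ^ 2) := by linarith
          gcongr
      _ = 4096 * (1 + Real.log T) * T ^ (51 / 100 + 420975 / 1000000 + 263 / 10000 : ℝ) := by
          rw [← rp, ← rp]
          ring
      _ ≤ _ := B.mul_le (B.c1 (by norm_num)) (by norm_num)
  have htot : (N : ℝ) * scb (2 * P) N 1 q P C om =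
      (N : ℝ) * (2 * P * (N / 1 + 1)) +
      (N : ℝ) * ((2 * P) ^ 2 * (N / (1 * q * P ^ 2) * (C * P))) +
      (N : ℝ) * ((2 * P) ^ 2 * (C * P)) +
      (N : ℝ) * ((2 * P) ^ 2 * (2 ^ (om + 3) * (4 * q * P ^ 2) ^ (3 / 4 : ℝ) *
      (C * P) ^ (1 / 4 : ℝ) * (1 + Real.log (4 * q * P ^ 2)))) := by
    unfold scb
    ring
  rw [htot]
  calc _ ≤ P ^ 2 * T ^ (9601 / 10000 : ℝ) + P ^ 2 * T ^ (9601 / 10000 : ℝ) +
        P ^ 2 * T ^ (9601 / 10000 : ℝ) + P ^ 2 * T ^ (9601 / 10000 : ℝ) := by linarith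
    _ = P ^ 2 * (4 * T ^ (9601 / 10000 : ℝ)) := by ring
    _ ≤ P ^ 2 * T ^ (9602 / 10000 : ℝ) := by
        apply mul_le_mul_of_nonneg_left _ (by positivity)
        exact B.mul_le (B.c0 (by norm_num)) (by norm_num)

/-- the number of blocks -/
theorem numJM {T M x : ℝ} (B : Big T) {N Δ : ℕ} (hNr : (0 : ℝ) < N) (hM1 : 1 ≤ M)
    (hMN : M * N = T ^ (1 + 1 / 1000000 : ℝ)) (hx2 : 2 ≤ x)
    (hNx : (N : ℝ) * x = T ^ (9935 / 10000 : ℝ)) (hΔ2 : x / 2 ≤ Δ) :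
    (((⌊M⌋₊ + 1) / Δ : ℕ) : ℝ) ≤ 4 * T ^ (6501 / 1000000 : ℝ) := by
  have h1 : (((⌊M⌋₊ + 1) / Δ : ℕ) : ℝ) ≤ ((⌊M⌋₊ + 1 : ℕ) : ℝ) / Δ := Nat.cast_div_le
  have h2 : ((⌊M⌋₊ + 1 : ℕ) : ℝ) ≤ 2 * M := by
    push_cast
    have := Nat.floor_le (show (0 : ℝ) ≤ M by linarith)
    linarith
  calc (((⌊M⌋₊ + 1) / Δ : ℕ) : ℝ) ≤ ((⌊M⌋₊ + 1 : ℕ) : ℝ) / Δ := h1
    _ ≤ (2 * M) / (x / 2) := by
        apply div_le_div₀ (by linarith) h2 (by linarith) hΔ2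
    _ = 4 * (M * N / (N * x)) := by
        have : x ≠ 0 := by linarith
        field_simp
        ring
    _ = 4 * T ^ (6501 / 1000000 : ℝ) := by
        rw [hMN, hNx, ← Real.rpow_sub B.pos]
        norm_num

/-- the size of the integers in the edges -/
theorem numX {T : ℝ} (B : Big T) {n N r b t1 Δ : ℕ} {k t : ℤ} (hnN : (n : ℝ) ≤ N)
    (hNup : (N : ℝ) ≤ T ^ (51 / 100 : ℝ)) (hr1 : (r : ℝ) ≤ b)
    (hbT : (b : ℝ) ≤ T ^ (1 / 4000000 : ℝ)) (hkT : |(k : ℝ)| ≤ T ^ (1 / 1000000 : ℝ))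
    (htb : |(t : ℝ)| ≤ t1 + 2 * Δ) (ht1r : (t1 : ℝ) ≤ 2 * T ^ (56 / 100 : ℝ))
    (hΔr2 : (Δ : ℝ) ≤ T ^ (56 / 100 : ℝ)) :
    |(n : ℝ) * ((r : ℝ) + b * t) + k| ≤ T ^ 2 := by
  have hT := B.pos
  have rp : ∀ a b : ℝ, T ^ a * T ^ b = T ^ (a + b) := fun a b => (Real.rpow_add hT a b).symm
  have mono : ∀ {a b : ℝ}, a ≤ b → T ^ a ≤ T ^ b := fun h =>
    Real.rpow_le_rpow_of_exponent_le B.one h
  have pos : ∀ a : ℝ, 0 < T ^ a := fun a => Real.rpow_pos_of_pos hT a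
  have h56 : 1 ≤ T ^ (56 / 100 : ℝ) := Real.one_le_rpow B.one (by norm_num)
  have hNr : (0 : ℝ) ≤ N := by positivity
  calc |(n : ℝ) * ((r : ℝ) + b * t) + k| ≤ |(n : ℝ) * ((r : ℝ) + b * t)| + |(k : ℝ)| :=
        abs_add_le _ _
    _ ≤ N * (b * (5 * T ^ (56 / 100 : ℝ))) + T ^ (1 / 1000000 : ℝ) := by
        apply add_le_add _ hkT
        rw [abs_mul, abs_of_nonneg (by positivity : (0 : ℝ) ≤ (n : ℝ))]
        apply mul_le_mul hnN _ (abs_nonneg _) hNr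
        calc |(r : ℝ) + b * t| ≤ |(r : ℝ)| + |(b : ℝ) * t| := abs_add_le _ _
          _ = r + b * |(t : ℝ)| := by
              rw [abs_mul, abs_of_nonneg (by positivity : (0 : ℝ) ≤ (r : ℝ)),
                abs_of_nonneg (by positivity : (0 : ℝ) ≤ (b : ℝ))]
          _ ≤ b * (1 + |(t : ℝ)|) := by linarith
          _ ≤ b * (5 * T ^ (56 / 100 : ℝ)) := by
              apply mul_le_mul_of_nonneg_left _ (by positivity)
              linarith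
    _ ≤ T ^ (51 / 100 : ℝ) * (T ^ (1 / 4000000 : ℝ) * (5 * T ^ (56 / 100 : ℝ))) +
        T ^ (1 / 1000000 : ℝ) := by
        gcongr
    _ = 5 * T ^ (51 / 100 + (1 / 4000000 + 56 / 100) : ℝ) + T ^ (1 / 1000000 : ℝ) := by
        rw [← rp (51 / 100) (1 / 4000000 + 56 / 100), ← rp (1 / 4000000) (56 / 100)]
        ring
    _ ≤ 5 * T ^ (19 / 10 : ℝ) + 1 * T ^ (19 / 10 : ℝ) := by
        have h1 : T ^ (51 / 100 + (1 / 4000000 + 56 / 100) : ℝ) ≤ T ^ (19 / 10 : ℝ) :=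
          mono (by norm_num)
        have h2 : T ^ (1 / 1000000 : ℝ) ≤ T ^ (19 / 10 : ℝ) := mono (by norm_num)
        linarith
    _ = 6 * T ^ (19 / 10 : ℝ) := by ring
    _ ≤ T ^ (2 : ℝ) := B.mul_le (B.c0 (by norm_num)) (by norm_num)
    _ = T ^ 2 := by
        rw [show (2 : ℝ) = ((2 : ℕ) : ℝ) by norm_num, Real.rpow_natCast]

/-- the main term -/
theorem numMain {T SH JM SQ LL PP : ℝ} (B : Big T) (a0 : 0 ≤ SH) (a1 : SH ≤ 2 * (1 + Real.log T))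
    (hJM0 : 0 ≤ JM) (hJMr : JM ≤ 4 * T ^ (6501 / 1000000 : ℝ)) (a3 : 0 ≤ SQ)
    (a2 : SQ ≤ 128 * T ^ (441 / 1000 : ℝ)) (hL0 : 0 ≤ LL) (hL3 : LL ≤ 1 + Real.log T)
    (hP0 : 0 ≤ PP) (hLP : PP ≤ 2 * T ^ (6 / 100 + 1 / 1000000 / 4 + 1 / 100000000 : ℝ)) :
    SH * JM * SQ * (LL * (PP * T ^ (4801 / 10000 : ℝ))) ≤ T ^ (9937 / 10000 : ℝ) := by
  have hT := B.pos
  have rp : ∀ a b : ℝ, T ^ a * T ^ b = T ^ (a + b) := fun a b => (Real.rpow_add hT a b).symm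
  have hz := Real.rpow_pos_of_pos hT (4801 / 10000 : ℝ)
  have hj := Real.rpow_pos_of_pos hT (6501 / 1000000 : ℝ)
  have hL1 := B.L1
  calc SH * JM * SQ * (LL * (PP * T ^ (4801 / 10000 : ℝ)))
      ≤ (2 * (1 + Real.log T)) * (4 * T ^ (6501 / 1000000 : ℝ)) *
        (128 * T ^ (441 / 1000 : ℝ)) * ((1 + Real.log T) *
        ((2 * T ^ (6 / 100 + 1 / 1000000 / 4 + 1 / 100000000 : ℝ)) *
          T ^ (4801 / 10000 : ℝ))) := by
        gcongr
    _ = 2048 * (1 + Real.log T) ^ 2 * (T ^ (6501 / 1000000 : ℝ) * T ^ (441 / 1000 : ℝ) *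
        T ^ (6 / 100 + 1 / 1000000 / 4 + 1 / 100000000 : ℝ) * T ^ (4801 / 10000 : ℝ)) := by
        ring
    _ = 2048 * (1 + Real.log T) ^ 2 * T ^ (6501 / 1000000 + 441 / 1000 +
        (6 / 100 + 1 / 1000000 / 4 + 1 / 100000000) + 4801 / 10000 : ℝ) := by
        rw [rp, rp, rp]
    _ ≤ _ := B.mul_le (B.c2 (by norm_num)) (by norm_num)

/-- the errors -/
theorem numErr {T U x E1 JM : ℝ} (B : Big T) {N Δ H s X2c : ℕ} (hNr : (0 : ℝ) < N)
    (hNup : (N : ℝ) ≤ T ^ (51 / 100 : ℝ)) (hU : U = T ^ (1 / 2 + 1 / 2000000 : ℝ))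
    (hlogU0 : 0 ≤ Real.log U) (hlogU : Real.log U ≤ Real.log T)
    (hs : (s : ℝ) ≤ U) (hx2 : 2 ≤ x) (hNx : (N : ℝ) * x = T ^ (9935 / 10000 : ℝ))
    (hΔ1 : (Δ : ℝ) ≤ x) (hΔ2 : x / 2 ≤ Δ) (hH1 : T ^ (45 / 1000 : ℝ) ≤ H)
    (hJM0 : 0 ≤ JM) (hJMr : JM ≤ 4 * T ^ (6501 / 1000000 : ℝ))
    (hE1 : E1 = T ^ (1 / 10000 : ℝ) + 128 * (1 + Real.log U)) (hX : (X2c : ℝ) ≤ N) :
    (X2c : ℝ) * (4 * Δ * E1 + 128 * s * (JM * (U / (2 * H * Δ))) +
        2 * Δ * (128 * (1 + Real.log U))) ≤ 3 * T ^ (9937 / 10000 : ℝ) := by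
  have hT := B.pos
  have hT1 := B.one
  have rp : ∀ a b : ℝ, T ^ a * T ^ b = T ^ (a + b) := fun a b => (Real.rpow_add hT a b).symm
  have pos : ∀ a : ℝ, 0 < T ^ a := fun a => Real.rpow_pos_of_pos hT a
  have hL1 := B.L1
  have hU0 : 0 < U := by rw [hU]; exact pos _
  have hNΔ : (N : ℝ) * Δ ≤ T ^ (9935 / 10000 : ℝ) := by
    rw [← hNx]
    exact mul_le_mul_of_nonneg_left hΔ1 hNr.le
  have hE10 : 0 ≤ E1 := by
    have := pos (1 / 10000 : ℝ)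
    rw [hE1]
    linarith
  have hΔr : (0 : ℝ) < Δ := by linarith
  have hHr : (0 : ℝ) < H := lt_of_lt_of_le (pos _) hH1
  have b1 : (N : ℝ) * (4 * Δ * E1) ≤ T ^ (9937 / 10000 : ℝ) := by
    have h1 : E1 ≤ 129 * (1 + Real.log T) * T ^ (1 / 10000 : ℝ) := by
      have h2 : 1 ≤ T ^ (1 / 10000 : ℝ) := Real.one_le_rpow hT1 (by norm_num)
      have h3 : T ^ (1 / 10000 : ℝ) ≤ (1 + Real.log T) * T ^ (1 / 10000 : ℝ) :=
        le_mul_of_one_le_left (pos _).le hL1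
      have h4 : (1 + Real.log T) ≤ (1 + Real.log T) * T ^ (1 / 10000 : ℝ) :=
        le_mul_of_one_le_right (by linarith) h2
      rw [hE1]
      linarith
    calc (N : ℝ) * (4 * Δ * E1) = 4 * (N * Δ) * E1 := by ring
      _ ≤ 4 * T ^ (9935 / 10000 : ℝ) * (129 * (1 + Real.log T) * T ^ (1 / 10000 : ℝ)) := by
          have := pos (9935 / 10000 : ℝ)
          gcongr
      _ = 516 * (1 + Real.log T) * T ^ (9935 / 10000 + 1 / 10000 : ℝ) := by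
          rw [← rp (9935 / 10000) (1 / 10000)]
          ring
      _ ≤ _ := B.mul_le (B.c1 (by norm_num)) (by norm_num)
  have b2 : (N : ℝ) * (128 * s * (JM * (U / (2 * H * Δ)))) ≤ T ^ (9937 / 10000 : ℝ) := by
    have h1 : U / (2 * H * Δ) ≤ U / (T ^ (45 / 1000 : ℝ) * x) := by
      apply div_le_div_of_nonneg_left hU0.le (mul_pos (pos _) (by linarith))
      calc T ^ (45 / 1000 : ℝ) * x ≤ H * (2 * Δ) := by
            apply mul_le_mul hH1 (by linarith) (by linarith) hHr.le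
        _ = 2 * H * Δ := by ring
    calc (N : ℝ) * (128 * s * (JM * (U / (2 * H * Δ))))
        ≤ N * (128 * U * ((4 * T ^ (6501 / 1000000 : ℝ)) * (U / (T ^ (45 / 1000 : ℝ) * x)))) := by
          have := pos (6501 / 1000000 : ℝ)
          gcongr
      _ = 512 * ((N : ℝ) * N * (U * U) * T ^ (6501 / 1000000 : ℝ) /
          (T ^ (45 / 1000 : ℝ) * (N * x))) := by
          have := (pos (45 / 1000 : ℝ)).ne'
          have : x ≠ 0 := by linarith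
          field_simp
          ring
      _ ≤ 512 * (T ^ (51 / 100 : ℝ) * T ^ (51 / 100 : ℝ) * (U * U) *
          T ^ (6501 / 1000000 : ℝ) / (T ^ (45 / 1000 : ℝ) * T ^ (9935 / 10000 : ℝ))) := by
          rw [hNx]
          have := pos (45 / 1000 : ℝ)
          have := pos (9935 / 10000 : ℝ)
          have := pos (6501 / 1000000 : ℝ)
          gcongr
      _ = 512 * T ^ (51 / 100 + 51 / 100 + ((1 / 2 + 1 / 2000000) + (1 / 2 + 1 / 2000000)) +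
          6501 / 1000000 - (45 / 1000 + 9935 / 10000) : ℝ) := by
          rw [hU, rp, rp, rp, rp, rp, ← Real.rpow_sub hT]
      _ ≤ _ := B.mul_le (B.c0 (by norm_num)) (by norm_num)
  have b3 : (N : ℝ) * (2 * Δ * (128 * (1 + Real.log U))) ≤ T ^ (9937 / 10000 : ℝ) := by
    calc (N : ℝ) * (2 * Δ * (128 * (1 + Real.log U))) = 256 * (1 + Real.log U) * (N * Δ) := by
          ring
      _ ≤ 256 * (1 + Real.log T) * T ^ (9935 / 10000 : ℝ) := by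
          apply mul_le_mul (by linarith) hNΔ (by positivity) (by linarith)
      _ ≤ _ := B.mul_le (B.c1 (by norm_num)) (by norm_num)
  calc (X2c : ℝ) * (4 * Δ * E1 + 128 * s * (JM * (U / (2 * H * Δ))) +
      2 * Δ * (128 * (1 + Real.log U)))
      ≤ N * (4 * Δ * E1 + 128 * s * (JM * (U / (2 * H * Δ))) +
      2 * Δ * (128 * (1 + Real.log U))) := by
        apply mul_le_mul_of_nonneg_right hX
        positivity
    _ = N * (4 * Δ * E1) + N * (128 * s * (JM * (U / (2 * H * Δ)))) +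
        N * (2 * Δ * (128 * (1 + Real.log U))) := by ring
    _ ≤ _ := by linarith

end Pool.Agent.Helper62.UH
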