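import Pool.Agent.Helper62.AP.UHf
import Pool.Agent.Helper62.AP.UHn
import Pool.Agent.Helper17.AP.UHa
import Pool.Agent.Helper4.AP.UHb
import Pool.Agent.Helper64.AP.UHs
import Pool.Agent.Helper56.AP.PUF

/-!
# MP_8958e8, A': block UH (T1H), the assembly
-/

open Finset Filter

namespace Pool.Agent.Helper62.UH

open Pool.Agent.AP
open Pool.Agent.Helper57.BG (ph scb Stmt_SC)

theorem s_KK_half : S_KK_half := @Pool.Agent.Helper17.AP.KK_half

theorem s_hat1 : S_hat1 := @Pool.Agent.Helper17.AP.hat1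

theorem s_cnt : S_cnt := @Pool.Agent.Helper4.AP.cnt

theorem s_cnt_len : S_cnt_len := @Pool.Agent.Helper4.AP.cnt_len

theorem s_sizes : S_sizes := Pool.Agent.Helper64.UHs.sizes @PU_split

/-- the sum of the reciprocals of the frequencies -/
theorem sum_HH (H : ℕ) (hH : 1 ≤ H) : ∑ h ∈ HH H, 1 / |(h : ℝ)| ≤ 2 * (1 + Real.log H) := by
  have h1 : ∑ h ∈ HH H, 1 / |(h : ℝ)| = ∑ h ∈ Icc (1 : ℤ) H, 1 / |(h : ℝ)| +
      ∑ h ∈ Icc (-(H : ℤ)) (-1), 1 / |(h : ℝ)| := by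
    rw [← Finset.sum_union]
    · apply Finset.sum_congr _ (fun _ _ => rfl)
      ext h
      unfold HH
      rw [Finset.mem_erase, Finset.mem_Icc, Finset.mem_union, Finset.mem_Icc, Finset.mem_Icc]
      omega
    · rw [Finset.disjoint_left]
      intro h hh hh'
      rw [Finset.mem_Icc] at hh hh'
      omega
  have h2 : ∑ h ∈ Icc (-(H : ℤ)) (-1), 1 / |(h : ℝ)| = ∑ h ∈ Icc (1 : ℤ) H, 1 / |(h : ℝ)| := by
    refine Finset.sum_nbij' (fun h => -h) (fun h => -h) ?_ ?_ ?_ ?_ ?_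
    · intro h hh
      rw [Finset.mem_Icc] at hh ⊢
      omega
    · intro h hh
      rw [Finset.mem_Icc] at hh ⊢
      omega
    · intro h _
      ring
    · intro h _
      ring
    · intro h _
      push_cast
      rw [abs_neg]
  have h3 : ∑ h ∈ Icc (1 : ℤ) H, 1 / |(h : ℝ)| = ∑ n ∈ Icc 1 H, ((n : ℝ))⁻¹ := by
    symm
    refine Finset.sum_nbij (fun n : ℕ => (n : ℤ)) ?_ ?_ ?_ ?_
    · intro n hn
      rw [Finset.mem_Icc] at hn ⊢
      omega
    · intro x _ y _ h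
      have h' : (x : ℤ) = y := h
      exact_mod_cast h'
    · intro z hz
      have hz' := Finset.mem_coe.mp hz
      rw [Finset.mem_Icc] at hz'
      refine ⟨z.toNat, ?_, ?_⟩
      · rw [Finset.mem_coe, Finset.mem_Icc]
        omega
      · show ((z.toNat : ℕ) : ℤ) = z
        omega
    · intro n _
      rw [one_div]
      congr 1
      push_cast
      rw [abs_of_nonneg (by positivity)]
  have h4 : ∑ n ∈ Icc 1 H, ((n : ℝ))⁻¹ ≤ 1 + Real.log H := by
    have h5 := harmonic_le_one_add_log H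
    have h6 : ((harmonic H : ℚ) : ℝ) = ∑ n ∈ Icc 1 H, ((n : ℝ))⁻¹ := by
      rw [harmonic_eq_sum_Icc]
      push_cast
      rfl
    linarith
  rw [h1, h2, h3]
  linarith

/-- the sum over m in terms of the discrepancies -/
theorem conv (J : List (Finset ℕ)) (b r : ℕ) (k : ℤ) (n t0 t1 : ℕ) (h01 : t0 ≤ t1) :
    ∑ t ∈ Ico t0 t1, UU J ((n : ℤ) * ((r + b * t : ℕ) : ℤ) + k) =
      ∑ u ∈ PU J, ((u : ℝ) / Nat.totient u) * DD b r k n t0 t1 u := by
  unfold UU
  rw [Finset.sum_comm]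
  apply Finset.sum_congr rfl
  intro u _
  rw [← Finset.mul_sum]
  congr 1
  unfold DD
  rw [Finset.sum_sub_distrib, Finset.sum_const, Nat.card_Ico, nsmul_eq_mul, Nat.cast_sub h01,
    mul_one_div]
  congr 1
  rw [Finset.card_filter]
  push_cast
  apply Finset.sum_congr rfl
  intro t _
  rfl

/-- the divisor sum -/
theorem sum_dvd_eq (J : List (Finset ℕ)) (hJ : ∀ u ∈ PU J, 0 < u) (x : ℤ) :
    ∑ u ∈ PU J, (if (u : ℤ) ∣ x then (u : ℝ) / Nat.totient u else 0) =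
      UU J x + ∑ u ∈ PU J, (1 : ℝ) / Nat.totient u := by
  unfold UU
  rw [← Finset.sum_add_distrib]
  apply Finset.sum_congr rfl
  intro u hu
  have h0 : (u : ℝ) ≠ 0 := by exact_mod_cast (hJ u hu).ne'
  have h1 : (Nat.totient u : ℝ) ≠ 0 := by exact_mod_cast (Nat.totient_pos.mpr (hJ u hu)).ne'
  by_cases hd : (u : ℤ) ∣ x
  · rw [if_pos hd, if_pos hd]
    field_simp
    ring
  · rw [if_neg hd, if_neg hd]
    field_simp
    ring

/-- a power of two -/
theorem exists_L {y : ℝ} (hy : 1 ≤ y) : ∃ L : ℕ, y ≤ 2 ^ L ∧ (2 : ℝ) ^ L ≤ 2 * y ∧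
    (L : ℝ) ≤ 1 + 2 * Real.log y := by
  obtain ⟨n, h1, h2⟩ := exists_nat_pow_near hy (by norm_num : (1 : ℝ) < 2)
  refine ⟨n + 1, h2.le, ?_, ?_⟩
  · rw [pow_succ]
    linarith
  · have h3 := Real.log_le_log (by positivity) h1
    rw [Real.log_pow] at h3
    have h4 := Real.log_two_gt_d9
    have h5 : (0 : ℝ) ≤ n := by positivity
    push_cast
    nlinarith

/-- **block UH** -/
theorem stmt_UH_of (hSC : Stmt_SC) : Stmt_UH := by
  unfold Stmt_UH
  filter_upwards [big_eventually, PU_mem, UU_bd (ε := 1 / 10000) (by norm_num), s_sizes]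
    with T B hmem hUU hsz
  intro J hJ _ k b m₀ N₀ N A A' α hk hkT hb1 hbT _ hNlow hNup hA hAN hα
  have hT := B.pos
  have hT1 := B.one
  have rp : ∀ a b : ℝ, T ^ a * T ^ b = T ^ (a + b) := fun a b => (Real.rpow_add hT a b).symm
  have mono : ∀ {a b : ℝ}, a ≤ b → T ^ a ≤ T ^ b := fun h =>
    Real.rpow_le_rpow_of_exponent_le hT1 h
  have pos : ∀ a : ℝ, 0 < T ^ a := fun a => Real.rpow_pos_of_pos hT a
  have one : ∀ {a : ℝ}, 0 ≤ a → 1 ≤ T ^ a := fun h => Real.one_le_rpow hT1 h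
  have hL1 := B.L1
  have hlogT : 0 ≤ Real.log T := by linarith
  have hNr : (0 : ℝ) < N := lt_of_lt_of_le (pos _) hNlow
  have hN1 : 1 ≤ N := by
    have : 0 < N := by exact_mod_cast hNr
    omega
  -- the variable t
  choose t0 t1 h01 ht1 hlen hF using (fun n => tint b m₀ (A n) (A' n) hb1 (hA n))
  set r := m₀ % b with hr
  have hrb : r < b := Nat.mod_lt _ hb1
  set M : ℝ := T ^ (1 + 1 / 1000000 : ℝ) / N with hM
  have hM0 : 0 < M := div_pos (pos _) hNr
  have hAM : ∀ n, (A' n : ℝ) ≤ M := fun n => by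
    rw [hM, le_div_iff₀ hNr]
    exact hAN n
  have hMN : M * N = T ^ (1 + 1 / 1000000 : ℝ) := by
    rw [hM]
    field_simp
  have hM1 : 1 ≤ M := by
    rw [hM, le_div_iff₀ hNr, one_mul]
    exact hNup.trans (mono (by norm_num))
  have hMup : M ≤ T ^ (56 / 100 : ℝ) := by
    rw [hM, div_le_iff₀ hNr]
    calc T ^ (1 + 1 / 1000000 : ℝ) ≤ T ^ (56 / 100 + 45 / 100 : ℝ) := mono (by norm_num)
      _ = T ^ (56 / 100 : ℝ) * T ^ (45 / 100 : ℝ) := (rp _ _).symm
      _ ≤ T ^ (56 / 100 : ℝ) * N := mul_le_mul_of_nonneg_left hNlow (pos _).le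
  -- the family
  set U : ℝ := T ^ (1 / 2 + 1 / 2000000 : ℝ) with hU
  set D0 : ℝ := T ^ (1 / 100 : ℝ) with hD0
  have hU1 : 1 ≤ U := one (by norm_num)
  have hD01 : 1 ≤ D0 := one (by norm_num)
  have famOf : ∀ J' : List (Finset ℕ), J'.Sublist (IF T) → Fam (PU J') U D0 := by
    intro J' hJ'
    refine ⟨fun u hu => (hmem J' hJ' u hu).1, fun u hu => ?_, fun u hu p hp hd =>
      (hmem J' hJ' u hu).2.2.2.1 p hp hd, fun u hu => (hmem J' hJ' u hu).2.2.2.2.1⟩
    have h1 := (hmem J' hJ' u hu).2.1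
    have h2 := (hmem J' hJ' u hu).2.2.1
    omega
  have F := famOf J hJ
  have hlogU : Real.log U ≤ Real.log T := by
    apply Real.log_le_log (pos _)
    calc U ≤ T ^ (1 : ℝ) := mono (by norm_num)
      _ = T := Real.rpow_one T
  have hlogU0 := Real.log_nonneg hU1
  have hkD : |(k : ℝ)| ≤ D0 := hkT.trans (mono (by norm_num))
  -- b is coprime to the moduli
  have hbcop : ∀ u : ℕ, 0 < u → (∀ p : ℕ, p.Prime → p ∣ u → D0 < p) → Nat.Coprime b u := by
    intro u _ hpr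
    by_contra hc
    obtain ⟨p, hp, hpb, hpu⟩ := Nat.Prime.not_coprime_iff_dvd.mp hc
    have h1 := hpr p hp hpu
    have h2 : (p : ℝ) ≤ b := by exact_mod_cast Nat.le_of_dvd hb1 hpb
    have h3 : (b : ℝ) ≤ D0 := hbT.trans (mono (by norm_num))
    linarith
  have hbS : ∀ u ∈ PU J, Nat.Coprime b u := fun u hu =>
    hbcop u (F.pos hu) (fun p hp hd => F.pr u hu p hp hd)
  -- the index set
  set X : Finset ℕ := Ioc N₀ N with hX
  have hXI : X ⊆ Icc 1 N := by
    intro n hn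
    rw [hX, Finset.mem_Ioc] at hn
    rw [Finset.mem_Icc]
    omega
  have hXc : (X.card : ℝ) ≤ N := by
    rw [hX, Nat.card_Ioc]
    exact_mod_cast (by omega : N - N₀ ≤ N)
  -- conversion
  have hconv : ∑ n ∈ X, α n * ∑ m ∈ (Ioc (A n) (A' n)).filter (fun m => m ≡ m₀ [MOD b]),
      UU J (n * m + k) =
      (∑ n ∈ X, α n * ∑ u ∈ (PU J).filter (fun u => Nat.Coprime n u),
        ((u : ℝ) / Nat.totient u) * DD b r k n (t0 n) (t1 n) u) +
      ∑ n ∈ X, α n * ∑ u ∈ (PU J).filter (fun u => ¬ Nat.Coprime n u),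
        ((u : ℝ) / Nat.totient u) * DD b r k n (t0 n) (t1 n) u := by
    rw [← Finset.sum_add_distrib]
    apply Finset.sum_congr rfl
    intro n _
    rw [← mul_add, Finset.sum_filter_add_sum_filter_not]
    congr 1
    rw [← conv J b r k n (t0 n) (t1 n) (h01 n)]
    exact hF n (fun m => UU J ((n : ℤ) * (m : ℤ) + k))
  rw [hconv]
  -- the part which is not coprime
  have hNC := part_nc F hU1 hD01 (b := b) (r := r) hk hkD hXI t0 t1 hM0.le
    (fun n _ => ⟨h01 n, (hlen n).trans (hAM n)⟩) α hα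
  have hNC2 : M * (7 * N / D0) * (128 * (1 + Real.log U)) ≤ T ^ (9937 / 10000 : ℝ) := by
    have e1 : M * (7 * N / D0) * (128 * (1 + Real.log U)) =
        896 * (1 + Real.log U) * (M * N * T ^ (-(1 / 100) : ℝ)) := by
      rw [hD0, Real.rpow_neg hT.le]
      field_simp
      ring
    rw [e1, hMN, rp]
    calc 896 * (1 + Real.log U) * T ^ (1 + 1 / 1000000 + -(1 / 100) : ℝ)
        ≤ 896 * (1 + Real.log T) * T ^ (1 + 1 / 1000000 + -(1 / 100) : ℝ) := by
          apply mul_le_mul_of_nonneg_right _ (pos _).le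
          linarith
      _ ≤ _ := B.mul_le (B.c1 (by norm_num)) (by norm_num)
  -- it is enough to bound the coprime part
  suffices hC : |∑ n ∈ X, α n * ∑ u ∈ (PU J).filter (fun u => Nat.Coprime n u),
      ((u : ℝ) / Nat.totient u) * DD b r k n (t0 n) (t1 n) u| ≤ 6 * T ^ (9937 / 10000 : ℝ) by
    refine (abs_add_le _ _).trans ?_
    calc _ ≤ 6 * T ^ (9937 / 10000 : ℝ) + T ^ (9937 / 10000 : ℝ) :=
          add_le_add hC (hNC.trans hNC2)
      _ = 7 * T ^ (9937 / 10000 : ℝ) := by ring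
      _ ≤ T ^ (1 - 6 / 1000 : ℝ) := B.mul_le (B.c0 (by norm_num)) (by norm_num)
  -- the trivial cases
  by_cases hcase : (∀ u ∈ PU J, (u : ℝ) ≤ T ^ (483 / 1000 : ℝ)) ∨ (N : ℝ) ≤ T ^ (49 / 100 : ℝ)
  · have h1 := part_triv F (r := r) (k := k) hbS X t0 t1 (fun n _ => h01 n) α hα
    refine h1.trans ?_
    have h2 : (N : ℝ) * (128 * (PU J).card) ≤ T ^ (9937 / 10000 : ℝ) := by
      rcases hcase with hc | hc
      · have F' : Fam (PU J) (T ^ (483 / 1000 : ℝ)) D0 := ⟨F.sq, F.om, F.pr, hc⟩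
        have h3 := F'.card_le (pos _).le
        calc (N : ℝ) * (128 * (PU J).card) ≤
            T ^ (51 / 100 : ℝ) * (128 * T ^ (483 / 1000 : ℝ)) := by gcongr
          _ = 128 * T ^ (51 / 100 + 483 / 1000 : ℝ) := by
              rw [← rp (51 / 100) (483 / 1000)]; ring
          _ ≤ _ := B.mul_le (B.c0 (by norm_num)) (by norm_num)
      · have h3 := F.card_le (pos _).le
        calc (N : ℝ) * (128 * (PU J).card) ≤
            T ^ (49 / 100 : ℝ) * (128 * T ^ (1 / 2 + 1 / 2000000 : ℝ)) := by gcongr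
          _ = 128 * T ^ (49 / 100 + (1 / 2 + 1 / 2000000) : ℝ) := by
              rw [← rp (49 / 100) (1 / 2 + 1 / 2000000)]; ring
          _ ≤ _ := B.mul_le (B.c0 (by norm_num)) (by norm_num)
    calc (X.card : ℝ) * (128 * (PU J).card) ≤ N * (128 * (PU J).card) := by gcongr
      _ ≤ T ^ (9937 / 10000 : ℝ) := h2
      _ ≤ 6 * T ^ (9937 / 10000 : ℝ) := by
          have := pos (9937 / 10000 : ℝ)
          linarith
  rw [not_or, not_le] at hcase
  obtain ⟨hbig, hN49⟩ := hcase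
  rcases hsz J hJ with h | ⟨J', hJ', hsplit, hcop, hqsize⟩
  · exact absurd h hbig
  have F' := famOf J' hJ'
  -- the parameters
  set x : ℝ := T ^ (9935 / 10000 : ℝ) / N with hx
  have hx2 : 2 ≤ x := by
    rw [hx, le_div_iff₀ hNr]
    calc 2 * (N : ℝ) ≤ 2 * T ^ (51 / 100 : ℝ) := by linarith
      _ ≤ _ := B.mul_le (B.c0 (by norm_num)) (by norm_num)
  set Δ : ℕ := ⌊x⌋₊ with hΔd
  have hΔ1 : (Δ : ℝ) ≤ x := Nat.floor_le (by linarith)
  have hΔ2 : x / 2 ≤ Δ := by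
    have := Nat.lt_floor_add_one x
    linarith
  have hΔr : (0 : ℝ) < Δ := by linarith
  have hΔ : 0 < Δ := by exact_mod_cast hΔr
  have hNx : (N : ℝ) * x = T ^ (9935 / 10000 : ℝ) := by
    rw [hx]
    field_simp
  have hNΔ : (N : ℝ) * Δ ≤ T ^ (9935 / 10000 : ℝ) := by
    rw [← hNx]
    exact mul_le_mul_of_nonneg_left hΔ1 hNr.le
  set H : ℕ := ⌈T ^ (45 / 1000 : ℝ)⌉₊ with hHd
  have hH1 : T ^ (45 / 1000 : ℝ) ≤ H := Nat.le_ceil _
  have hH2 : (H : ℝ) ≤ 2 * T ^ (45 / 1000 : ℝ) := by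
    have h1 : (H : ℝ) < T ^ (45 / 1000 : ℝ) + 1 := Nat.ceil_lt_add_one (pos (45 / 1000 : ℝ)).le
    have h2 := one (show (0 : ℝ) ≤ 45 / 1000 by norm_num)
    linarith
  have hHr : (1 : ℝ) ≤ H := (one (by norm_num)).trans hH1
  have hH : 1 ≤ H := by exact_mod_cast hHr
  have hHT : (H : ℝ) ≤ T := by
    calc (H : ℝ) ≤ 2 * T ^ (45 / 1000 : ℝ) := hH2
      _ ≤ T ^ (1 : ℝ) := B.mul_le (B.c0 (by norm_num)) (by norm_num)
      _ = T := Real.rpow_one T
  -- the interval of w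
  have hIW : ∀ w ∈ IW T, w.Prime ∧ T ^ (6 / 100 + 1 / 1000000 / 4 : ℝ) < (w : ℝ) ∧
      (w : ℝ) ≤ T ^ (6 / 100 + 1 / 1000000 / 4 + 1 / 100000000 : ℝ) := by
    intro w hw
    unfold IW IP at hw
    rw [Finset.mem_filter, Finset.mem_Icc] at hw
    refine ⟨hw.2.1, hw.2.2, ?_⟩
    exact (Nat.le_floor_iff (pos _).le).mp hw.1.2
  have hHu' : ∀ q ∈ PU J', ∀ w ∈ IW T, 2 * H < q * w := by
    intro q hq w hw
    have h1 := (hqsize q hq).1
    have h2 : (1 : ℝ) ≤ w := by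
      have := (hIW w hw).2.1
      exact (one (by norm_num)).trans this.le
    have h3 : (2 : ℝ) * H < q * w := by
      calc (2 : ℝ) * H ≤ 4 * T ^ (45 / 1000 : ℝ) := by linarith
        _ < 5 * T ^ (45 / 1000 : ℝ) := by
            have := pos (45 / 1000 : ℝ)
            linarith
        _ ≤ T ^ (2 / 5 : ℝ) := B.mul_le (B.c0 (by norm_num)) (by norm_num)
        _ ≤ q := h1
        _ ≤ q * w := le_mul_of_one_le_right (by positivity) h2
    exact_mod_cast h3
  have hHu : ∀ u ∈ PU J, 2 * H < u := by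
    have h1 : ∑ u ∈ PU J, (if u ≤ 2 * H then (1 : ℝ) else 0) = 0 := by
      rw [hsplit (fun u => if u ≤ 2 * H then (1 : ℝ) else 0)]
      apply Finset.sum_eq_zero
      intro q hq
      apply Finset.sum_eq_zero
      intro w hw
      rw [if_neg]
      have := hHu' q hq w hw
      omega
    have h2 := (Finset.sum_eq_zero_iff_of_nonneg (fun u _ => by
      by_cases h : u ≤ 2 * H <;> simp [h])).mp h1
    intro u hu
    have h3 := h2 u hu
    by_contra hc
    rw [if_pos (by omega)] at h3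
    norm_num at h3
  -- the two parts of X
  set X1 : Finset ℕ := X.filter (fun n : ℕ => (n : ℤ) ≤ |k|) with hX1
  set X2 : Finset ℕ := X.filter (fun n : ℕ => ¬ (n : ℤ) ≤ |k|) with hX2
  have hXX : ∑ n ∈ X, α n * ∑ u ∈ (PU J).filter (fun u => Nat.Coprime n u),
      ((u : ℝ) / Nat.totient u) * DD b r k n (t0 n) (t1 n) u =
      (∑ n ∈ X1, α n * ∑ u ∈ (PU J).filter (fun u => Nat.Coprime n u),
        ((u : ℝ) / Nat.totient u) * DD b r k n (t0 n) (t1 n) u) +
      ∑ n ∈ X2, α n * ∑ u ∈ (PU J).filter (fun u => Nat.Coprime n u),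
        ((u : ℝ) / Nat.totient u) * DD b r k n (t0 n) (t1 n) u :=
    (Finset.sum_filter_add_sum_filter_not X _ _).symm
  rw [hXX]
  have hcardS := F.card_le (pos _).le
  -- X1
  have hT1' : |∑ n ∈ X1, α n * ∑ u ∈ (PU J).filter (fun u => Nat.Coprime n u),
        ((u : ℝ) / Nat.totient u) * DD b r k n (t0 n) (t1 n) u| ≤ T ^ (9937 / 10000 : ℝ) := by
    have h1 := part_triv F (r := r) (k := k) hbS X1 t0 t1 (fun n _ => h01 n) α hα
    refine h1.trans ?_
    have h2 : (X1.card : ℝ) ≤ T ^ (1 / 1000000 : ℝ) := by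
      have h3 : X1 ⊆ Icc 1 k.natAbs := by
        intro n hn
        rw [hX1, Finset.mem_filter, hX, Finset.mem_Ioc] at hn
        rw [Finset.mem_Icc]
        have h4 := hn.2
        rw [Int.abs_eq_natAbs] at h4
        omega
      have h4 := Finset.card_le_card h3
      rw [Nat.card_Icc] at h4
      calc (X1.card : ℝ) ≤ (k.natAbs : ℝ) := by exact_mod_cast (by omega : X1.card ≤ k.natAbs)
        _ = |(k : ℝ)| := by rw [Nat.cast_natAbs, Int.cast_abs]
        _ ≤ _ := hkT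
    calc (X1.card : ℝ) * (128 * (PU J).card) ≤
        T ^ (1 / 1000000 : ℝ) * (128 * T ^ (1 / 2 + 1 / 2000000 : ℝ)) := by gcongr
      _ = 128 * T ^ (1 / 1000000 + (1 / 2 + 1 / 2000000) : ℝ) := by
          rw [← rp (1 / 1000000) (1 / 2 + 1 / 2000000)]; ring
      _ ≤ _ := B.mul_le (B.c0 (by norm_num)) (by norm_num)
  -- X2
  have hX2I : X2 ⊆ Icc 1 N := (Finset.filter_subset _ _).trans hXI
  have hX2c : (X2.card : ℝ) ≤ N := by
    have h1 : (X2.card : ℝ) ≤ X.card := by exact_mod_cast Finset.card_filter_le _ _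
    linarith
  set E1 : ℝ := T ^ (1 / 10000 : ℝ) + 128 * (1 + Real.log U) with hE1
  have hE10 : 0 ≤ E1 := by
    have := pos (1 / 10000 : ℝ)
    rw [hE1]
    linarith
  set JM : ℕ := (⌊M⌋₊ + 1) / Δ with hJM
  have ht1M : ∀ n, t1 n ≤ ⌊M⌋₊ + 1 := by
    intro n
    have h1 := ht1 n
    have h2 := Nat.le_floor (hAM n)
    omega
  have hJn : ∀ n, t1 n / Δ ≤ JM := fun n => Nat.div_le_div_right (ht1M n)
  have hJMr : (JM : ℝ) ≤ 4 * T ^ (6501 / 1000000 : ℝ) := numJM B hNr hM1 hMN hx2 hNx hΔ2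
  have hΔr2 : (Δ : ℝ) ≤ T ^ (56 / 100 : ℝ) := by
    refine hΔ1.trans ?_
    rw [hx, div_le_iff₀ hNr]
    calc T ^ (9935 / 10000 : ℝ) ≤ T ^ (56 / 100 + 45 / 100 : ℝ) := mono (by norm_num)
      _ = T ^ (56 / 100 : ℝ) * T ^ (45 / 100 : ℝ) := (rp _ _).symm
      _ ≤ T ^ (56 / 100 : ℝ) * N := mul_le_mul_of_nonneg_left hNlow (pos _).le
  have hVV : ∀ n ∈ X2, ∀ t ∈ Edge Δ (t0 n) (t1 n), ∑ u ∈ PU J,
      (if (u : ℤ) ∣ (n : ℤ) * ((r : ℤ) + b * t) + k then (u : ℝ) / Nat.totient u else 0) ≤ E1 := by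
    intro n hn t ht
    rw [hX2, Finset.mem_filter, hX, Finset.mem_Ioc] at hn
    obtain ⟨⟨hn1, hn2⟩, hn3⟩ := hn
    rw [sum_dvd_eq J (fun u hu => F.pos hu)]
    have hx0 : (n : ℤ) * ((r : ℤ) + b * t) + k ≠ 0 := by
      intro h
      have h1 : (n : ℤ) ∣ k := ⟨-((r : ℤ) + b * t), by linarith⟩
      have h2 := Int.le_of_dvd (abs_pos.mpr hk) ((dvd_abs _ _).mpr h1)
      exact hn3 h2
    have htb : |(t : ℝ)| ≤ t1 n + 2 * Δ := by
      unfold Edge at ht
      rw [Finset.mem_union, Finset.mem_Ico, Finset.mem_Ico] at ht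
      have h1 := h01 n
      have h2 : |t| ≤ (t1 n : ℤ) + 2 * Δ := by
        rw [abs_le]
        omega
      rw [← Int.cast_abs]
      exact_mod_cast h2
    have hxb : |(((n : ℤ) * ((r : ℤ) + b * t) + k : ℤ) : ℝ)| ≤ T ^ 2 := by
      push_cast
      have hr1 : (r : ℝ) ≤ b := by exact_mod_cast hrb.le
      have hnN : (n : ℝ) ≤ N := by exact_mod_cast hn2
      have ht1r : (t1 n : ℝ) ≤ 2 * T ^ (56 / 100 : ℝ) := by
        have h1 : (t1 n : ℝ) ≤ A' n + 1 := by exact_mod_cast ht1 n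
        have h2 := hAM n
        linarith
      exact numX B hnN hNup hr1 hbT hkT htb ht1r hΔr2
    have h1 := hUU J hJ _ hx0 hxb
    have h2 := F.sum_inv hU1
    rw [hE1]
    have h3 := le_abs_self (UU J ((n : ℤ) * ((r : ℤ) + b * t) + k))
    linarith
  have hmain := part_main s_hat1 s_cnt s_cnt_len F hU1 (r := r) (k := k) hbS X2 t0 t1
    (fun n _ => h01 n) α hα hΔ hH hHu hE10 hVV (Jm := JM) (fun n _ => by
      rw [Nat.card_Ico]
      exact_mod_cast le_trans (Nat.sub_le _ _) (hJn n))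
  -- the main term
  obtain ⟨L, hL1', hL2, hL3⟩ := exists_L (one (show (0 : ℝ) ≤ 1 / 100000000 by norm_num))
  have hL3' : (L : ℝ) ≤ 1 + Real.log T := by
    rw [Real.log_rpow hT] at hL3
    linarith
  set P0 : ℝ := T ^ (6 / 100 + 1 / 1000000 / 4 : ℝ) with hP0
  have hP01 : 1 ≤ P0 := one (by norm_num)
  have hLP : 2 ^ L * P0 ≤ 2 * T ^ (6 / 100 + 1 / 1000000 / 4 + 1 / 100000000 : ℝ) := by
    calc 2 ^ L * P0 ≤ (2 * T ^ (1 / 100000000 : ℝ)) * P0 :=
          mul_le_mul_of_nonneg_right hL2 (pos _).le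
      _ = 2 * T ^ (6 / 100 + 1 / 1000000 / 4 + 1 / 100000000 : ℝ) := by
          rw [hP0, ← rp (6 / 100 + 1 / 1000000 / 4) (1 / 100000000)]
          ring
  have hmb := main_bound s_KK_half hSC hsplit P0 hP01 L (fun w hw => by
      obtain ⟨h1, h2, h3⟩ := hIW w hw
      refine ⟨h1, h2, h3.trans ?_⟩
      rw [← rp (6 / 100 + 1 / 1000000 / 4) (1 / 100000000), mul_comm]
      exact mul_le_mul_of_nonneg_right hL1' (pos _).le) F'.sq
    (fun q hq w hw => (hcop q hq w hw).1) N b r Δ H JM hΔ hHu' k hk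
    (fun q hq => hbcop q (F'.pos hq) (fun p hp hd => F'.pr q hq p hp hd))
    (fun w hw => by
      obtain ⟨h1, h2, h3⟩ := hIW w hw
      apply hbcop w h1.pos
      intro p hp hpw
      rw [(Nat.prime_dvd_prime_iff_eq hp h1).mp hpw]
      exact lt_of_le_of_lt (mono (by norm_num)) h2)
    α hα X2 hX2I (fun n => Ico ((t0 n + Δ - 1) / Δ) (t1 n / Δ))
    (fun n _ => by
      intro j hj
      rw [Finset.mem_Ico] at hj
      rw [Finset.mem_range]
      have := hJn n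
      omega)
    (T ^ (4801 / 10000 : ℝ)) (pos _).le
    (fun q hq C hC0 hC P hPa hPb => by
      apply numZ B hN1 hNup (hqsize q hq).1 (hqsize q hq).2 (F'.om q hq) hC0
      · calc C ≤ H * |(k : ℝ)| := hC
          _ ≤ (2 * T ^ (45 / 1000 : ℝ)) * T ^ (1 / 1000000 : ℝ) := by gcongr
          _ = 2 * T ^ (45 / 1000 + 1 / 1000000 : ℝ) := by
              rw [← rp (45 / 1000) (1 / 1000000)]
              ring
          _ ≤ _ := B.mul_le (B.c0 (by norm_num)) (by norm_num)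
      · exact (mono (by norm_num)).trans hPa
      · refine hPb.trans (hLP.trans ?_)
        exact B.mul_le (B.c0 (by norm_num)) (by norm_num))
  have hmb2 : (∑ h ∈ HH H, 1 / |(h : ℝ)|) * JM * (∑ q ∈ PU J', (q : ℝ) / Nat.totient q) *
        (L * (2 ^ L * P0 * T ^ (4801 / 10000 : ℝ))) ≤ T ^ (9937 / 10000 : ℝ) := by
    have a1 : ∑ h ∈ HH H, 1 / |(h : ℝ)| ≤ 2 * (1 + Real.log T) := by
      have h1 := sum_HH H hH
      have h2 := Real.log_le_log (by linarith) hHT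
      linarith
    have a2 : ∑ q ∈ PU J', (q : ℝ) / Nat.totient q ≤ 128 * T ^ (441 / 1000 : ℝ) := by
      have F'' : Fam (PU J') (T ^ (441 / 1000 : ℝ)) D0 :=
        ⟨F'.sq, F'.om, F'.pr, fun q hq => (hqsize q hq).2⟩
      have h1 := F''.card_le (pos _).le
      calc ∑ q ∈ PU J', (q : ℝ) / Nat.totient q ≤ ∑ q ∈ PU J', (128 : ℝ) :=
            Finset.sum_le_sum (fun q hq => ratio_le (F'.pos hq) (F'.om q hq))
        _ = ((PU J').card : ℝ) * 128 := by rw [Finset.sum_const, nsmul_eq_mul]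
        _ ≤ _ := by linarith
    have a0 : 0 ≤ ∑ h ∈ HH H, 1 / |(h : ℝ)| := Finset.sum_nonneg (fun _ _ => by positivity)
    have a3 : 0 ≤ ∑ q ∈ PU J', (q : ℝ) / Nat.totient q :=
      Finset.sum_nonneg (fun _ _ => by positivity)
    exact numMain B a0 a1 (by positivity) hJMr a3 a2 (by positivity) hL3'
      (mul_nonneg (by positivity) (pos _).le) hLP
  -- the errors
  have herr : (X2.card : ℝ) * (4 * Δ * E1 + 128 * (PU J).card * (JM * (U / (2 * H * Δ))) +
        2 * Δ * (128 * (1 + Real.log U))) ≤ 3 * T ^ (9937 / 10000 : ℝ) :=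
    numErr B hNr hNup hU hlogU0 hlogU hcardS hx2 hNx hΔ1 hΔ2 hH1 (by positivity) hJMr hE1 hX2c
  refine (abs_add_le _ _).trans ?_
  have hfin := hmain.trans (add_le_add (hmb.trans hmb2) herr)
  have hfp := pos (9937 / 10000 : ℝ)
  linarith

end Pool.Agent.Helper62.UH
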