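import Pool.Agent.Helper56.AP.Stmts
import Pool.Agent.Helper8.AP.Ph

/-!
# MP_8958e8, A': block UH: definitions and the statements of its pieces
-/

open Finset Filter
open Pool.Agent.AP
open Pool.Agent.Helper57.BG (ph)
open Pool.Agent.Helper8.AP (ez)

namespace Pool.Agent.Helper62.UH

/-- the discrete Fejer kernel -/
noncomputable def KK (u Δ : ℕ) (h : ℤ) : ℝ := ‖∑ a ∈ range Δ, ez u (h * a)‖ ^ 2 / Δ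

/-- UHa -/
def S_KK_half : Prop := ∀ (u Δ : ℕ) (h : ℤ) (_ : 0 < u) (_ : 0 < Δ) (_ : h ≠ 0)
    (_ : 2 * |h| ≤ (u : ℤ)), KK u Δ h ≤ u / (2 * |(h : ℝ)|)

/-- UHa -/
def S_hat1 : Prop := ∀ (u Δ H : ℕ) (_ : 0 < Δ) (_ : 1 ≤ H) (_ : 2 * H < u) (τ j : ℤ),
    ‖(1 / (Δ : ℂ)) * ∑ a ∈ range Δ, ∑ a' ∈ range Δ,
        (if (u : ℤ) ∣ j * Δ + a - a' - τ then (1 : ℂ) else 0) - (Δ : ℂ) / u -
      (1 / (u : ℂ)) * ∑ h ∈ (Icc (-(H : ℤ)) H).erase 0, ((KK u Δ h : ℝ) : ℂ) * ez u (h * (j * Δ - τ))‖ ≤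
      u / (2 * H * Δ)

/-- UHb -/
def S_cnt : Prop := ∀ (u Δ : ℕ) (_ : 0 < Δ) (τ : ℤ) (t0 t1 : ℕ) (_ : t0 ≤ t1),
    |(((Ico (t0 : ℤ) t1).filter (fun t => (u : ℤ) ∣ t - τ)).card : ℝ) -
      (1 / (Δ : ℝ)) * ∑ j ∈ Ico ((t0 + Δ - 1) / Δ) (t1 / Δ), ∑ a ∈ range Δ, ∑ a' ∈ range Δ,
        (if (u : ℤ) ∣ (j : ℤ) * Δ + a - a' - τ then (1 : ℝ) else 0)| ≤
      (((Ico ((t0 : ℤ) - Δ) (t0 + Δ) ∪ Ico ((t1 : ℤ) - 2 * Δ) t1).filter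
        (fun t => (u : ℤ) ∣ t - τ)).card : ℝ)

/-- UHb -/
def S_cnt_len : Prop := ∀ (Δ : ℕ) (_ : 0 < Δ) (t0 t1 : ℕ) (_ : t0 ≤ t1),
    |((t1 : ℝ) - t0) - ((Ico ((t0 + Δ - 1) / Δ) (t1 / Δ)).card : ℝ) * Δ| ≤ 2 * Δ

/-- the interval of w -/
noncomputable def IW (T : ℝ) : Finset ℕ := IP (6 / 100 + (1 / 1000000) / 4) (1 / 100000000) T

/-- UHs -/
def S_sizes : Prop := ∀ᶠ T : ℝ in atTop, ∀ J : List (Finset ℕ), J.Sublist (IF T) →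
    (∀ u ∈ PU J, (u : ℝ) ≤ T ^ (483 / 1000 : ℝ)) ∨
    (∃ J' : List (Finset ℕ), J'.Sublist (IF T) ∧
      (∀ g : ℕ → ℝ, ∑ u ∈ PU J, g u = ∑ q ∈ PU J', ∑ w ∈ IW T, g (q * w)) ∧
      (∀ q ∈ PU J', ∀ w ∈ IW T, Nat.Coprime q w ∧ q * w ∈ PU J) ∧
      (∀ q ∈ PU J', T ^ (2 / 5 : ℝ) ≤ q ∧ (q : ℝ) ≤ T ^ (441 / 1000 : ℝ)))

end Pool.Agent.Helper62.UH
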