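import Mathlib
import Pool.Agent.Helper57.BG.Stmts
import Pool.Agent.Helper8.AP.Ph
import Pool.Agent.Helper62.AP.SC
import Pool.Agent.Helper62.AP.UHdefs

/-!
# MP_8958e8, A': block UH, the application of the second Cauchy inequality
-/

open Finset

namespace Pool.Agent.Helper62.UH

open Pool.Agent.Helper57.BG (ph scb Stmt_SC)
open Pool.Agent.Helper8.AP (ez)

/-- dyadic version of SC -/
theorem scW (hSC : Stmt_SC) (W : Finset ℕ) (P0 : ℝ) (hP0 : 1 ≤ P0) (L : ℕ)
    (hW : ∀ w ∈ W, w.Prime ∧ P0 < w ∧ (w : ℝ) ≤ 2 ^ L * P0) (q N b : ℕ) (hq : Squarefree q)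
    (hqW : ∀ w ∈ W, Nat.Coprime w q) (c : ℤ) (hc : c ≠ 0) (hb : Nat.Coprime b q)
    (hbW : ∀ w ∈ W, Nat.Coprime b w) (lam : ℕ → ℂ) (hlam : ∀ w, ‖lam w‖ ≤ 1) (Z : ℝ)
    (hZ0 : 0 ≤ Z) (hZ : ∀ P : ℝ, P0 ≤ P → P ≤ 2 ^ L * P0 →
      (N : ℝ) * scb (2 * P) N 1 q P |(c : ℝ)| q.primeFactors.card ≤ (P * Z) ^ 2) :
    ∑ n ∈ (Icc 1 N).filter (fun n => Nat.Coprime n q),
      ‖∑ w ∈ W.filter (fun w => Nat.Coprime w n), lam w * ph (q * w) c ((b : ℤ) * n)‖ ≤
      L * (2 ^ L * P0 * Z) := by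
  classical
  set Wi : ℕ → Finset ℕ := fun i => W.filter (fun w : ℕ => 2 ^ i * P0 < (w : ℝ) ∧
    (w : ℝ) ≤ 2 ^ (i + 1) * P0) with hWi
  have hq0 : 0 < q := Nat.pos_of_ne_zero hq.ne_zero
  have hq1 : (1 : ℝ) ≤ q := by exact_mod_cast hq0
  have hpow : ∀ i : ℕ, (1 : ℝ) ≤ 2 ^ i * P0 := by
    intro i
    have : (1 : ℝ) ≤ 2 ^ i := one_le_pow₀ (by norm_num)
    nlinarith
  -- splitting a sum over W
  have hsplit : ∀ f : ℕ → ℂ, ∀ s : ℕ → Prop, ∀ _ : DecidablePred s,
      ∑ w ∈ W.filter s, f w = ∑ i ∈ range L, ∑ w ∈ (Wi i).filter s, f w := by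
    intro f s _
    have h1 : ∀ w ∈ W.filter s, f w = ∑ i ∈ range L,
        if (2 ^ i * P0 < (w : ℝ) ∧ (w : ℝ) ≤ 2 ^ (i + 1) * P0) then f w else 0 := by
      intro w hw
      obtain ⟨_, h2, h3⟩ := hW w (Finset.mem_filter.mp hw).1
      -- the unique index
      have hex : ∃ i, (w : ℝ) ≤ 2 ^ (i + 1) * P0 := by
        refine ⟨L, h3.trans ?_⟩
        have : (2 : ℝ) ^ L ≤ 2 ^ (L + 1) := pow_le_pow_right₀ (by norm_num) (by omega)
        nlinarith
      set i0 := Nat.find hex with hi0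
      have hi1 : (w : ℝ) ≤ 2 ^ (i0 + 1) * P0 := Nat.find_spec hex
      have hi2 : 2 ^ i0 * P0 < (w : ℝ) := by
        rcases Nat.eq_zero_or_pos i0 with h | h
        · rw [h]; simpa using h2
        · have := Nat.find_min hex (m := i0 - 1) (by omega)
          rw [not_le] at this
          rwa [show i0 - 1 + 1 = i0 by omega] at this
      have hi3 : i0 < L := by
        by_contra hcon
        rw [not_lt] at hcon
        have h4 : (2 : ℝ) ^ L ≤ 2 ^ i0 := pow_le_pow_right₀ (by norm_num) hcon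
        have : (2 : ℝ) ^ L * P0 ≤ 2 ^ i0 * P0 := by nlinarith
        linarith
      rw [Finset.sum_eq_single i0]
      · rw [if_pos ⟨hi2, hi1⟩]
      · intro i _ hne
        rw [if_neg]
        rintro ⟨h4, h5⟩
        rcases lt_or_gt_of_ne hne with h6 | h6
        · have h7 : (2 : ℝ) ^ (i + 1) ≤ 2 ^ i0 := pow_le_pow_right₀ (by norm_num) (by omega)
          have : (2 : ℝ) ^ (i + 1) * P0 ≤ 2 ^ i0 * P0 := by nlinarith
          linarith
        · have h7 : (2 : ℝ) ^ (i0 + 1) ≤ 2 ^ i := pow_le_pow_right₀ (by norm_num) (by omega)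
          have : (2 : ℝ) ^ (i0 + 1) * P0 ≤ 2 ^ i * P0 := by nlinarith
          linarith
      · intro h
        exact absurd (Finset.mem_range.mpr hi3) h
    rw [Finset.sum_congr rfl h1, Finset.sum_comm]
    apply Finset.sum_congr rfl
    intro i _
    simp only [hWi]
    rw [Finset.filter_filter, ← Finset.sum_filter, Finset.filter_filter]
    simp only [and_comm]
  -- one dyadic piece
  have hpiece : ∀ i ∈ range L, ∑ n ∈ (Icc 1 N).filter (fun n => Nat.Coprime n q),
      ‖∑ w ∈ (Wi i).filter (fun w => Nat.Coprime w n), lam w * ph (q * w) c ((b : ℤ) * n)‖ ≤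
      2 ^ L * P0 * Z := by
    intro i hi
    have hiL := Finset.mem_range.mp hi
    set P : ℝ := 2 ^ i * P0 with hP
    have hPP : ∀ w ∈ Wi i, w.Prime ∧ P < w ∧ (w : ℝ) ≤ 2 * P := by
      intro w hw
      simp only [hWi, Finset.mem_filter] at hw
      refine ⟨(hW w hw.1).1, hw.2.1, ?_⟩
      have e : 2 * P = 2 ^ (i + 1) * P0 := by rw [hP, pow_succ]; ring
      rw [e]
      exact hw.2.2
    have hsub : Wi i ⊆ W := Finset.filter_subset _ _
    have h1 := hSC (Wi i) P (hpow i) hPP q 1 N hq one_pos (Nat.coprime_one_left q)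
      (fun w hw => hqW w (hsub hw)) (fun w _ => Nat.coprime_one_right w) c b 0 hc
      (by rw [Int.gcd_natCast_natCast]; exact hb)
      (fun w hw => by rw [Int.gcd_natCast_natCast]; exact hbW w (hsub hw)) lam hlam
    have h2 : scb (Wi i).card N 1 q P |(c : ℝ)| q.primeFactors.card ≤
        scb (2 * P) N 1 q P |(c : ℝ)| q.primeFactors.card :=
      Pool.Agent.Helper62.AP.scb_mono (by positivity)
        (Pool.Agent.Helper62.AP.card_le_2P (hpow i) (fun w hw => (hPP w hw).2)) (by positivity)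
        one_pos hq1 (hpow i) (abs_nonneg _)
    have hfil : (Icc 1 N).filter (fun n => n ≡ 0 [MOD 1] ∧ Nat.Coprime n q) =
        (Icc 1 N).filter (fun n => Nat.Coprime n q) := by
      apply Finset.filter_congr
      intro n _
      simp [Nat.modEq_one]
    rw [hfil] at h1
    push_cast at h1
    have h3 : (∑ n ∈ (Icc 1 N).filter (fun n => Nat.Coprime n q),
        ‖∑ w ∈ (Wi i).filter (fun w => Nat.Coprime w n), lam w * ph (q * w) c ((b : ℤ) * n)‖) ^ 2
        ≤ (N : ℝ) * scb (2 * P) N 1 q P |(c : ℝ)| q.primeFactors.card := by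
      refine (sq_sum_le_card_mul_sum_sq).trans ?_
      have h4 : (((Icc 1 N).filter (fun n => Nat.Coprime n q)).card : ℝ) ≤ N := by
        have := Finset.card_filter_le (Icc 1 N) (fun n => Nat.Coprime n q)
        rw [Nat.card_Icc] at this
        exact_mod_cast (by omega : ((Icc 1 N).filter (fun n => Nat.Coprime n q)).card ≤ N)
      have h5 := h1.trans (by simpa using h2)
      exact mul_le_mul h4 h5 (Finset.sum_nonneg (fun _ _ => by positivity)) (by positivity)
    have hPle : P ≤ 2 ^ L * P0 := by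
      have : (2 : ℝ) ^ i ≤ 2 ^ L := pow_le_pow_right₀ (by norm_num) hiL.le
      rw [hP]
      nlinarith
    have hP0' : P0 ≤ P := by
      have : (1 : ℝ) ≤ 2 ^ i := one_le_pow₀ (by norm_num)
      rw [hP]
      nlinarith
    have h6 := h3.trans (hZ P hP0' hPle)
    have h7 := (le_abs_self _).trans (abs_le_of_sq_le_sq h6 (by
      have := hpow i
      positivity))
    refine h7.trans ?_
    exact mul_le_mul_of_nonneg_right hPle hZ0
  calc ∑ n ∈ (Icc 1 N).filter (fun n => Nat.Coprime n q),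
      ‖∑ w ∈ W.filter (fun w => Nat.Coprime w n), lam w * ph (q * w) c ((b : ℤ) * n)‖
      ≤ ∑ n ∈ (Icc 1 N).filter (fun n => Nat.Coprime n q), ∑ i ∈ range L,
        ‖∑ w ∈ (Wi i).filter (fun w => Nat.Coprime w n), lam w * ph (q * w) c ((b : ℤ) * n)‖ := by
        apply Finset.sum_le_sum
        intro n _
        rw [hsplit (fun w => lam w * ph (q * w) c ((b : ℤ) * n)) (fun w => Nat.Coprime w n)
          inferInstance]
        exact norm_sum_le _ _
    _ = ∑ i ∈ range L, ∑ n ∈ (Icc 1 N).filter (fun n => Nat.Coprime n q),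
        ‖∑ w ∈ (Wi i).filter (fun w => Nat.Coprime w n), lam w * ph (q * w) c ((b : ℤ) * n)‖ :=
        Finset.sum_comm
    _ ≤ ∑ i ∈ range L, 2 ^ L * P0 * Z := Finset.sum_le_sum hpiece
    _ = _ := by rw [Finset.sum_const, Finset.card_range, nsmul_eq_mul]

/-- the residue class of t -/
theorem tau_exists {u : ℕ} (k m0 n b : ℤ) (hn : IsCoprime n (u : ℤ))
    (hb : IsCoprime b (u : ℤ)) :
    ∃ τ : ℤ, (∀ t : ℤ, (u : ℤ) ∣ t - τ ↔ (u : ℤ) ∣ n * (m0 + b * t) + k) ∧
      ∀ h : ℤ, ez u (-(h * τ)) = ph u (h * m0) b * ph u (h * k) (b * n) := by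
  obtain ⟨y, hy⟩ := Pool.Agent.Helper8.AP.exists_inv hb
  obtain ⟨x, hx⟩ := Pool.Agent.Helper8.AP.exists_inv (hb.mul_left hn)
  refine ⟨-(k * x + m0 * y), ?_, ?_⟩
  · intro t
    have e0 : n * (m0 + b * (-(k * x + m0 * y))) + k ≡ 0 [ZMOD u] := by
      have e1 : n * (m0 + b * (-(k * x + m0 * y))) + k =
        k * (1 - (b * n) * x) + n * m0 * (1 - b * y) := by ring
      rw [e1]
      have e2 : (u : ℤ) ∣ 1 - (b * n) * x := (Int.modEq_iff_dvd).mp hx
      have e3 : (u : ℤ) ∣ 1 - b * y := (Int.modEq_iff_dvd).mp hy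
      have : (u : ℤ) ∣ k * (1 - (b * n) * x) + n * m0 * (1 - b * y) :=
        dvd_add (e2.mul_left _) (e3.mul_left _)
      exact (Int.modEq_zero_iff_dvd).mpr this
    have e4 : n * (m0 + b * t) + k = (b * n) * (t - -(k * x + m0 * y)) +
        (n * (m0 + b * (-(k * x + m0 * y))) + k) := by ring
    have e5 : (u : ℤ) ∣ n * (m0 + b * (-(k * x + m0 * y))) + k := (Int.modEq_zero_iff_dvd).mp e0
    rw [e4, dvd_add_left e5]
    constructor
    · intro h
      exact h.mul_left _
    · intro h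
      exact (IsCoprime.dvd_of_dvd_mul_left ((hb.mul_left hn).symm) h)
  · intro h
    rw [Pool.Agent.Helper8.AP.ph_inv hy, Pool.Agent.Helper8.AP.ph_inv hx,
      ← Pool.Agent.Helper8.AP.ez_add]
    congr 1
    ring

/-- the variable t: m = r + b t -/
theorem tint (b m0 A A' : ℕ) (hb : 0 < b) (hA : A ≤ A') : ∃ t0 t1 : ℕ, t0 ≤ t1 ∧ t1 ≤ A' + 1 ∧
    ((t1 : ℝ) - t0 ≤ A') ∧
    ∀ F : ℕ → ℝ, ∑ m ∈ (Ioc A A').filter (fun m => m ≡ m0 [MOD b]), F m =
      ∑ t ∈ Ico t0 t1, F (m0 % b + b * t) := by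
  set r := m0 % b with hr
  have hrb : r < b := Nat.mod_lt _ hb
  have key : ∀ F : ℕ → ℝ, ∑ m ∈ (Ioc A A').filter (fun m => m ≡ m0 [MOD b]), F m =
      ∑ t ∈ Ico ((A + b - r) / b) ((A' + b - r) / b), F (r + b * t) := by
    intro F
    symm
    refine Finset.sum_nbij (fun t => r + b * t) ?_ ?_ ?_ (fun _ _ => rfl)
    · intro t ht
      rw [Finset.mem_Ico] at ht
      obtain ⟨h1, h2⟩ := ht
      rw [Finset.mem_filter, Finset.mem_Ioc]
      have h3 : A + b - r < b * t + b := by
        have := Nat.lt_mul_div_succ (A + b - r) hb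
        have h4 : b * ((A + b - r) / b + 1) ≤ b * (t + 1) := Nat.mul_le_mul_left _ (by omega)
        have h5 : b * (t + 1) = b * t + b := by ring
        omega
      have h6 : b * t + b ≤ A' + b - r := by
        have h7 : b * ((A' + b - r) / b) ≤ A' + b - r := Nat.mul_div_le _ _
        have h8 : b * (t + 1) ≤ b * ((A' + b - r) / b) := Nat.mul_le_mul_left _ (by omega)
        have h9 : b * (t + 1) = b * t + b := by ring
        omega
      refine ⟨⟨by omega, by omega⟩, ?_⟩
      have h10 : r + b * t ≡ r [MOD b] := by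
        unfold Nat.ModEq
        rw [Nat.add_mul_mod_self_left]
      exact h10.trans (Nat.mod_modEq m0 b)
    · intro x _ y _ hxy
      have hxy' : r + b * x = r + b * y := hxy
      exact Nat.eq_of_mul_eq_mul_left hb (by omega)
    · intro m hm
      have hm' := Finset.mem_coe.mp hm
      rw [Finset.mem_filter, Finset.mem_Ioc] at hm'
      obtain ⟨⟨h1, h2⟩, h3⟩ := hm'
      have h4 : m % b = r := h3
      have h5 : m = r + b * (m / b) := by
        have := Nat.mod_add_div m b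
        omega
      refine ⟨m / b, ?_, h5.symm⟩
      rw [Finset.mem_coe, Finset.mem_Ico]
      constructor
      · have h6 : A + b - r < b * (m / b + 1) := by
          have : b * (m / b + 1) = b * (m / b) + b := by ring
          omega
        have := (Nat.div_lt_iff_lt_mul hb).mpr (by rwa [mul_comm] at h6)
        omega
      · rw [Nat.lt_iff_add_one_le, Nat.le_div_iff_mul_le hb]
        have : (m / b + 1) * b = b * (m / b) + b := by ring
        omega
  refine ⟨(A + b - r) / b, (A' + b - r) / b, Nat.div_le_div_right (by omega), ?_, ?_, key⟩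
  · have h1 : (A' + b - r) / b ≤ (A' + b) / b := Nat.div_le_div_right (by omega)
    have h2 : (A' + b) / b = A' / b + 1 := Nat.add_div_right _ hb
    have h3 : A' / b ≤ A' := Nat.div_le_self _ _
    omega
  · have h1 := key (fun _ => 1)
    simp only [Finset.sum_const, nsmul_eq_mul, mul_one, Nat.card_Ico] at h1
    have h2 : (((Ioc A A').filter (fun m => m ≡ m0 [MOD b])).card : ℝ) ≤ A' := by
      have := Finset.card_filter_le (Ioc A A') (fun m => m ≡ m0 [MOD b])
      rw [Nat.card_Ioc] at this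
      exact_mod_cast (by omega : ((Ioc A A').filter (fun m => m ≡ m0 [MOD b])).card ≤ A')
    have h3 : (A + b - r) / b ≤ (A' + b - r) / b := Nat.div_le_div_right (by omega)
    rw [h1, Nat.cast_sub h3] at h2
    exact h2

end Pool.Agent.Helper62.UH
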