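import Pool.Agent.Helper62.AP.UHc

/-!
# MP_8958e8, A': block UH, one modulus and the main term
-/

open Finset

namespace Pool.Agent.Helper62.UH

open Pool.Agent.Helper57.BG (ph scb Stmt_SC)
open Pool.Agent.Helper8.AP (ez norm_ez norm_ph ez_add)

/-- the discrepancy of one modulus -/
noncomputable def DD (b r : ℕ) (k : ℤ) (n t0 t1 u : ℕ) : ℝ :=
  (((Ico t0 t1).filter (fun t : ℕ => (u : ℤ) ∣ (n : ℤ) * ((r : ℤ) + b * t) + k)).card : ℝ) -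
    ((t1 : ℝ) - t0) / u

/-- the frequencies -/
noncomputable def HH (H : ℕ) : Finset ℤ := (Icc (-(H : ℤ)) H).erase 0

/-- the main term of one modulus -/
noncomputable def MT (Δ H b r : ℕ) (k : ℤ) (n : ℕ) (Jn : Finset ℕ) (u : ℕ) : ℂ :=
  (1 / (u : ℂ)) * ∑ h ∈ HH H, ((KK u Δ h : ℝ) : ℂ) *
    ∑ j ∈ Jn, (ez u (h * (j * Δ)) * ph u (h * r) b) * ph u (h * k) ((b : ℤ) * n)

theorem KK_nonneg (u Δ : ℕ) (h : ℤ) : 0 ≤ KK u Δ h := by
  unfold KK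
  positivity

/-- naturals against integers -/
theorem card_nat_int (t0 t1 : ℕ) (s : ℤ → Prop) [DecidablePred s] :
    ((Ico t0 t1).filter (fun t : ℕ => s (t : ℤ))).card =
      ((Ico (t0 : ℤ) t1).filter s).card := by
  apply Finset.card_bij (fun (t : ℕ) _ => (t : ℤ))
  · intro t ht
    rw [Finset.mem_filter, Finset.mem_Ico] at ht ⊢
    exact ⟨⟨by exact_mod_cast ht.1.1, by exact_mod_cast ht.1.2⟩, ht.2⟩
  · intro x _ y _ h
    exact_mod_cast h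
  · intro z hz
    rw [Finset.mem_filter, Finset.mem_Ico] at hz
    obtain ⟨⟨h1, h2⟩, h3⟩ := hz
    obtain ⟨n, rfl⟩ : ∃ n : ℕ, z = (n : ℤ) := ⟨z.toNat, by omega⟩
    exact ⟨n, by rw [Finset.mem_filter, Finset.mem_Ico]; exact ⟨⟨by omega, by omega⟩, h3⟩, rfl⟩

/-- a modulus which is not coprime to n -/
theorem DD_not_coprime {b r : ℕ} {k : ℤ} {n t0 t1 u p : ℕ} (hk : k ≠ 0) (hpn : p ∣ n)
    (hpu : p ∣ u) (hpk : |k| < p) : DD b r k n t0 t1 u = -(((t1 : ℝ) - t0) / u) := by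
  unfold DD
  have h : (Ico t0 t1).filter (fun t : ℕ => (u : ℤ) ∣ (n : ℤ) * ((r : ℤ) + b * t) + k) = ∅ := by
    apply Finset.filter_eq_empty_iff.mpr
    intro t _ hd
    have h1 : (p : ℤ) ∣ (n : ℤ) * ((r : ℤ) + b * t) + k :=
      (Int.natCast_dvd_natCast.mpr hpu).trans hd
    have h2 : (p : ℤ) ∣ (n : ℤ) * ((r : ℤ) + b * t) :=
      (Int.natCast_dvd_natCast.mpr hpn).mul_right _
    have h3 : (p : ℤ) ∣ k := (dvd_add_right h2).mp h1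
    have h4 := Int.le_of_dvd (abs_pos.mpr hk) ((dvd_abs _ _).mpr h3)
    omega
  rw [h]
  simp

/-- trivial bound -/
theorem DD_trivial {b r : ℕ} {k : ℤ} {n t0 t1 u : ℕ} (h01 : t0 ≤ t1) (hu : 0 < u)
    (hn : Nat.Coprime n u) (hb : Nat.Coprime b u) : |DD b r k n t0 t1 u| ≤ 1 := by
  obtain ⟨τ, h1, _⟩ := tau_exists (u := u) k r n b (Nat.isCoprime_iff_coprime.mpr hn)
    (Nat.isCoprime_iff_coprime.mpr hb)
  unfold DD
  have e1 : (Ico t0 t1).filter (fun t : ℕ => (u : ℤ) ∣ (n : ℤ) * ((r : ℤ) + b * t) + k) =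
      (Ico t0 t1).filter (fun t : ℕ => (u : ℤ) ∣ (t : ℤ) - τ) := by
    apply Finset.filter_congr
    intro t _
    exact (h1 t).symm
  rw [e1, card_nat_int t0 t1 (fun t : ℤ => (u : ℤ) ∣ t - τ)]
  have hu' : (0 : ℤ) < u := by exact_mod_cast hu
  have e2 : (Ico (t0 : ℤ) t1).filter (fun t => (u : ℤ) ∣ t - τ) =
      (Ico (t0 : ℤ) t1).filter (fun t => t ≡ τ [ZMOD u]) := by
    apply Finset.filter_congr
    intro t _
    rw [Int.modEq_comm, Int.modEq_iff_dvd]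
  rw [e2]
  have key := Int.Ico_filter_modEq_card (t0 : ℤ) t1 hu' τ
  have hq : (0 : ℚ) < u := by exact_mod_cast hu
  set x : ℚ := (((t1 : ℤ) : ℚ) - τ) / ((u : ℤ) : ℚ) with hx
  set y : ℚ := (((t0 : ℤ) : ℚ) - τ) / ((u : ℤ) : ℚ) with hy
  have hxy : x - y = ((t1 : ℚ) - t0) / u := by
    rw [hx, hy]
    push_cast
    field_simp
    ring
  have hxy0 : 0 ≤ x - y := by
    rw [hxy]
    have : (t0 : ℚ) ≤ t1 := by exact_mod_cast h01
    apply div_nonneg _ hq.le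
    linarith
  have h2 := Int.le_ceil x
  have h3 := Int.ceil_lt_add_one x
  have h4 := Int.le_ceil y
  have h5 := Int.ceil_lt_add_one y
  have h6 : ((((Ico (t0 : ℤ) t1).filter (fun t => t ≡ τ [ZMOD u])).card : ℤ) : ℚ) =
      max ((⌈x⌉ : ℚ) - ⌈y⌉) 0 := by
    rw [key]
    push_cast
    rfl
  have h7 : |((((Ico (t0 : ℤ) t1).filter (fun t => t ≡ τ [ZMOD u])).card : ℤ) : ℚ) -
      ((t1 : ℚ) - t0) / u| ≤ 1 := by
    rw [h6, ← hxy]
    rcases le_total ((⌈x⌉ : ℚ) - ⌈y⌉) 0 with h8 | h8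
    · rw [max_eq_right h8, abs_le]
      constructor <;> linarith
    · rw [max_eq_left h8, abs_le]
      constructor <;> linarith
  have h8 : (((|((((Ico (t0 : ℤ) t1).filter (fun t => t ≡ τ [ZMOD u])).card : ℤ) : ℚ) -
      ((t1 : ℚ) - t0) / u|) : ℚ) : ℝ) ≤ ((1 : ℚ) : ℝ) := by exact_mod_cast h7
  push_cast at h8
  exact h8

/-- one modulus by hats -/
theorem DD_hat (hhat : S_hat1) (hcnt : S_cnt) (hlen : S_cnt_len) {b r : ℕ} {k : ℤ}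
    {n t0 t1 u Δ H : ℕ} (h01 : t0 ≤ t1) (hn : Nat.Coprime n u) (hb : Nat.Coprime b u)
    (hΔ : 0 < Δ) (hH : 1 ≤ H) (hHu : 2 * H < u) :
    ‖((DD b r k n t0 t1 u : ℝ) : ℂ) -
      MT Δ H b r k n (Ico ((t0 + Δ - 1) / Δ) (t1 / Δ)) u‖ ≤
    (((Ico ((t0 : ℤ) - Δ) (t0 + Δ) ∪ Ico ((t1 : ℤ) - 2 * Δ) t1).filter
        (fun t => (u : ℤ) ∣ (n : ℤ) * ((r : ℤ) + b * t) + k)).card : ℝ) +
      ((Ico ((t0 + Δ - 1) / Δ) (t1 / Δ)).card : ℝ) * (u / (2 * H * Δ)) + 2 * Δ / u := by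
  have hu : 0 < u := by omega
  have hur : (0 : ℝ) < u := by exact_mod_cast hu
  obtain ⟨τ, h1, h2⟩ := tau_exists (u := u) k r n b (Nat.isCoprime_iff_coprime.mpr hn)
    (Nat.isCoprime_iff_coprime.mpr hb)
  set Jn := Ico ((t0 + Δ - 1) / Δ) (t1 / Δ) with hJn
  -- the main term
  have e1 : MT Δ H b r k n Jn u = ∑ j ∈ Jn, (1 / (u : ℂ)) * ∑ h ∈ (Icc (-(H : ℤ)) H).erase 0,
      ((KK u Δ h : ℝ) : ℂ) * ez u (h * ((j : ℤ) * Δ - τ)) := by
    unfold MT HH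
    rw [← Finset.mul_sum]
    congr 1
    rw [Finset.sum_comm]
    apply Finset.sum_congr rfl
    intro h _
    rw [Finset.mul_sum]
    apply Finset.sum_congr rfl
    intro j _
    have e2 : h * ((j : ℤ) * Δ - τ) = h * (j * Δ) + -(h * τ) := by ring
    rw [e2, ez_add, h2 h]
    ring
  -- the three errors
  have e3 : (Ico t0 t1).filter (fun t : ℕ => (u : ℤ) ∣ (n : ℤ) * ((r : ℤ) + b * t) + k) =
      (Ico t0 t1).filter (fun t : ℕ => (u : ℤ) ∣ (t : ℤ) - τ) := by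
    apply Finset.filter_congr
    intro t _
    exact (h1 t).symm
  have e4 : (Ico ((t0 : ℤ) - Δ) (t0 + Δ) ∪ Ico ((t1 : ℤ) - 2 * Δ) t1).filter
        (fun t => (u : ℤ) ∣ (n : ℤ) * ((r : ℤ) + b * t) + k) =
      (Ico ((t0 : ℤ) - Δ) (t0 + Δ) ∪ Ico ((t1 : ℤ) - 2 * Δ) t1).filter
        (fun t => (u : ℤ) ∣ t - τ) := by
    apply Finset.filter_congr
    intro t _
    exact (h1 t).symm
  rw [e4]
  set C : ℝ := (((Ico (t0 : ℤ) t1).filter (fun t => (u : ℤ) ∣ t - τ)).card : ℝ) with hC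
  set Pj : ℕ → ℝ := fun j => (1 / (Δ : ℝ)) * ∑ a ∈ range Δ, ∑ a' ∈ range Δ,
        (if (u : ℤ) ∣ (j : ℤ) * Δ + a - a' - τ then (1 : ℝ) else 0) with hPj
  set Mj : ℕ → ℂ := fun j => (1 / (u : ℂ)) * ∑ h ∈ (Icc (-(H : ℤ)) H).erase 0,
      ((KK u Δ h : ℝ) : ℂ) * ez u (h * ((j : ℤ) * Δ - τ)) with hMj
  have hD : DD b r k n t0 t1 u = C - ((t1 : ℝ) - t0) / u := by
    unfold DD
    rw [e3, card_nat_int t0 t1 (fun t : ℤ => (u : ℤ) ∣ t - τ)]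
  have k1 : |C - ∑ j ∈ Jn, Pj j| ≤ (((Ico ((t0 : ℤ) - Δ) (t0 + Δ) ∪
      Ico ((t1 : ℤ) - 2 * Δ) t1).filter (fun t => (u : ℤ) ∣ t - τ)).card : ℝ) := by
    have := hcnt u Δ hΔ τ t0 t1 h01
    rw [Finset.mul_sum] at this
    exact this
  have k2 : ∀ j ∈ Jn, ‖((Pj j : ℝ) : ℂ) - (Δ : ℂ) / u - Mj j‖ ≤ u / (2 * H * Δ) := by
    intro j _
    have := hhat u Δ H hΔ hH hHu τ j
    have e5 : ((Pj j : ℝ) : ℂ) = (1 / (Δ : ℂ)) * ∑ a ∈ range Δ, ∑ a' ∈ range Δ,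
        (if (u : ℤ) ∣ (j : ℤ) * Δ + a - a' - τ then (1 : ℂ) else 0) := by
      simp only [hPj]
      push_cast
      congr 1
      apply Finset.sum_congr rfl
      intro a _
      apply Finset.sum_congr rfl
      intro a' _
      split_ifs <;> simp
    rw [e5]
    exact this
  have k3 := hlen Δ hΔ t0 t1 h01
  have hid : ((DD b r k n t0 t1 u : ℝ) : ℂ) - MT Δ H b r k n Jn u =
      ((C - ∑ j ∈ Jn, Pj j : ℝ) : ℂ) +
      ∑ j ∈ Jn, (((Pj j : ℝ) : ℂ) - (Δ : ℂ) / u - Mj j) -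
      ((((t1 : ℝ) - t0 - (Jn.card : ℝ) * Δ) / u : ℝ) : ℂ) := by
    rw [e1, hD, Finset.sum_sub_distrib, Finset.sum_sub_distrib, Finset.sum_const, nsmul_eq_mul]
    push_cast
    ring
  rw [hid]
  refine (norm_sub_le _ _).trans ?_
  refine add_le_add ((norm_add_le _ _).trans (add_le_add ?_ ?_)) ?_
  · rw [Complex.norm_real, Real.norm_eq_abs]
    exact k1
  · refine (norm_sum_le _ _).trans ((Finset.sum_le_sum k2).trans ?_)
    rw [Finset.sum_const, nsmul_eq_mul]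
  · rw [Complex.norm_real, Real.norm_eq_abs, abs_div, abs_of_pos hur]
    exact div_le_div_of_nonneg_right k3 hur.le

end Pool.Agent.Helper62.UH
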