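import Pool.Agent.Helper62.AP.UHd

/-!
# MP_8958e8, A': block UH, the main term
-/

open Finset

namespace Pool.Agent.Helper62.UH

open Pool.Agent.Helper57.BG (ph scb Stmt_SC)
open Pool.Agent.Helper8.AP (ez norm_ez norm_ph ez_add)

theorem split_complex {S Q W : Finset ℕ}
    (hs : ∀ g : ℕ → ℝ, ∑ u ∈ S, g u = ∑ q ∈ Q, ∑ w ∈ W, g (q * w)) (g : ℕ → ℂ) :
    ∑ u ∈ S, g u = ∑ q ∈ Q, ∑ w ∈ W, g (q * w) := by
  apply Complex.ext
  · rw [Complex.re_sum, hs (fun u => (g u).re), Complex.re_sum]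
    apply Finset.sum_congr rfl
    intro q _
    rw [Complex.re_sum]
  · rw [Complex.im_sum, hs (fun u => (g u).im), Complex.im_sum]
    apply Finset.sum_congr rfl
    intro q _
    rw [Complex.im_sum]

/-- the coefficients of SC -/
noncomputable def lamU (W : Finset ℕ) (Δ b r : ℕ) (h : ℤ) (j q : ℕ) (w : ℕ) : ℂ :=
  if w ∈ W then ((|(h : ℝ)| / q * (KK (q * w) Δ h / ((w : ℝ) - 1)) : ℝ) : ℂ) *
    (ez (q * w) (h * (j * Δ)) * ph (q * w) (h * r) b) else 0

theorem norm_lamU (hKK : S_KK_half) {W : Finset ℕ} {Δ b r : ℕ} {h : ℤ} {j q : ℕ}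
    (hΔ : 0 < Δ) (hq : 0 < q) (hh : h ≠ 0) (hW : ∀ w ∈ W, w.Prime)
    (hH : ∀ w ∈ W, 2 * |h| ≤ ((q * w : ℕ) : ℤ)) (w : ℕ) : ‖lamU W Δ b r h j q w‖ ≤ 1 := by
  unfold lamU
  split_ifs with hw
  · rw [norm_mul, norm_mul, norm_ez, norm_ph, mul_one, mul_one, Complex.norm_real,
      Real.norm_eq_abs]
    have hwp := hW w hw
    have hw2 : (2 : ℝ) ≤ w := by exact_mod_cast hwp.two_le
    have hq' : (0 : ℝ) < q := by exact_mod_cast hq
    have hh' : 0 < |(h : ℝ)| := abs_pos.mpr (by exact_mod_cast hh)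
    have k1 := hKK (q * w) Δ h (Nat.mul_pos hq hwp.pos) hΔ hh (hH w hw)
    have k0 := KK_nonneg (q * w) Δ h
    rw [abs_of_nonneg (by
      apply mul_nonneg (by positivity)
      apply div_nonneg k0
      linarith)]
    have k2 : KK (q * w) Δ h / ((w : ℝ) - 1) ≤ (((q * w : ℕ) : ℝ) / (2 * |(h : ℝ)|)) / ((w : ℝ) - 1) :=
      div_le_div_of_nonneg_right k1 (by linarith)
    calc |(h : ℝ)| / q * (KK (q * w) Δ h / ((w : ℝ) - 1))
        ≤ |(h : ℝ)| / q * ((((q * w : ℕ) : ℝ) / (2 * |(h : ℝ)|)) / ((w : ℝ) - 1)) :=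
          mul_le_mul_of_nonneg_left k2 (by positivity)
      _ = (w : ℝ) / (2 * ((w : ℝ) - 1)) := by
          have : (w : ℝ) - 1 ≠ 0 := by linarith
          push_cast
          field_simp
      _ ≤ 1 := by
          rw [div_le_one (by linarith)]
          linarith
  · simp

/-- the inner sum of SC -/
noncomputable def TT (W : Finset ℕ) (Δ b r : ℕ) (k : ℤ) (h : ℤ) (j q n : ℕ) : ℂ :=
  ∑ w ∈ W.filter (fun w => Nat.Coprime w n), lamU W Δ b r h j q w *
    ph (q * w) (h * k) ((b : ℤ) * n)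

theorem inner_eq {S Q W : Finset ℕ}
    (hs : ∀ g : ℕ → ℝ, ∑ u ∈ S, g u = ∑ q ∈ Q, ∑ w ∈ W, g (q * w))
    (hW : ∀ w ∈ W, w.Prime) (hQ : ∀ q ∈ Q, 0 < q)
    (hQW : ∀ q ∈ Q, ∀ w ∈ W, Nat.Coprime q w) (b r Δ H n : ℕ) (k : ℤ) (Jn : Finset ℕ) :
    ∑ u ∈ S.filter (fun u => Nat.Coprime n u), ((u : ℂ) / Nat.totient u) * MT Δ H b r k n Jn u =
    ∑ h ∈ HH H, ∑ j ∈ Jn, ∑ q ∈ Q.filter (fun q => Nat.Coprime n q),
      (((q : ℝ) / (Nat.totient q * |(h : ℝ)|) : ℝ) : ℂ) * TT W Δ b r k h j q n := by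
  rw [Finset.sum_filter, split_complex hs (fun u => if Nat.Coprime n u then
    ((u : ℂ) / Nat.totient u) * MT Δ H b r k n Jn u else 0)]
  -- the right side
  have e1 : ∑ h ∈ HH H, ∑ j ∈ Jn, ∑ q ∈ Q.filter (fun q => Nat.Coprime n q),
      (((q : ℝ) / (Nat.totient q * |(h : ℝ)|) : ℝ) : ℂ) * TT W Δ b r k h j q n =
      ∑ q ∈ Q.filter (fun q => Nat.Coprime n q), ∑ h ∈ HH H, ∑ j ∈ Jn,
      (((q : ℝ) / (Nat.totient q * |(h : ℝ)|) : ℝ) : ℂ) * TT W Δ b r k h j q n := by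
    calc _ = ∑ h ∈ HH H, ∑ q ∈ Q.filter (fun q => Nat.Coprime n q), ∑ j ∈ Jn,
      (((q : ℝ) / (Nat.totient q * |(h : ℝ)|) : ℝ) : ℂ) * TT W Δ b r k h j q n :=
          Finset.sum_congr rfl (fun h _ => Finset.sum_comm)
      _ = _ := Finset.sum_comm
  rw [e1, Finset.sum_filter]
  apply Finset.sum_congr rfl
  intro q hq
  have hq0 : 0 < q := hQ q hq
  by_cases hnq : Nat.Coprime n q
  · rw [if_pos hnq]
    have e2 : ∑ h ∈ HH H, ∑ j ∈ Jn,
        (((q : ℝ) / (Nat.totient q * |(h : ℝ)|) : ℝ) : ℂ) * TT W Δ b r k h j q n =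
        ∑ w ∈ W.filter (fun w => Nat.Coprime w n), ∑ h ∈ HH H, ∑ j ∈ Jn,
          (((q : ℝ) / (Nat.totient q * |(h : ℝ)|) : ℝ) : ℂ) * (lamU W Δ b r h j q w *
            ph (q * w) (h * k) ((b : ℤ) * n)) := by
      unfold TT
      calc _ = ∑ h ∈ HH H, ∑ j ∈ Jn, ∑ w ∈ W.filter (fun w => Nat.Coprime w n),
          (((q : ℝ) / (Nat.totient q * |(h : ℝ)|) : ℝ) : ℂ) * (lamU W Δ b r h j q w *
            ph (q * w) (h * k) ((b : ℤ) * n)) :=
            Finset.sum_congr rfl (fun h _ => Finset.sum_congr rfl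
              (fun j _ => Finset.mul_sum _ _ _))
        _ = ∑ h ∈ HH H, ∑ w ∈ W.filter (fun w => Nat.Coprime w n), ∑ j ∈ Jn,
          (((q : ℝ) / (Nat.totient q * |(h : ℝ)|) : ℝ) : ℂ) * (lamU W Δ b r h j q w *
            ph (q * w) (h * k) ((b : ℤ) * n)) :=
            Finset.sum_congr rfl (fun h _ => Finset.sum_comm)
        _ = _ := Finset.sum_comm
    rw [e2, Finset.sum_filter]
    apply Finset.sum_congr rfl
    intro w hw
    have hwp := hW w hw
    by_cases hnw : Nat.Coprime w n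
    · rw [if_pos hnw, if_pos (hnq.mul_right hnw.symm)]
      have hw1 : ((w : ℂ) - 1) ≠ 0 := by
        have : (w : ℝ) - 1 ≠ 0 := by
          have : (2 : ℝ) ≤ w := by exact_mod_cast hwp.two_le
          linarith
        intro h
        apply this
        exact_mod_cast h
      have hw0 : (w : ℂ) ≠ 0 := by exact_mod_cast hwp.ne_zero
      have hqc : (q : ℂ) ≠ 0 := by exact_mod_cast hq0.ne'
      have hφ : (Nat.totient q : ℂ) ≠ 0 := by exact_mod_cast (Nat.totient_pos.mpr hq0).ne'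
      have e3 : ((Nat.totient (q * w) : ℕ) : ℂ) = Nat.totient q * ((w : ℂ) - 1) := by
        rw [Nat.totient_mul (hQW q hq w hw), Nat.totient_prime hwp]
        push_cast [Nat.cast_sub hwp.one_le]
        ring
      unfold MT
      rw [e3, Finset.mul_sum, Finset.mul_sum]
      apply Finset.sum_congr rfl
      intro h hh
      have hh0 : h ≠ 0 := by
        unfold HH at hh
        exact (Finset.mem_erase.mp hh).1
      have hh1 : ((|(h : ℝ)| : ℝ) : ℂ) ≠ 0 := by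
        have : |(h : ℝ)| ≠ 0 := abs_ne_zero.mpr (by exact_mod_cast hh0)
        exact_mod_cast this
      rw [Finset.mul_sum, Finset.mul_sum, Finset.mul_sum]
      apply Finset.sum_congr rfl
      intro j _
      unfold lamU
      rw [if_pos hw]
      push_cast
      field_simp
    · rw [if_neg hnw, if_neg]
      intro hc
      exact hnw (hc.coprime_mul_left_right).symm
  · rw [if_neg hnq]
    apply Finset.sum_eq_zero
    intro w _
    rw [if_neg]
    intro hc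
    exact hnq (hc.coprime_mul_right_right)

/-- the main term in total -/
theorem main_bound (hKK : S_KK_half) (hSC : Stmt_SC) {S Q W : Finset ℕ}
    (hs : ∀ g : ℕ → ℝ, ∑ u ∈ S, g u = ∑ q ∈ Q, ∑ w ∈ W, g (q * w))
    (P0 : ℝ) (hP0 : 1 ≤ P0) (L : ℕ)
    (hW : ∀ w ∈ W, w.Prime ∧ P0 < w ∧ (w : ℝ) ≤ 2 ^ L * P0) (hQ : ∀ q ∈ Q, Squarefree q)
    (hQW : ∀ q ∈ Q, ∀ w ∈ W, Nat.Coprime q w) (N b r Δ H Jm : ℕ) (hΔ : 0 < Δ)
    (hHu : ∀ q ∈ Q, ∀ w ∈ W, 2 * H < q * w) (k : ℤ) (hk : k ≠ 0)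
    (hbQ : ∀ q ∈ Q, Nat.Coprime b q) (hbW : ∀ w ∈ W, Nat.Coprime b w)
    (α : ℕ → ℝ) (hα : ∀ n, |α n| ≤ 1) (X : Finset ℕ) (hX : X ⊆ Icc 1 N)
    (Jn : ℕ → Finset ℕ) (hJ : ∀ n ∈ X, Jn n ⊆ range Jm) (Z : ℝ) (hZ0 : 0 ≤ Z)
    (hZ : ∀ q ∈ Q, ∀ C : ℝ, 0 ≤ C → C ≤ H * |(k : ℝ)| → ∀ P : ℝ, P0 ≤ P → P ≤ 2 ^ L * P0 →
      (N : ℝ) * scb (2 * P) N 1 q P C q.primeFactors.card ≤ (P * Z) ^ 2) :
    ‖∑ n ∈ X, (α n : ℂ) * ∑ u ∈ S.filter (fun u => Nat.Coprime n u),
        ((u : ℂ) / Nat.totient u) * MT Δ H b r k n (Jn n) u‖ ≤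
      (∑ h ∈ HH H, 1 / |(h : ℝ)|) * Jm * (∑ q ∈ Q, (q : ℝ) / Nat.totient q) *
        (L * (2 ^ L * P0 * Z)) := by
  have hQ0 : ∀ q ∈ Q, 0 < q := fun q hq => Nat.pos_of_ne_zero (hQ q hq).ne_zero
  have hWp : ∀ w ∈ W, w.Prime := fun w hw => (hW w hw).1
  set B : ℝ := L * (2 ^ L * P0 * Z) with hB
  have hc0 : ∀ q : ℕ, ∀ h : ℤ, 0 ≤ (q : ℝ) / (Nat.totient q * |(h : ℝ)|) := by
    intro q h
    positivity
  -- SC for one (h, j, q)
  have hone : ∀ h ∈ HH H, ∀ j : ℕ, ∀ q ∈ Q,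
      ∑ n ∈ (Icc 1 N).filter (fun n => Nat.Coprime n q), ‖TT W Δ b r k h j q n‖ ≤ B := by
    intro h hh j q hq
    unfold HH at hh
    rw [Finset.mem_erase, Finset.mem_Icc] at hh
    obtain ⟨h0, h1, h2⟩ := hh
    have habs : |h| ≤ (H : ℤ) := abs_le.mpr ⟨h1, h2⟩
    have hlam : ∀ w, ‖lamU W Δ b r h j q w‖ ≤ 1 :=
      norm_lamU hKK hΔ (hQ0 q hq) h0 hWp (fun w hw => by
        have := hHu q hq w hw
        omega)
    have hc : h * k ≠ 0 := mul_ne_zero h0 hk
    have hCb : |((h * k : ℤ) : ℝ)| ≤ H * |(k : ℝ)| := by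
      push_cast
      rw [abs_mul]
      apply mul_le_mul_of_nonneg_right _ (abs_nonneg _)
      rw [← Int.cast_abs]
      exact_mod_cast habs
    exact scW hSC W P0 hP0 L hW q N b (hQ q hq) (fun w hw => (hQW q hq w hw).symm) (h * k) hc
      (hbQ q hq) hbW (lamU W Δ b r h j q) hlam Z hZ0
      (fun P hp1 hp2 => hZ q hq _ (abs_nonneg _) hCb P hp1 hp2)
  calc ‖∑ n ∈ X, (α n : ℂ) * ∑ u ∈ S.filter (fun u => Nat.Coprime n u),
        ((u : ℂ) / Nat.totient u) * MT Δ H b r k n (Jn n) u‖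
      ≤ ∑ n ∈ X, ∑ h ∈ HH H, ∑ j ∈ range Jm, ∑ q ∈ Q,
        ((q : ℝ) / (Nat.totient q * |(h : ℝ)|)) *
          (if Nat.Coprime n q then ‖TT W Δ b r k h j q n‖ else 0) := by
        refine (norm_sum_le _ _).trans (Finset.sum_le_sum ?_)
        intro n hn
        rw [norm_mul, Complex.norm_real, Real.norm_eq_abs]
        refine (mul_le_of_le_one_left (norm_nonneg _) (hα n)).trans ?_
        rw [inner_eq hs hWp hQ0 hQW]
        refine (norm_sum_le _ _).trans (Finset.sum_le_sum ?_)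
        intro h _
        calc ‖∑ j ∈ Jn n, ∑ q ∈ Q.filter (fun q => Nat.Coprime n q),
            (((q : ℝ) / (Nat.totient q * |(h : ℝ)|) : ℝ) : ℂ) * TT W Δ b r k h j q n‖
            ≤ ∑ j ∈ Jn n, ∑ q ∈ Q, ((q : ℝ) / (Nat.totient q * |(h : ℝ)|)) *
              (if Nat.Coprime n q then ‖TT W Δ b r k h j q n‖ else 0) := by
              refine (norm_sum_le _ _).trans (Finset.sum_le_sum ?_)
              intro j _
              rw [Finset.sum_filter]
              refine (norm_sum_le _ _).trans (Finset.sum_le_sum ?_)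
              intro q _
              split_ifs
              · rw [norm_mul, Complex.norm_real, Real.norm_of_nonneg (hc0 q h)]
              · simp
          _ ≤ _ := by
              apply Finset.sum_le_sum_of_subset_of_nonneg (hJ n hn)
              intro j _ _
              apply Finset.sum_nonneg
              intro q _
              apply mul_nonneg (hc0 q h)
              split_ifs
              · exact norm_nonneg _
              · exact le_rfl
    _ = ∑ h ∈ HH H, ∑ j ∈ range Jm, ∑ q ∈ Q, ((q : ℝ) / (Nat.totient q * |(h : ℝ)|)) *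
          ∑ n ∈ X, (if Nat.Coprime n q then ‖TT W Δ b r k h j q n‖ else 0) := by
        rw [Finset.sum_comm]
        apply Finset.sum_congr rfl
        intro h _
        rw [Finset.sum_comm]
        apply Finset.sum_congr rfl
        intro j _
        rw [Finset.sum_comm]
        apply Finset.sum_congr rfl
        intro q _
        rw [Finset.mul_sum]
    _ ≤ ∑ h ∈ HH H, ∑ j ∈ range Jm, ∑ q ∈ Q, ((q : ℝ) / (Nat.totient q * |(h : ℝ)|)) * B := by
        apply Finset.sum_le_sum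
        intro h hh
        apply Finset.sum_le_sum
        intro j _
        apply Finset.sum_le_sum
        intro q hq
        apply mul_le_mul_of_nonneg_left _ (hc0 q h)
        refine le_trans ?_ (hone h hh j q hq)
        rw [Finset.sum_filter]
        apply Finset.sum_le_sum_of_subset_of_nonneg hX
        intro n _ _
        split_ifs
        · exact norm_nonneg _
        · exact le_rfl
    _ = (∑ h ∈ HH H, 1 / |(h : ℝ)|) * Jm * (∑ q ∈ Q, (q : ℝ) / Nat.totient q) * B := by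
        have e1 : ∀ h ∈ HH H, ∑ j ∈ range Jm, ∑ q ∈ Q,
            ((q : ℝ) / (Nat.totient q * |(h : ℝ)|)) * B =
            1 / |(h : ℝ)| * (Jm * (∑ q ∈ Q, (q : ℝ) / Nat.totient q) * B) := by
          intro h _
          rw [Finset.sum_const, Finset.card_range, nsmul_eq_mul, ← Finset.sum_mul]
          have e2 : ∑ q ∈ Q, (q : ℝ) / (Nat.totient q * |(h : ℝ)|) =
              1 / |(h : ℝ)| * ∑ q ∈ Q, (q : ℝ) / Nat.totient q := by
            rw [Finset.mul_sum]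
            apply Finset.sum_congr rfl
            intro q _
            rw [div_mul_eq_div_div, div_eq_mul_one_div _ |(h : ℝ)|]
            ring
          rw [e2]
          ring
        rw [Finset.sum_congr rfl e1, ← Finset.sum_mul]
        ring

end Pool.Agent.Helper62.UH
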