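import Pool.Agent.Helper62.AP.UHe

/-!
# MP_8958e8, A': block UH, the errors
-/

open Finset

namespace Pool.Agent.Helper62.UH

open Pool.Agent.Helper57.BG (ph scb Stmt_SC)

/-- a family of moduli -/
structure Fam (S : Finset ℕ) (U D0 : ℝ) : Prop where
  sq : ∀ u ∈ S, Squarefree u
  om : ∀ u ∈ S, u.primeFactors.card ≤ 7
  pr : ∀ u ∈ S, ∀ p : ℕ, p.Prime → p ∣ u → D0 < p
  le : ∀ u ∈ S, (u : ℝ) ≤ U

theorem Fam.pos {S : Finset ℕ} {U D0 : ℝ} (F : Fam S U D0) {u : ℕ} (hu : u ∈ S) : 0 < u :=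
  Nat.pos_of_ne_zero (F.sq u hu).ne_zero

theorem ratio_le {u : ℕ} (hu : 0 < u) (h7 : u.primeFactors.card ≤ 7) :
    (u : ℝ) / Nat.totient u ≤ 128 := by
  have hφ : (0 : ℝ) < Nat.totient u := by exact_mod_cast Nat.totient_pos.mpr hu
  rw [div_le_iff₀ hφ]
  have h1 := Nat.totient_eq_mul_prod_factors u
  have h2 : (1 / 2 : ℚ) ^ 7 ≤ ∏ p ∈ u.primeFactors, (1 - (p : ℚ)⁻¹) := by
    calc (1 / 2 : ℚ) ^ 7 ≤ (1 / 2 : ℚ) ^ u.primeFactors.card :=
          pow_le_pow_of_le_one (by norm_num) (by norm_num) h7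
      _ = ∏ p ∈ u.primeFactors, (1 / 2 : ℚ) := by rw [Finset.prod_const]
      _ ≤ _ := by
          apply Finset.prod_le_prod
          · intro _ _; norm_num
          · intro p hp
            have h3 := (Nat.prime_of_mem_primeFactors hp).two_le
            have h4 : (2 : ℚ) ≤ p := by exact_mod_cast h3
            have h5 : (p : ℚ)⁻¹ ≤ 2⁻¹ := by
              apply inv_anti₀ (by norm_num) h4
            linarith
  have h3 : (u : ℚ) * (1 / 2) ^ 7 ≤ (Nat.totient u : ℚ) := by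
    rw [h1]
    apply mul_le_mul_of_nonneg_left h2 (by positivity)
  have h4 : (((u : ℚ) * (1 / 2) ^ 7 : ℚ) : ℝ) ≤ ((Nat.totient u : ℚ) : ℝ) := by exact_mod_cast h3
  push_cast at h4
  norm_num at h4 ⊢
  linarith

theorem Fam.card_le {S : Finset ℕ} {U D0 : ℝ} (F : Fam S U D0) (hU : 0 ≤ U) :
    (S.card : ℝ) ≤ U := by
  have hs : S ⊆ Icc 1 ⌊U⌋₊ := by
    intro u hu
    rw [Finset.mem_Icc]
    exact ⟨F.pos hu, Nat.le_floor (F.le u hu)⟩
  have h1 := Finset.card_le_card hs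
  rw [Nat.card_Icc] at h1
  have h2 : (⌊U⌋₊ : ℝ) ≤ U := Nat.floor_le hU
  have h3 : (S.card : ℝ) ≤ (⌊U⌋₊ : ℝ) := by exact_mod_cast (by omega : S.card ≤ ⌊U⌋₊)
  linarith

theorem Fam.sum_inv {S : Finset ℕ} {U D0 : ℝ} (F : Fam S U D0) (hU : 1 ≤ U) :
    ∑ u ∈ S, (1 : ℝ) / Nat.totient u ≤ 128 * (1 + Real.log U) := by
  have h1 : ∀ u ∈ S, (1 : ℝ) / Nat.totient u ≤ 128 * (u : ℝ)⁻¹ := by
    intro u hu
    have h2 := ratio_le (F.pos hu) (F.om u hu)
    have h3 : (0 : ℝ) < u := by exact_mod_cast F.pos hu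
    have h4 : (1 : ℝ) / Nat.totient u = (u : ℝ) / Nat.totient u * (u : ℝ)⁻¹ := by
      field_simp
    rw [h4]
    exact mul_le_mul_of_nonneg_right h2 (by positivity)
  have hs : S ⊆ Icc 1 ⌊U⌋₊ := by
    intro u hu
    rw [Finset.mem_Icc]
    exact ⟨F.pos hu, Nat.le_floor (F.le u hu)⟩
  calc ∑ u ∈ S, (1 : ℝ) / Nat.totient u ≤ ∑ u ∈ S, 128 * (u : ℝ)⁻¹ := Finset.sum_le_sum h1
    _ ≤ ∑ u ∈ Icc 1 ⌊U⌋₊, 128 * (u : ℝ)⁻¹ :=
        Finset.sum_le_sum_of_subset_of_nonneg hs (fun _ _ _ => by positivity)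
    _ = 128 * (harmonic ⌊U⌋₊ : ℝ) := by
        rw [← Finset.mul_sum]
        congr 1
        rw [harmonic_eq_sum_Icc]
        push_cast
        rfl
    _ ≤ 128 * (1 + Real.log U) := by
        have := harmonic_floor_le_one_add_log U hU
        linarith

/-- the moduli not coprime to n -/
theorem part_nc {S : Finset ℕ} {U D0 : ℝ} (F : Fam S U D0) (hU : 1 ≤ U) (hD0 : 1 ≤ D0)
    {b r : ℕ} {k : ℤ} (hk : k ≠ 0) (hkD : |(k : ℝ)| ≤ D0) {N : ℕ} {X : Finset ℕ}
    (hX : X ⊆ Icc 1 N) (t0 t1 : ℕ → ℕ) {M : ℝ} (hM : 0 ≤ M)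
    (ht : ∀ n ∈ X, t0 n ≤ t1 n ∧ (t1 n : ℝ) - t0 n ≤ M) (α : ℕ → ℝ) (hα : ∀ n, |α n| ≤ 1) :
    |∑ n ∈ X, α n * ∑ u ∈ S.filter (fun u => ¬ Nat.Coprime n u),
      ((u : ℝ) / Nat.totient u) * DD b r k n (t0 n) (t1 n) u| ≤
      M * (7 * N / D0) * (128 * (1 + Real.log U)) := by
  have h1 : ∀ n ∈ X, |α n * ∑ u ∈ S.filter (fun u => ¬ Nat.Coprime n u),
      ((u : ℝ) / Nat.totient u) * DD b r k n (t0 n) (t1 n) u| ≤
      ∑ u ∈ S, (if Nat.Coprime n u then 0 else M * (1 / Nat.totient u)) := by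
    intro n hn
    rw [abs_mul]
    refine (mul_le_of_le_one_left (abs_nonneg _) (hα n)).trans ?_
    rw [Finset.sum_filter]
    refine (Finset.abs_sum_le_sum_abs _ _).trans (Finset.sum_le_sum ?_)
    intro u hu
    by_cases hc : Nat.Coprime n u
    · rw [if_neg (not_not.mpr hc), if_pos hc, abs_zero]
    · rw [if_pos hc, if_neg hc]
      obtain ⟨p, hp, hpn, hpu⟩ := Nat.Prime.not_coprime_iff_dvd.mp hc
      have hp1 := F.pr u hu p hp hpu
      have hkp : |k| < p := by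
        have h2 : |(k : ℝ)| < p := lt_of_le_of_lt hkD hp1
        rw [← Int.cast_abs] at h2
        exact_mod_cast h2
      rw [DD_not_coprime hk hpn hpu hkp]
      have hu0 : (0 : ℝ) < u := by exact_mod_cast F.pos hu
      have hφ : (0 : ℝ) < Nat.totient u := by exact_mod_cast Nat.totient_pos.mpr (F.pos hu)
      obtain ⟨h3, h4⟩ := ht n hn
      have h5 : 0 ≤ (t1 n : ℝ) - t0 n := by
        have : (t0 n : ℝ) ≤ t1 n := by exact_mod_cast h3
        linarith
      have h6 : (u : ℝ) / Nat.totient u * -(((t1 n : ℝ) - t0 n) / u) =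
          -(((t1 n : ℝ) - t0 n) * (1 / Nat.totient u)) := by
        field_simp
      rw [h6, abs_neg, abs_of_nonneg (by positivity)]
      exact mul_le_mul_of_nonneg_right h4 (by positivity)
  refine (Finset.abs_sum_le_sum_abs _ _).trans ((Finset.sum_le_sum h1).trans ?_)
  rw [Finset.sum_comm]
  have h2 : ∀ u ∈ S, ∑ n ∈ X, (if Nat.Coprime n u then (0 : ℝ) else M * (1 / Nat.totient u)) ≤
      M * (7 * N / D0) * (1 / Nat.totient u) := by
    intro u hu
    have hφ : (0 : ℝ) < Nat.totient u := by exact_mod_cast Nat.totient_pos.mpr (F.pos hu)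
    have h3 : ∑ n ∈ X, (if Nat.Coprime n u then (0 : ℝ) else M * (1 / Nat.totient u)) =
        ((X.filter (fun n => ¬ Nat.Coprime n u)).card : ℝ) * (M * (1 / Nat.totient u)) := by
      rw [← nsmul_eq_mul, ← Finset.sum_const, Finset.sum_filter]
      apply Finset.sum_congr rfl
      intro n _
      by_cases hc : Nat.Coprime n u <;> simp [hc]
    rw [h3]
    have h4 : ((X.filter (fun n => ¬ Nat.Coprime n u)).card : ℝ) ≤ 7 * N / D0 := by
      have hsub : X.filter (fun n => ¬ Nat.Coprime n u) ⊆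
          u.primeFactors.biUnion (fun p => (Ioc 0 N).filter (fun n => p ∣ n)) := by
        intro n hn
        rw [Finset.mem_filter] at hn
        obtain ⟨p, hp, hpn, hpu⟩ := Nat.Prime.not_coprime_iff_dvd.mp hn.2
        have hn1 := Finset.mem_Icc.mp (hX hn.1)
        rw [Finset.mem_biUnion]
        refine ⟨p, Nat.mem_primeFactors.mpr ⟨hp, hpu, (F.pos hu).ne'⟩, ?_⟩
        rw [Finset.mem_filter, Finset.mem_Ioc]
        exact ⟨⟨by omega, hn1.2⟩, hpn⟩
      have h5 := (Finset.card_le_card hsub).trans Finset.card_biUnion_le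
      calc ((X.filter (fun n => ¬ Nat.Coprime n u)).card : ℝ)
          ≤ ∑ p ∈ u.primeFactors, (((Ioc 0 N).filter (fun n => p ∣ n)).card : ℝ) := by
            exact_mod_cast h5
        _ ≤ ∑ p ∈ u.primeFactors, (N : ℝ) / D0 := by
            apply Finset.sum_le_sum
            intro p hp
            rw [Nat.Ioc_filter_dvd_card_eq_div]
            have hp1 := F.pr u hu p (Nat.prime_of_mem_primeFactors hp)
              (Nat.dvd_of_mem_primeFactors hp)
            refine Nat.cast_div_le.trans ?_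
            exact div_le_div_of_nonneg_left (by positivity) (by linarith) hp1.le
        _ = (u.primeFactors.card : ℝ) * ((N : ℝ) / D0) := by
            rw [Finset.sum_const, nsmul_eq_mul]
        _ ≤ 7 * ((N : ℝ) / D0) := by
            apply mul_le_mul_of_nonneg_right _ (by positivity)
            exact_mod_cast F.om u hu
        _ = 7 * N / D0 := by ring
    calc ((X.filter (fun n => ¬ Nat.Coprime n u)).card : ℝ) * (M * (1 / Nat.totient u))
        ≤ (7 * N / D0) * (M * (1 / Nat.totient u)) :=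
          mul_le_mul_of_nonneg_right h4 (by positivity)
      _ = _ := by ring
  refine (Finset.sum_le_sum h2).trans ?_
  rw [← Finset.mul_sum]
  exact mul_le_mul_of_nonneg_left (F.sum_inv hU) (by positivity)

/-- the trivial bound -/
theorem part_triv {S : Finset ℕ} {U D0 : ℝ} (F : Fam S U D0) {b r : ℕ} {k : ℤ}
    (hb : ∀ u ∈ S, Nat.Coprime b u) (X : Finset ℕ) (t0 t1 : ℕ → ℕ)
    (ht : ∀ n ∈ X, t0 n ≤ t1 n) (α : ℕ → ℝ) (hα : ∀ n, |α n| ≤ 1) :
    |∑ n ∈ X, α n * ∑ u ∈ S.filter (fun u => Nat.Coprime n u),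
      ((u : ℝ) / Nat.totient u) * DD b r k n (t0 n) (t1 n) u| ≤ X.card * (128 * S.card) := by
  have h1 : ∀ n ∈ X, |α n * ∑ u ∈ S.filter (fun u => Nat.Coprime n u),
      ((u : ℝ) / Nat.totient u) * DD b r k n (t0 n) (t1 n) u| ≤ 128 * S.card := by
    intro n hn
    rw [abs_mul]
    refine (mul_le_of_le_one_left (abs_nonneg _) (hα n)).trans ?_
    calc |∑ u ∈ S.filter (fun u => Nat.Coprime n u),
        ((u : ℝ) / Nat.totient u) * DD b r k n (t0 n) (t1 n) u|
        ≤ ∑ u ∈ S.filter (fun u => Nat.Coprime n u), (128 : ℝ) := by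
          refine (Finset.abs_sum_le_sum_abs _ _).trans (Finset.sum_le_sum ?_)
          intro u hu
          rw [Finset.mem_filter] at hu
          have h2 := ratio_le (F.pos hu.1) (F.om u hu.1)
          have h3 := DD_trivial (r := r) (k := k) (ht n hn) (F.pos hu.1) hu.2 (hb u hu.1)
          rw [abs_mul, abs_of_nonneg (by positivity)]
          calc (u : ℝ) / Nat.totient u * |DD b r k n (t0 n) (t1 n) u| ≤ 128 * 1 :=
                mul_le_mul h2 h3 (abs_nonneg _) (by norm_num)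
            _ = 128 := by norm_num
      _ = ((S.filter (fun u => Nat.Coprime n u)).card : ℝ) * 128 := by
          rw [Finset.sum_const, nsmul_eq_mul]
      _ ≤ (S.card : ℝ) * 128 := by
          apply mul_le_mul_of_nonneg_right _ (by norm_num)
          exact_mod_cast Finset.card_filter_le _ _
      _ = 128 * S.card := by ring
  refine (Finset.abs_sum_le_sum_abs _ _).trans ((Finset.sum_le_sum h1).trans ?_)
  rw [Finset.sum_const, nsmul_eq_mul]

/-- the edges -/
noncomputable def Edge (Δ t0 t1 : ℕ) : Finset ℤ :=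
  Ico ((t0 : ℤ) - Δ) (t0 + Δ) ∪ Ico ((t1 : ℤ) - 2 * Δ) t1

theorem card_Edge (Δ t0 t1 : ℕ) : ((Edge Δ t0 t1).card : ℝ) ≤ 4 * Δ := by
  unfold Edge
  have h1 := Finset.card_union_le (Ico ((t0 : ℤ) - Δ) (t0 + Δ)) (Ico ((t1 : ℤ) - 2 * Δ) t1)
  rw [Int.card_Ico, Int.card_Ico] at h1
  have h2 : (Ico ((t0 : ℤ) - Δ) (t0 + Δ) ∪ Ico ((t1 : ℤ) - 2 * Δ) t1).card ≤ 4 * Δ := by omega
  exact_mod_cast h2

/-- the passage to the main term -/
theorem part_main (hhat : S_hat1) (hcnt : S_cnt) (hlen : S_cnt_len)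
    {S : Finset ℕ} {U D0 : ℝ} (F : Fam S U D0) (hU : 1 ≤ U) {b r : ℕ} {k : ℤ}
    (hb : ∀ u ∈ S, Nat.Coprime b u) (X : Finset ℕ) (t0 t1 : ℕ → ℕ)
    (ht : ∀ n ∈ X, t0 n ≤ t1 n) (α : ℕ → ℝ) (hα : ∀ n, |α n| ≤ 1) {Δ H : ℕ}
    (hΔ : 0 < Δ) (hH : 1 ≤ H) (hHu : ∀ u ∈ S, 2 * H < u) {E1 Jm : ℝ} (hE1 : 0 ≤ E1)
    (hV : ∀ n ∈ X, ∀ t ∈ Edge Δ (t0 n) (t1 n), ∑ u ∈ S,
      (if (u : ℤ) ∣ (n : ℤ) * ((r : ℤ) + b * t) + k then (u : ℝ) / Nat.totient u else 0) ≤ E1)
    (hJ : ∀ n ∈ X, ((Ico ((t0 n + Δ - 1) / Δ) (t1 n / Δ)).card : ℝ) ≤ Jm) :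
    |∑ n ∈ X, α n * ∑ u ∈ S.filter (fun u => Nat.Coprime n u),
      ((u : ℝ) / Nat.totient u) * DD b r k n (t0 n) (t1 n) u| ≤
    ‖∑ n ∈ X, (α n : ℂ) * ∑ u ∈ S.filter (fun u => Nat.Coprime n u),
        ((u : ℂ) / Nat.totient u) *
          MT Δ H b r k n (Ico ((t0 n + Δ - 1) / Δ) (t1 n / Δ)) u‖ +
      X.card * (4 * Δ * E1 + 128 * S.card * (Jm * (U / (2 * H * Δ))) +
        2 * Δ * (128 * (1 + Real.log U))) := by
  set MTn : ℕ → ℕ → ℂ := fun n u =>
    MT Δ H b r k n (Ico ((t0 n + Δ - 1) / Δ) (t1 n / Δ)) u with hMTn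
  set A : ℂ := ((∑ n ∈ X, α n * ∑ u ∈ S.filter (fun u => Nat.Coprime n u),
      ((u : ℝ) / Nat.totient u) * DD b r k n (t0 n) (t1 n) u : ℝ) : ℂ) with hA
  set B : ℂ := ∑ n ∈ X, (α n : ℂ) * ∑ u ∈ S.filter (fun u => Nat.Coprime n u),
        ((u : ℂ) / Nat.totient u) * MTn n u with hB
  have hAB : A - B = ∑ n ∈ X, (α n : ℂ) * ∑ u ∈ S.filter (fun u => Nat.Coprime n u),
      ((u : ℂ) / Nat.totient u) * (((DD b r k n (t0 n) (t1 n) u : ℝ) : ℂ) - MTn n u) := by
    rw [hA, hB]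
    push_cast
    rw [← Finset.sum_sub_distrib]
    apply Finset.sum_congr rfl
    intro n _
    rw [← mul_sub, ← Finset.sum_sub_distrib]
    congr 1
    apply Finset.sum_congr rfl
    intro u _
    ring
  have hφ0 : ∀ u : ℕ, (0 : ℝ) ≤ (u : ℝ) / Nat.totient u := fun u => by positivity
  have hHr : (0 : ℝ) < H := by exact_mod_cast hH
  have hΔr : (0 : ℝ) < Δ := by exact_mod_cast hΔ
  have hJm0 : ∀ n ∈ X, 0 ≤ Jm := fun n hn => le_trans (by positivity) (hJ n hn)
  have hn1 : ∀ n ∈ X, ‖(α n : ℂ) * ∑ u ∈ S.filter (fun u => Nat.Coprime n u),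
      ((u : ℂ) / Nat.totient u) * (((DD b r k n (t0 n) (t1 n) u : ℝ) : ℂ) - MTn n u)‖ ≤
      4 * Δ * E1 + 128 * S.card * (Jm * (U / (2 * H * Δ))) +
        2 * Δ * (128 * (1 + Real.log U)) := by
    intro n hn
    have hJm := hJm0 n hn
    rw [norm_mul, Complex.norm_real, Real.norm_eq_abs]
    refine (mul_le_of_le_one_left (norm_nonneg _) (hα n)).trans ?_
    calc ‖∑ u ∈ S.filter (fun u => Nat.Coprime n u),
        ((u : ℂ) / Nat.totient u) * (((DD b r k n (t0 n) (t1 n) u : ℝ) : ℂ) - MTn n u)‖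
        ≤ ∑ u ∈ S.filter (fun u => Nat.Coprime n u), ((u : ℝ) / Nat.totient u) *
          ((((Edge Δ (t0 n) (t1 n)).filter
            (fun t => (u : ℤ) ∣ (n : ℤ) * ((r : ℤ) + b * t) + k)).card : ℝ) +
          ((Ico ((t0 n + Δ - 1) / Δ) (t1 n / Δ)).card : ℝ) * (u / (2 * H * Δ)) +
            2 * Δ / u) := by
          refine (norm_sum_le _ _).trans (Finset.sum_le_sum ?_)
          intro u hu
          rw [Finset.mem_filter] at hu
          rw [norm_mul]
          have e1 : ‖(u : ℂ) / Nat.totient u‖ = (u : ℝ) / Nat.totient u := by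
            rw [norm_div, Complex.norm_natCast, Complex.norm_natCast]
          rw [e1]
          apply mul_le_mul_of_nonneg_left _ (hφ0 u)
          exact DD_hat hhat hcnt hlen (ht n hn) hu.2 (hb u hu.1) hΔ hH (hHu u hu.1)
      _ ≤ ∑ u ∈ S, ((u : ℝ) / Nat.totient u) *
          ((((Edge Δ (t0 n) (t1 n)).filter
            (fun t => (u : ℤ) ∣ (n : ℤ) * ((r : ℤ) + b * t) + k)).card : ℝ) +
          ((Ico ((t0 n + Δ - 1) / Δ) (t1 n / Δ)).card : ℝ) * (u / (2 * H * Δ)) +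
            2 * Δ / u) := by
          apply Finset.sum_le_sum_of_subset_of_nonneg (Finset.filter_subset _ _)
          intro u _ _
          apply mul_nonneg (hφ0 u)
          positivity
      _ = ∑ u ∈ S, ((u : ℝ) / Nat.totient u) * (((Edge Δ (t0 n) (t1 n)).filter
            (fun t => (u : ℤ) ∣ (n : ℤ) * ((r : ℤ) + b * t) + k)).card : ℝ) +
          ∑ u ∈ S, ((u : ℝ) / Nat.totient u) *
            (((Ico ((t0 n + Δ - 1) / Δ) (t1 n / Δ)).card : ℝ) * (u / (2 * H * Δ))) +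
          ∑ u ∈ S, ((u : ℝ) / Nat.totient u) * (2 * Δ / u) := by
          rw [← Finset.sum_add_distrib, ← Finset.sum_add_distrib]
          apply Finset.sum_congr rfl
          intro u _
          ring
      _ ≤ 4 * Δ * E1 + 128 * S.card * (Jm * (U / (2 * H * Δ))) +
        2 * Δ * (128 * (1 + Real.log U)) := by
          refine add_le_add (add_le_add ?_ ?_) ?_
          · have e2 : ∀ u ∈ S, ((u : ℝ) / Nat.totient u) * (((Edge Δ (t0 n) (t1 n)).filter
                (fun t => (u : ℤ) ∣ (n : ℤ) * ((r : ℤ) + b * t) + k)).card : ℝ) =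
                ∑ t ∈ Edge Δ (t0 n) (t1 n), (if (u : ℤ) ∣ (n : ℤ) * ((r : ℤ) + b * t) + k then
                  (u : ℝ) / Nat.totient u else 0) := by
              intro u _
              rw [← Finset.sum_filter, Finset.sum_const, nsmul_eq_mul]
              ring
            rw [Finset.sum_congr rfl e2, Finset.sum_comm]
            calc _ ≤ ∑ t ∈ Edge Δ (t0 n) (t1 n), E1 := Finset.sum_le_sum (hV n hn)
              _ = ((Edge Δ (t0 n) (t1 n)).card : ℝ) * E1 := by
                  rw [Finset.sum_const, nsmul_eq_mul]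
              _ ≤ 4 * Δ * E1 := mul_le_mul_of_nonneg_right (card_Edge _ _ _) hE1
          · calc ∑ u ∈ S, ((u : ℝ) / Nat.totient u) *
                (((Ico ((t0 n + Δ - 1) / Δ) (t1 n / Δ)).card : ℝ) * (u / (2 * H * Δ)))
                ≤ ∑ u ∈ S, 128 * (Jm * (U / (2 * H * Δ))) := by
                  apply Finset.sum_le_sum
                  intro u hu
                  have h2 := ratio_le (F.pos hu) (F.om u hu)
                  have h3 : (u : ℝ) / (2 * H * Δ) ≤ U / (2 * H * Δ) :=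
                    div_le_div_of_nonneg_right (F.le u hu) (by positivity)
                  have h4 := hJ n hn
                  apply mul_le_mul h2 (mul_le_mul h4 h3 (by positivity) hJm) (by positivity)
                    (by norm_num)
              _ = _ := by
                  rw [Finset.sum_const, nsmul_eq_mul]
                  ring
          · have e3 : ∀ u ∈ S, ((u : ℝ) / Nat.totient u) * (2 * Δ / u) =
                2 * Δ * (1 / Nat.totient u) := by
              intro u hu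
              have : (0 : ℝ) < u := by exact_mod_cast F.pos hu
              field_simp
            rw [Finset.sum_congr rfl e3, ← Finset.mul_sum]
            exact mul_le_mul_of_nonneg_left (F.sum_inv hU) (by positivity)
  have h2 : ‖A - B‖ ≤ X.card * (4 * Δ * E1 + 128 * S.card * (Jm * (U / (2 * H * Δ))) +
        2 * Δ * (128 * (1 + Real.log U))) := by
    rw [hAB]
    refine (norm_sum_le _ _).trans ((Finset.sum_le_sum hn1).trans ?_)
    rw [Finset.sum_const, nsmul_eq_mul]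
  have h3 : |∑ n ∈ X, α n * ∑ u ∈ S.filter (fun u => Nat.Coprime n u),
      ((u : ℝ) / Nat.totient u) * DD b r k n (t0 n) (t1 n) u| = ‖A‖ := by
    rw [hA, Complex.norm_real, Real.norm_eq_abs]
  rw [h3]
  calc ‖A‖ = ‖B + (A - B)‖ := by congr 1; ring
    _ ≤ ‖B‖ + ‖A - B‖ := norm_add_le _ _
    _ ≤ _ := by linarith

end Pool.Agent.Helper62.UH
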